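import Pool.Agent.K6.H33.FZ.Mid

set_option autoImplicit false

/-! The mean of the derivative of zeta on the critical line. -/

namespace Pool.Agent.K6.H33.FZ

open MeasureTheory Set Filter
open scoped Real
open Pool.Agent.W184 (zn zn_nonneg zn_cont zn_le)

noncomputable section

lemma cm_re (t R θ : ℝ) : (circleMap (1 / 2 + (t:ℂ) * Complex.I) R θ).re = 1 / 2 + R * Real.cos θ := by
  rw [circleMap, Complex.add_re, Complex.exp_mul_I, ← Complex.ofReal_cos, ← Complex.ofReal_sin]
  simp [Complex.cos_ofReal_re]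

lemma cm_eq (t R θ : ℝ) : circleMap (1 / 2 + (t:ℂ) * Complex.I) R θ =
    ((1 / 2 + R * Real.cos θ : ℝ) : ℂ) + ((t + R * Real.sin θ : ℝ) : ℂ) * Complex.I := by
  rw [circleMap, Complex.exp_mul_I, ← Complex.ofReal_cos, ← Complex.ofReal_sin]
  push_cast
  ring

lemma ne_one_of_re {z : ℂ} (h : z.re < 1) : z ≠ 1 := by
  rintro rfl
  simp at h

/-- the continuity of zeta on circles -/
lemma cm_cont {R : ℝ} (h0 : 0 < R) (h1 : R < 1 / 2) :
    Continuous (fun q : ℝ × ℝ => ‖riemannZeta (circleMap (1 / 2 + (q.1:ℂ) * Complex.I) R q.2)‖) := by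
  refine Continuous.norm ?_
  rw [continuous_iff_continuousAt]
  intro q
  have h2 : (circleMap (1 / 2 + (q.1:ℂ) * Complex.I) R q.2).re < 1 := by
    rw [cm_re]
    have := Real.cos_le_one q.2
    nlinarith
  have h3 := (differentiableAt_riemannZeta (ne_one_of_re h2)).continuousAt
  refine ContinuousAt.comp (f := fun q : ℝ × ℝ => circleMap (1 / 2 + (q.1:ℂ) * Complex.I) R q.2) h3 ?_
  unfold circleMap
  fun_prop

/-- Cauchy's inequality in the mean -/
lemma cauchy_mean {R : ℝ} (h0 : 0 < R) (h1 : R < 1 / 2) (t : ℝ) :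
    ‖deriv riemannZeta (1 / 2 + (t:ℂ) * Complex.I)‖ ≤
      1 / (2 * π * R) * ∫ θ in (0:ℝ)..(2 * π), ‖riemannZeta (circleMap (1 / 2 + (t:ℂ) * Complex.I) R θ)‖ := by
  set c : ℂ := 1 / 2 + (t:ℂ) * Complex.I with hc
  have hcre : c.re = 1 / 2 := by simp [hc]
  have hd : DifferentiableOn ℂ riemannZeta (Metric.closedBall c R) := by
    intro z hz
    rw [Metric.mem_closedBall, dist_eq_norm] at hz
    have h2 := (Complex.abs_re_le_norm (z - c)).trans hz
    rw [Complex.sub_re, hcre] at h2
    have h3 := (abs_le.mp h2).2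
    exact (differentiableAt_riemannZeta (ne_one_of_re (by linarith))).differentiableWithinAt
  have h2 := DifferentiableOn.deriv_eq_smul_circleIntegral h0 hd
  have e1 : ‖(2 * (π:ℂ) * Complex.I)‖ = 2 * π := by
    rw [norm_mul, Complex.norm_I, mul_one, norm_mul, Complex.norm_real, Real.norm_of_nonneg Real.pi_pos.le]
    simp
  have h3 : ‖∮ z in C(c, R), (1 / (z - c) ^ 2) • riemannZeta z‖ ≤
      ∫ θ in (0:ℝ)..(2 * π), R⁻¹ * ‖riemannZeta (circleMap c R θ)‖ := by
    unfold circleIntegral
    refine (intervalIntegral.norm_integral_le_integral_norm (by positivity)).trans (le_of_eq ?_)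
    refine intervalIntegral.integral_congr fun θ _ => ?_
    simp only
    rw [norm_smul, norm_smul, deriv_circleMap, norm_mul, Complex.norm_I, mul_one, norm_circleMap_zero,
      circleMap_sub_center, norm_div, norm_one, norm_pow, norm_circleMap_zero, abs_of_pos h0, ← mul_assoc]
    congr 1
    field_simp
  rw [intervalIntegral.integral_const_mul, h2, norm_smul, e1] at h3
  have hp : 0 < 2 * π := by positivity
  calc ‖deriv riemannZeta c‖ = (2 * π)⁻¹ * (2 * π * ‖deriv riemannZeta c‖) := by
        field_simp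
    _ ≤ (2 * π)⁻¹ * (R⁻¹ * ∫ θ in (0:ℝ)..(2 * π), ‖riemannZeta (circleMap c R θ)‖) := by gcongr
    _ = _ := by
        rw [← mul_assoc]
        congr 1
        field_simp

/-- **the mean of the derivative** -/
theorem der_mean : ∃ C : ℝ, 0 ≤ C ∧ ∀ᶠ T : ℝ in atTop,
    ∫ t in (T / 2)..(5 * T / 2), ‖deriv riemannZeta (1 / 2 + (t:ℂ) * Complex.I)‖ ≤ C * (T * Real.log T ^ 2) := by
  obtain ⟨C, hC, h⟩ := a_STRIP (1 / 2) 2 (by norm_num) (by norm_num) (by norm_num)
  refine ⟨C, by linarith, ?_⟩
  have ht : Tendsto (fun T : ℝ => 9 * T / 10) atTop atTop := by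
    have : Tendsto (fun T : ℝ => (9 / 10) * T) atTop atTop := tendsto_id.const_mul_atTop (by norm_num)
    refine this.congr fun T => by ring
  filter_upwards [ht.eventually h, Real.tendsto_log_atTop.eventually_ge_atTop 4, eventually_ge_atTop 100] with T h1 h2 h3
  have hT0 : 0 < T := by linarith
  set L := Real.log T with hL
  have hL0 : 0 < L := by linarith
  set R : ℝ := 1 / L with hR
  have hR0 : 0 < R := by positivity
  have hR1 : R ≤ 1 / 4 := one_div_le_one_div_of_le (by norm_num) h2
  have hR2 : R < 1 / 2 := by linarith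
  set F : ℝ → ℝ → ℝ := fun t θ => ‖riemannZeta (circleMap (1 / 2 + (t:ℂ) * Complex.I) R θ)‖ with hF
  have hFc : Continuous F.uncurry := cm_cont hR0 hR2
  set T' := 9 * T / 10 with hT'
  have hL' : Real.log T' ≤ L := Real.log_le_log (by rw [hT']; linarith) (by rw [hT']; linarith)
  have hL'0 : 0 < Real.log T' := Real.log_pos (by rw [hT']; linarith)
  have hdc : Continuous (fun t : ℝ => ‖deriv riemannZeta (1 / 2 + (t:ℂ) * Complex.I)‖) := by
    refine Continuous.norm ?_
    rw [continuous_iff_continuousAt]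
    intro t
    have h4 : AnalyticAt ℂ riemannZeta (1 / 2 + (t:ℂ) * Complex.I) := by
      have hopen : IsOpen {z : ℂ | z.re < 1} := isOpen_lt Complex.continuous_re continuous_const
      refine DifferentiableOn.analyticAt (s := {z : ℂ | z.re < 1}) (fun z hz =>
        (differentiableAt_riemannZeta (ne_one_of_re hz)).differentiableWithinAt) (hopen.mem_nhds ?_)
      show (1 / 2 + (t:ℂ) * Complex.I).re < 1
      simp
      norm_num
    exact ContinuousAt.comp (f := fun t : ℝ => (1 / 2 + (t:ℂ) * Complex.I)) h4.deriv.continuousAt (by fun_prop)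
  have hab : T / 2 ≤ 5 * T / 2 := by linarith
  have hc1 : Continuous (fun t => ∫ θ in (0:ℝ)..(2 * π), F t θ) :=
    intervalIntegral.continuous_parametric_intervalIntegral_of_continuous' hFc 0 (2 * π)
  have s1 : ∫ t in (T / 2)..(5 * T / 2), ‖deriv riemannZeta (1 / 2 + (t:ℂ) * Complex.I)‖ ≤
      ∫ t in (T / 2)..(5 * T / 2), 1 / (2 * π * R) * ∫ θ in (0:ℝ)..(2 * π), F t θ := by
    refine intervalIntegral.integral_mono_on hab (hdc.intervalIntegrable _ _) ?_ fun t _ => cauchy_mean hR0 hR2 t
    exact (continuous_const.mul hc1).intervalIntegrable _ _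
  rw [intervalIntegral.integral_const_mul, Pool.Agent.Y568.UP.swap_cont hFc] at s1
  have s2 : ∫ θ in (0:ℝ)..(2 * π), ∫ t in (T / 2)..(5 * T / 2), F t θ ≤
      ∫ _θ in (0:ℝ)..(2 * π), C * (T * L ^ (1 / 4 : ℝ)) := by
    refine intervalIntegral.integral_mono_on (by positivity) ?_ (continuous_const.intervalIntegrable _ _) fun θ _ => ?_
    · have hc2 : Continuous (fun θ => ∫ t in (T / 2)..(5 * T / 2), F t θ) := by
        have hsw : Continuous (fun θ t => F t θ).uncurry := hFc.comp continuous_swap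
        exact intervalIntegral.continuous_parametric_intervalIntegral_of_continuous' hsw _ _
      exact hc2.intervalIntegrable _ _
    · have hx : |R * Real.cos θ| ≤ 2 / Real.log T' := by
        rw [abs_mul, abs_of_pos hR0]
        have h4 := Real.abs_cos_le_one θ
        calc R * |Real.cos θ| ≤ R * 1 := by gcongr
          _ = 1 / L := by rw [mul_one]
          _ ≤ 2 / Real.log T' := by
              rw [div_le_div_iff₀ hL0 hL'0]; linarith
      have h5 := h1 (R * Real.cos θ) hx
      have hs := Real.abs_sin_le_one θ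
      have hs1 : |R * Real.sin θ| ≤ 1 := by
        rw [abs_mul, abs_of_pos hR0]; nlinarith [abs_nonneg (Real.sin θ)]
      have hs2 := abs_le.mp hs1
      set x := R * Real.cos θ with hxd
      have hx2 : 1 / 2 + x < 1 := by
        have := (abs_le.mp (show |x| ≤ R from by
          rw [hxd, abs_mul, abs_of_pos hR0]; nlinarith [Real.abs_cos_le_one θ])).2
        linarith
      have hzc : Continuous (fun t : ℝ => ‖riemannZeta (((1 / 2 + x : ℝ) : ℂ) + t * Complex.I)‖) := zn_cont hx2
      have e1 : ∀ t, F t θ = (fun u : ℝ => ‖riemannZeta (((1 / 2 + x : ℝ) : ℂ) + u * Complex.I)‖) (t + R * Real.sin θ) := by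
        intro t
        simp only [hF]
        rw [cm_eq]
      simp_rw [e1]
      rw [intervalIntegral.integral_comp_add_right (fun u : ℝ => ‖riemannZeta (((1 / 2 + x : ℝ) : ℂ) + u * Complex.I)‖)]
      have e2 : ∀ t : ℝ, ‖riemannZeta (((1 / 2 + x : ℝ) : ℂ) + t * Complex.I)‖ ^ (2 * (1 / 2 : ℝ)) =
          ‖riemannZeta (((1 / 2 + x : ℝ) : ℂ) + t * Complex.I)‖ := fun t => by norm_num
      simp_rw [e2] at h5
      refine (intervalIntegral.integral_mono_interval (c := T' / 2) (d := 3 * T') ?_ (by linarith) ?_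
        (Filter.Eventually.of_forall fun t => norm_nonneg _) (hzc.intervalIntegrable _ _)).trans (h5.trans ?_)
      · rw [hT']; linarith
      · rw [hT']; linarith
      · have h6 : Real.log T' ^ ((1 / 2 : ℝ) ^ 2) ≤ L ^ (1 / 4 : ℝ) := by
          rw [show ((1 / 2 : ℝ) ^ 2) = 1 / 4 by norm_num]
          exact Real.rpow_le_rpow hL'0.le hL' (by norm_num)
        have h7 : T' ≤ T := by rw [hT']; linarith
        gcongr
  rw [intervalIntegral.integral_const, smul_eq_mul, sub_zero] at s2
  have hpi := Real.pi_pos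
  refine s1.trans ((mul_le_mul_of_nonneg_left s2 (by positivity)).trans ?_)
  have e3 : 1 / (2 * π * R) * (2 * π * (C * (T * L ^ (1 / 4 : ℝ)))) = C * (T * (L * L ^ (1 / 4 : ℝ))) := by
    rw [hR]; field_simp
  rw [e3]
  have h8 : L * L ^ (1 / 4 : ℝ) ≤ L ^ 2 := by
    have : L ^ (1 / 4 : ℝ) ≤ L ^ (1:ℝ) := Real.rpow_le_rpow_of_exponent_le (by linarith) (by norm_num)
    rw [Real.rpow_one] at this
    nlinarith
  gcongr

lemma dz_cont0 : Continuous (fun t : ℝ => ‖deriv riemannZeta (1 / 2 + (t:ℂ) * Complex.I)‖) := by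
  refine Continuous.norm ?_
  rw [continuous_iff_continuousAt]
  intro t
  have h4 : AnalyticAt ℂ riemannZeta (1 / 2 + (t:ℂ) * Complex.I) := by
    have hopen : IsOpen {z : ℂ | z.re < 1} := isOpen_lt Complex.continuous_re continuous_const
    refine DifferentiableOn.analyticAt (s := {z : ℂ | z.re < 1}) (fun z hz =>
      (differentiableAt_riemannZeta (ne_one_of_re hz)).differentiableWithinAt) (hopen.mem_nhds ?_)
    show (1 / 2 + (t:ℂ) * Complex.I).re < 1
    simp
    norm_num
  exact ContinuousAt.comp (f := fun t : ℝ => (1 / 2 + (t:ℂ) * Complex.I)) h4.deriv.continuousAt (by fun_prop)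

/-- the mean of the derivative over a wider range -/
theorem der_mean2 : ∃ C : ℝ, 0 ≤ C ∧ ∀ᶠ T : ℝ in atTop,
    ∫ t in (T / 4)..(3 * T), ‖deriv riemannZeta (1 / 2 + (t:ℂ) * Complex.I)‖ ≤ C * (T * Real.log T ^ 2) := by
  obtain ⟨C, hC, h⟩ := der_mean
  refine ⟨7 * C, by positivity, ?_⟩
  have t1 : Tendsto (fun T : ℝ => T / 2) atTop atTop := tendsto_id.atTop_div_const (by norm_num)
  have t2 : Tendsto (fun T : ℝ => 6 * T / 5) atTop atTop := by
    have : Tendsto (fun T : ℝ => (6 / 5) * T) atTop atTop := tendsto_id.const_mul_atTop (by norm_num)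
    refine this.congr fun T => by ring
  filter_upwards [t1.eventually h, t2.eventually h, eventually_ge_atTop 100] with T h1 h2 h3
  have hT0 : 0 < T := by linarith
  have hi := fun a b : ℝ => dz_cont0.intervalIntegrable (μ := volume) a b
  set f : ℝ → ℝ := fun t => ‖deriv riemannZeta (1 / 2 + (t:ℂ) * Complex.I)‖ with hf
  have hf0 : ∀ t, 0 ≤ f t := fun t => norm_nonneg _
  have e1 : ∫ t in (T / 4)..(3 * T), f t = (∫ t in (T / 4)..T, f t) + ∫ t in T..(3 * T), f t :=
    (intervalIntegral.integral_add_adjacent_intervals (hi _ _) (hi _ _)).symm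
  have e2 : ∫ t in (T / 4)..T, f t ≤ ∫ t in (T / 2 / 2)..(5 * (T / 2) / 2), f t :=
    intervalIntegral.integral_mono_interval (by linarith) (by linarith) (by linarith)
      (Filter.Eventually.of_forall hf0) (hi _ _)
  have e3 : ∫ t in T..(3 * T), f t ≤ ∫ t in (6 * T / 5 / 2)..(5 * (6 * T / 5) / 2), f t :=
    intervalIntegral.integral_mono_interval (by linarith) (by linarith) (by linarith)
      (Filter.Eventually.of_forall hf0) (hi _ _)
  have l0 : 0 < Real.log T := Real.log_pos (by linarith)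
  have l1 : Real.log (T / 2) ^ 2 ≤ Real.log T ^ 2 :=
    pow_le_pow_left₀ (Real.log_nonneg (by linarith)) (Real.log_le_log (by linarith) (by linarith)) 2
  have l2 : Real.log (6 * T / 5) ^ 2 ≤ (2 * Real.log T) ^ 2 := by
    refine pow_le_pow_left₀ (Real.log_nonneg (by linarith)) ?_ 2
    have : 2 * Real.log T = Real.log (T ^ 2) := by rw [Real.log_pow]; push_cast; ring
    rw [this]
    exact Real.log_le_log (by linarith) (by nlinarith)
  rw [e1]
  calc (∫ t in (T / 4)..T, f t) + ∫ t in T..(3 * T), f t ≤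
        C * (T / 2 * Real.log (T / 2) ^ 2) + C * (6 * T / 5 * Real.log (6 * T / 5) ^ 2) := by
        linarith
    _ ≤ C * (T / 2 * Real.log T ^ 2) + C * (6 * T / 5 * (2 * Real.log T) ^ 2) := by gcongr
    _ ≤ _ := by
        have : 0 ≤ C * (T * Real.log T ^ 2) := by positivity
        nlinarith

end

end Pool.Agent.K6.H33.FZ
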