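import Pool.Agent.K6.H33.FZ.Sam

set_option autoImplicit false

/-! The sampling lemma: iteration. -/

namespace Pool.Agent.K6.H33.FZ

open MeasureTheory Set
open scoped ENNReal

noncomputable section

/-- the soft indicator of `z < v` -/
def cl (v w : ℝ) : ℝ := max 0 (min 1 (2 - w / v))

lemma cl_nonneg (v w : ℝ) : 0 ≤ cl v w := le_max_left _ _

lemma cl_le_one (v w : ℝ) : cl v w ≤ 1 := max_le zero_le_one (min_le_left _ _)

lemma cl_eq_one {v w : ℝ} (hv : 0 < v) (h : w ≤ v) : cl v w = 1 := by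
  have h1 : w / v ≤ 1 := (div_le_one hv).mpr h
  unfold cl
  rw [min_eq_left (by linarith), max_eq_right zero_le_one]

lemma cl_eq_zero {v w : ℝ} (hv : 0 < v) (h : 2 * v ≤ w) : cl v w = 0 := by
  have h1 : 2 ≤ w / v := by rw [le_div_iff₀ hv]; exact h
  unfold cl
  exact max_eq_left ((min_le_right _ _).trans (by linarith))

lemma cl_lip {v : ℝ} (hv : 0 < v) (w w' : ℝ) : |cl v w - cl v w'| ≤ |w - w'| / v := by
  unfold cl
  have h1 : ∀ a b : ℝ, |max 0 a - max 0 b| ≤ |a - b| := fun a b => by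
    have := abs_max_sub_max_le_max 0 a 0 b
    rwa [sub_self, abs_zero, max_eq_right (abs_nonneg (a - b))] at this
  have h2 : ∀ a b : ℝ, |min 1 a - min 1 b| ≤ |a - b| := fun a b => by
    have := abs_min_sub_min_le_max 1 a 1 b
    rwa [sub_self, abs_zero, max_eq_right (abs_nonneg (a - b))] at this
  refine (h1 _ _).trans ((h2 _ _).trans (le_of_eq ?_))
  rw [show 2 - w / v - (2 - w' / v) = -((w - w') / v) by ring, abs_neg, abs_div, abs_of_pos hv]

/-- the product of the soft indicators -/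
def Ph (z : ℕ → ℝ → ℝ) (v : ℕ → ℝ) (i : ℕ) (x : ℝ) : ℝ := ∏ j ∈ Finset.range i, cl (v j) (z j x)

lemma Ph_nonneg (z : ℕ → ℝ → ℝ) (v : ℕ → ℝ) (i : ℕ) (x : ℝ) : 0 ≤ Ph z v i x :=
  Finset.prod_nonneg fun _ _ => cl_nonneg _ _

lemma Ph_le_one (z : ℕ → ℝ → ℝ) (v : ℕ → ℝ) (i : ℕ) (x : ℝ) : Ph z v i x ≤ 1 :=
  Finset.prod_le_one (fun _ _ => cl_nonneg _ _) fun _ _ => cl_le_one _ _

lemma Ph_cont {z : ℕ → ℝ → ℝ} (hz : ∀ i, Continuous (z i)) (v : ℕ → ℝ) (i : ℕ) : Continuous (Ph z v i) := by
  unfold Ph cl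
  refine continuous_finsetProd _ fun j _ => ?_
  have := hz j
  fun_prop

lemma Ph_diff (z : ℕ → ℝ → ℝ) (v : ℕ → ℝ) (hv : ∀ i, 0 < v i) (i : ℕ) (x y : ℝ) :
    |Ph z v i x - Ph z v i y| ≤ ∑ j ∈ Finset.range i, |z j x - z j y| / v j := by
  induction i with
  | zero => simp [Ph]
  | succ i ih =>
    rw [Finset.sum_range_succ]
    have e1 : ∀ x, Ph z v (i + 1) x = Ph z v i x * cl (v i) (z i x) := fun x => by
      unfold Ph; rw [Finset.prod_range_succ]
    rw [e1, e1]
    have e2 : Ph z v i x * cl (v i) (z i x) - Ph z v i y * cl (v i) (z i y) =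
        (Ph z v i x - Ph z v i y) * cl (v i) (z i x) + Ph z v i y * (cl (v i) (z i x) - cl (v i) (z i y)) := by
      ring
    rw [e2]
    refine (abs_add_le _ _).trans (add_le_add ?_ ?_)
    · rw [abs_mul, abs_of_nonneg (cl_nonneg _ _)]
      exact (mul_le_of_le_one_right (abs_nonneg _) (cl_le_one _ _)).trans ih
    · rw [abs_mul, abs_of_nonneg (Ph_nonneg _ _ _ _)]
      exact (mul_le_of_le_one_left (abs_nonneg _) (Ph_le_one _ _ _ _)).trans (cl_lip (hv i) _ _)

/-- the oscillation over windows -/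
theorem osc_le {z g : ℕ → ℝ → ℝ} {v : ℕ → ℝ} (hv : ∀ i, 0 < v i) (hg : ∀ i, Continuous (g i))
    (hg0 : ∀ i x, 0 ≤ g i x) (i : ℕ)
    (hlip : ∀ j < i, ∀ x y : ℝ, 1 / 2 ≤ x → 1 / 2 ≤ y → |z j x - z j y| ≤ |∫ s in x..y, g j s|)
    {r : ℝ} (hr : 0 < r) (hr2 : r ≤ 1 / 2) :
    ∫⁻ y in I12, ∫⁻ x in Icc (y - r) (y + r), ENNReal.ofReal |Ph z v i x - Ph z v i y| ≤
      ENNReal.ofReal (2 * r * ∑ j ∈ Finset.range i, 2 * r / v j * ∫ s in Icc (1 / 2) (5 / 2), g j s) := by
  have hgi : ∀ j a b, IntegrableOn (g j) (Icc a b) := fun j a b =>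
    (hg j).continuousOn.integrableOn_compact isCompact_Icc
  have h1 : ∀ y ∈ I12, ∫⁻ x in Icc (y - r) (y + r), ENNReal.ofReal |Ph z v i x - Ph z v i y| ≤
      ∑ j ∈ Finset.range i, ENNReal.ofReal (2 * r / v j) * ∫⁻ s in Icc (y - r) (y + r), ENNReal.ofReal (g j s) := by
    intro y hy
    have hd : ∀ x ∈ Icc (y - r) (y + r), ENNReal.ofReal |Ph z v i x - Ph z v i y| ≤
        ∑ j ∈ Finset.range i, ENNReal.ofReal (1 / v j) * ∫⁻ s in Icc (y - r) (y + r), ENNReal.ofReal (g j s) := by
      intro x hx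
      have hx2 : 1 / 2 ≤ x := by linarith [hx.1, hy.1]
      have hy2 : 1 / 2 ≤ y := by linarith [hy.1]
      have h2 : ∀ j ∈ Finset.range i, |z j x - z j y| / v j ≤ (1 / v j) * ∫ s in Icc (y - r) (y + r), g j s := by
        intro j hj
        have h3 := hlip j (Finset.mem_range.mp hj) x y hx2 hy2
        have h4 : |∫ s in x..y, g j s| ≤ ∫ s in Icc (y - r) (y + r), g j s := by
          rcases le_total x y with h | h
          · rw [intervalIntegral.integral_of_le h, ← integral_Icc_eq_integral_Ioc,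
              abs_of_nonneg (setIntegral_nonneg measurableSet_Icc fun s _ => hg0 j s)]
            exact setIntegral_mono_set (hgi j _ _) (Filter.Eventually.of_forall (hg0 j))
              (LE.le.eventuallyLE (Icc_subset_Icc (by linarith [hx.1]) (by linarith)))
          · rw [intervalIntegral.integral_symm, abs_neg, intervalIntegral.integral_of_le h,
              ← integral_Icc_eq_integral_Ioc, abs_of_nonneg (setIntegral_nonneg measurableSet_Icc fun s _ => hg0 j s)]
            exact setIntegral_mono_set (hgi j _ _) (Filter.Eventually.of_forall (hg0 j))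
              (LE.le.eventuallyLE (Icc_subset_Icc (by linarith) (by linarith [hx.2])))
        rw [div_eq_mul_one_div, mul_comm]
        have := hv j
        exact mul_le_mul_of_nonneg_left (h3.trans h4) (by positivity)
      have h5 := (Ph_diff z v hv i x y).trans (Finset.sum_le_sum h2)
      refine (ENNReal.ofReal_le_ofReal h5).trans ?_
      rw [ENNReal.ofReal_sum_of_nonneg (fun j _ => mul_nonneg (by have := hv j; positivity)
        (setIntegral_nonneg measurableSet_Icc fun s _ => hg0 j s))]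
      refine Finset.sum_le_sum fun j _ => ?_
      have := hv j
      rw [ENNReal.ofReal_mul (by positivity), ofReal_integral_eq_lintegral_ofReal (hgi j _ _)
        (Filter.Eventually.of_forall (hg0 j))]
    refine (setLIntegral_mono' measurableSet_Icc hd).trans ?_
    rw [setLIntegral_const, Real.volume_Icc, show y + r - (y - r) = 2 * r by ring, Finset.sum_mul]
    refine Finset.sum_le_sum fun j _ => le_of_eq ?_
    have hvj := hv j
    have e : ENNReal.ofReal (2 * r / v j) = ENNReal.ofReal (1 / v j) * ENNReal.ofReal (2 * r) := by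
      rw [← ENNReal.ofReal_mul (by positivity)]
      congr 1; ring
    rw [e]
    ring
  refine (setLIntegral_mono' measurableSet_Icc h1).trans ?_
  have hm : ∀ j, Measurable (fun y => ∫⁻ s in Icc (y - r) (y + r), ENNReal.ofReal (g j s)) := fun j =>
    win_meas (ENNReal.measurable_ofReal.comp (hg j).measurable) r
  rw [lintegral_finsetSum _ fun j _ => (hm j).const_mul _, Finset.mul_sum,
    ENNReal.ofReal_sum_of_nonneg (fun j _ => by
      have := hv j
      have h2 : 0 ≤ ∫ s in Icc (1 / 2) (5 / 2), g j s := setIntegral_nonneg measurableSet_Icc fun s _ => hg0 j s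
      positivity)]
  refine Finset.sum_le_sum fun j _ => ?_
  rw [lintegral_const_mul _ (hm j)]
  have h3 := win_tonelli (f := fun s => ENNReal.ofReal (g j s))
    (ENNReal.measurable_ofReal.comp (hg j).measurable) 1 2 r
  have hvj := hv j
  have h4 : ∫⁻ s in Icc (1 - r) (2 + r), ENNReal.ofReal (g j s) ≤ ENNReal.ofReal (∫ s in Icc (1 / 2) (5 / 2), g j s) := by
    rw [ofReal_integral_eq_lintegral_ofReal (hgi j _ _) (Filter.Eventually.of_forall (hg0 j))]
    exact lintegral_mono_set (Icc_subset_Icc (by linarith) (by linarith))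
  calc ENNReal.ofReal (2 * r / v j) * ∫⁻ y in I12, ∫⁻ s in Icc (y - r) (y + r), ENNReal.ofReal (g j s) ≤
        ENNReal.ofReal (2 * r / v j) * (ENNReal.ofReal (2 * r) *
          ENNReal.ofReal (∫ s in Icc (1 / 2) (5 / 2), g j s)) := by
        gcongr
        exact h3.trans (by gcongr)
    _ = ENNReal.ofReal (2 * r * (2 * r / v j * ∫ s in Icc (1 / 2) (5 / 2), g j s)) := by
        rw [ENNReal.ofReal_mul (show 0 ≤ 2 * r by linarith),
          ENNReal.ofReal_mul (show 0 ≤ 2 * r / v j by positivity)]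
        ring

/-- **the sampling lemma** -/
theorem sampling {z g : ℕ → ℝ → ℝ} {v r : ℕ → ℝ} {B : ℕ → Set ℝ} {p β : ℝ} (m : ℕ) (hz : ∀ i, Continuous (z i))
    (hv : ∀ i, 0 < v i) (hg : ∀ i, Continuous (g i)) (hg0 : ∀ i x, 0 ≤ g i x)
    (hlip : ∀ j < m, ∀ x y : ℝ, 1 / 2 ≤ x → 1 / 2 ≤ y → |z j x - z j y| ≤ |∫ s in x..y, g j s|)
    (hr : ∀ i < m, 0 < r i) (hr2 : ∀ i < m, r i ≤ 1 / 2) (hp : 0 ≤ p) (hp1 : p ≤ 1) (hβ : 0 ≤ β)
    (hB : ∀ i < m, volume (B i) ≤ ENNReal.ofReal β)
    (hgood : ∀ i < m, ∀ x ∈ I12, x ∉ B i →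
      ENNReal.ofReal (p * (2 * r i)) ≤ volume ({y | 2 * v i ≤ z i y} ∩ Icc (x - r i) (x + r i))) :
    volume.real {x : ℝ | x ∈ I12 ∧ ∀ i < m, z i x < v i} ≤ (1 - p) ^ m + β +
      ∑ i ∈ Finset.range m, (2 * r i + ∑ j ∈ Finset.range i, 2 * r i / v j * ∫ s in Icc (1 / 2) (5 / 2), g j s) := by
  have hI : ∀ i, IntegrableOn (Ph z v i) I12 := fun i =>
    (Ph_cont hz v i).continuousOn.integrableOn_compact isCompact_Icc
  have hG0 : ∀ j, 0 ≤ ∫ s in Icc (1 / 2) (5 / 2), g j s := fun j =>
    setIntegral_nonneg measurableSet_Icc fun s _ => hg0 j s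
  set ε : ℕ → ℝ := fun i => 2 * r i + ∑ j ∈ Finset.range i, 2 * r i / v j * ∫ s in Icc (1 / 2) (5 / 2), g j s with hε
  have main : ∀ i ≤ m, ∫ x in I12, Ph z v i x ≤ (1 - p) ^ i + β + ∑ k ∈ Finset.range i, ε k := by
    intro i
    induction i with
    | zero =>
      intro _
      simp only [Ph, Finset.range_zero, Finset.prod_empty, Finset.sum_empty, pow_zero, add_zero]
      rw [setIntegral_const, smul_eq_mul, mul_one, Real.volume_real_Icc_of_le (by norm_num)]
      linarith
    | succ i ih =>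
      intro hi
      have hi' : i < m := hi
      have ih' := ih hi'.le
      have hHit : MeasurableSet {y | 2 * v i ≤ z i y} := measurableSet_le measurable_const (hz i).measurable
      have hs0 : 0 ≤ ∑ j ∈ Finset.range i, 2 * r i / v j * ∫ s in Icc (1 / 2) (5 / 2), g j s :=
        Finset.sum_nonneg fun j _ => by
          have := hv j; have := hr i hi'; have := hG0 j
          positivity
      have h1 := step (Ph_cont hz v i).measurable (Ph_nonneg z v i) (Ph_le_one z v i) hHit (hr i hi') hp hβ hs0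
        (hB i hi') (hgood i hi') (osc_le hv hg hg0 i (fun j hj => hlip j (hj.trans hi')) (hr i hi') (hr2 i hi'))
      have h2 : ∫ x in I12, Ph z v (i + 1) x ≤ (∫ x in I12, Ph z v i x) - ∫ x in I12 ∩ {y | 2 * v i ≤ z i y}, Ph z v i x := by
        have e1 : ∫ x in I12 ∩ {y | 2 * v i ≤ z i y}, Ph z v i x =
            ∫ x in I12, {y | 2 * v i ≤ z i y}.indicator (Ph z v i) x := by
          rw [setIntegral_indicator hHit]
        rw [e1, ← integral_sub (hI i) ((hI i).indicator hHit)]
        refine setIntegral_mono_on (hI (i + 1)) ((hI i).sub ((hI i).indicator hHit)) measurableSet_Icc fun x _ => ?_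
        have e2 : Ph z v (i + 1) x = Ph z v i x * cl (v i) (z i x) := by
          unfold Ph; rw [Finset.prod_range_succ]
        rw [e2]
        by_cases hx : x ∈ {y | 2 * v i ≤ z i y}
        · rw [indicator_of_mem hx, sub_self, cl_eq_zero (hv i) hx, mul_zero]
        · rw [indicator_of_notMem hx, sub_zero]
          exact mul_le_of_le_one_right (Ph_nonneg _ _ _ _) (cl_le_one _ _)
      rw [Finset.sum_range_succ, pow_succ]
      have h3 : ∫ x in I12, Ph z v (i + 1) x ≤ (1 - p) * (∫ x in I12, Ph z v i x) + (ε i + p * β) := by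
        simp only [hε]
        linarith
      have h4 : (1 - p) * (∫ x in I12, Ph z v i x) ≤ (1 - p) * ((1 - p) ^ i + β + ∑ k ∈ Finset.range i, ε k) :=
        mul_le_mul_of_nonneg_left ih' (by linarith)
      have h5 : 0 ≤ ∑ k ∈ Finset.range i, ε k := Finset.sum_nonneg fun k hk => by
        have hk' : k < m := (Finset.mem_range.mp hk).trans hi'
        simp only [hε]
        have h6 : 0 ≤ ∑ j ∈ Finset.range k, 2 * r k / v j * ∫ s in Icc (1 / 2) (5 / 2), g j s :=
          Finset.sum_nonneg fun j _ => by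
            have := hv j; have := hr k hk'; have := hG0 j
            positivity
        have := hr k hk'
        linarith
      nlinarith
  refine le_trans ?_ (main m le_rfl)
  set S : Set ℝ := {x : ℝ | x ∈ I12 ∧ ∀ i < m, z i x < v i} with hS
  have hSm : MeasurableSet S := by
    have : S = I12 ∩ ⋂ i ∈ Finset.range m, {x | z i x < v i} := by
      ext x
      simp [hS]
    rw [this]
    exact measurableSet_Icc.inter (Finset.measurableSet_biInter _ fun i _ =>
      measurableSet_lt (hz i).measurable measurable_const)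
  have h1 : volume.real S = ∫ x in S, (1:ℝ) := by
    rw [setIntegral_const, smul_eq_mul, mul_one]
  rw [h1]
  have hSI : S ⊆ I12 := fun x hx => hx.1
  calc ∫ x in S, (1:ℝ) = ∫ x in S, Ph z v m x := by
        refine setIntegral_congr_fun hSm fun x hx => ?_
        unfold Ph
        symm
        exact Finset.prod_eq_one fun j hj => cl_eq_one (hv j) (hx.2 j (Finset.mem_range.mp hj)).le
    _ ≤ ∫ x in I12, Ph z v m x :=
        setIntegral_mono_set (hI m) (Filter.Eventually.of_forall (Ph_nonneg z v m)) hSI.eventuallyLE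

end

end Pool.Agent.K6.H33.FZ
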