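import Pool.Agent.K6.H33.FZ.Win
import Pool.Agent.K6.H33.FZ.Der
import Pool.Agent.K6.H33.FZ.Sam2
import Pool.Agent.Y745.LD.G1M

set_option autoImplicit false

/-! The sampling lemma applied to zeta at the points `x T_i`. -/

namespace Pool.Agent.K6.H33.FZ

open MeasureTheory Set Filter
open scoped ENNReal
open Pool.Agent.W184 (zn zn_nonneg zn_cont zn_le)
open Pool.Agent.Y745.LD
open Pool.Agent.Y448.LD (tL tLL)

noncomputable section

/-- the norm of the derivative on the critical line -/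
def dz (t : ℝ) : ℝ := ‖deriv riemannZeta (1 / 2 + (t:ℂ) * Complex.I)‖

lemma dz_cont : Continuous dz := dz_cont0

lemma dcz_cont : Continuous (fun t : ℝ => deriv riemannZeta (1 / 2 + (t:ℂ) * Complex.I)) := by
  rw [continuous_iff_continuousAt]
  intro t
  have h4 : AnalyticAt ℂ riemannZeta (1 / 2 + (t:ℂ) * Complex.I) := by
    have hopen : IsOpen {z : ℂ | z.re < 1} := isOpen_lt Complex.continuous_re continuous_const
    refine DifferentiableOn.analyticAt (s := {z : ℂ | z.re < 1}) (fun z hz =>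
      (differentiableAt_riemannZeta (ne_one_of_re hz)).differentiableWithinAt) (hopen.mem_nhds ?_)
    show (1 / 2 + (t:ℂ) * Complex.I).re < 1
    simp
    norm_num
  exact ContinuousAt.comp (f := fun t : ℝ => (1 / 2 + (t:ℂ) * Complex.I)) h4.deriv.continuousAt (by fun_prop)

/-- the variation of zeta on the critical line -/
lemma zn_lip (y0 T x y : ℝ) (hT : 0 ≤ T) :
    |zn (1 / 2) (y0 + x * T) - zn (1 / 2) (y0 + y * T)| ≤ |∫ s in x..y, T * dz (y0 + s * T)| := by
  have h1 : ∀ s ∈ uIcc x y, HasDerivAt (fun s : ℝ => riemannZeta (1 / 2 + ((y0 + s * T : ℝ) : ℂ) * Complex.I))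
      (deriv riemannZeta (1 / 2 + ((y0 + s * T : ℝ) : ℂ) * Complex.I) * (T * Complex.I)) s := by
    intro s _
    have hre : (1 / 2 + ((y0 + s * T : ℝ) : ℂ) * Complex.I).re < 1 := by
      simp
      norm_num
    have h2 : HasDerivAt (fun s : ℝ => (1 / 2 + ((y0 + s * T : ℝ) : ℂ) * Complex.I)) (T * Complex.I) s := by
      have h3 : HasDerivAt (fun s : ℝ => ((y0 + s * T : ℝ) : ℂ)) (T : ℂ) s := by
        have := (((hasDerivAt_id s).mul_const T).const_add y0).ofReal_comp
        simpa using this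
      exact (h3.mul_const Complex.I).const_add (1 / 2)
    exact HasDerivAt.comp s (differentiableAt_riemannZeta (ne_one_of_re hre)).hasDerivAt h2
  have hc : Continuous (fun s : ℝ => deriv riemannZeta (1 / 2 + ((y0 + s * T : ℝ) : ℂ) * Complex.I) * (T * Complex.I)) := by
    have := dcz_cont.comp (continuous_const.add (continuous_id.mul (continuous_const (y := T))) : Continuous fun s : ℝ => y0 + s * T)
    exact this.mul continuous_const
  have h2 := intervalIntegral.integral_eq_sub_of_hasDerivAt h1 (hc.intervalIntegrable _ _)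
  have e1 : ∀ s : ℝ, zn (1 / 2) (y0 + s * T) = ‖riemannZeta (1 / 2 + ((y0 + s * T : ℝ) : ℂ) * Complex.I)‖ := by
    intro s
    unfold zn
    push_cast
    rfl
  rw [e1, e1, abs_sub_comm]
  refine (abs_norm_sub_norm_le _ _).trans ?_
  rw [← h2]
  refine (intervalIntegral.norm_integral_le_abs_integral_norm).trans (le_of_eq ?_)
  congr 1
  refine intervalIntegral.integral_congr fun s _ => ?_
  rw [norm_mul, norm_mul, Complex.norm_I, mul_one, Complex.norm_real, Real.norm_of_nonneg hT, mul_comm]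
  rfl

lemma dz_int {y0 T : ℝ} (hT : 0 < T) (hy : |y0| ≤ T / 4) : ∫ s in Icc (1 / 2 : ℝ) (5 / 2), T * dz (y0 + s * T) ≤
    ∫ t in (T / 4)..(3 * T), dz t := by
  have h1 := abs_le.mp hy
  simp_rw [mul_comm _ T]
  rw [integral_Icc_eq_integral_Ioc, ← intervalIntegral.integral_of_le (by norm_num),
    intervalIntegral.integral_const_mul, intervalIntegral.integral_comp_add_mul dz hT.ne' y0, smul_eq_mul,
    ← mul_assoc, mul_inv_cancel₀ hT.ne', one_mul]
  exact intervalIntegral.integral_mono_interval (by linarith) (by linarith) (by linarith)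
    (Filter.Eventually.of_forall fun t => norm_nonneg _) (dz_cont.intervalIntegrable _ _)

/-- **the estimate for one group of points** -/
theorem group_est (y0 : ℝ) {κ s : ℝ} (hs : 0 < s) (hsκ : s < κ) (hκ1 : κ + s ≤ 1) :
    ∃ C : ℝ, 0 ≤ C ∧ ∃ T0 : ℝ, 1 ≤ T0 ∧ ∀ (m : ℕ) (T : ℕ → ℝ) (ρ Λ ℓ : ℝ), (∀ i, T0 ≤ T i) → 1 ≤ Λ → 0 < ℓ →
      0 < ρ → (∀ i < m, ρ ≤ T i) → (∀ i < m, ∀ j < i, ρ * T j ≤ T i) → (∀ i < m, Real.log (T i) ≤ Λ) →
      (∀ i < m, ℓ ≤ LL (T i)) →
      volume.real {x : ℝ | x ∈ I12 ∧ ∀ i < m, zn (1 / 2) (y0 + x * T i) < 1 / 2 * Real.log (T i) ^ (κ - s)} ≤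
        (1 - 1 / 4 * Λ ^ (-κ ^ 2 - 3 * s)) ^ m + C / ℓ + m * (4 * Λ ^ 12 / ρ * (1 + C * (m * Λ ^ 2))) := by
  have hκ : 0 < κ := hs.trans hsκ
  obtain ⟨C1, hC1, h1⟩ := win_line Pool.Agent.Y745.LD.t_G1M hs hsκ hκ1
  obtain ⟨C2, hC2, h2⟩ := der_mean2
  have hy1 : ∀ᶠ T : ℝ in atTop, |y0| ≤ T / Real.log T := by
    have h3 := ev_pw 1 |y0| 0
    filter_upwards [h3] with T h4
    simpa using h4
  obtain ⟨T1, hT1⟩ := (h1.and (h2.and (HH_pos.and (HH_le.and ((tL.eventually_ge_atTop 1).and
    (hy1.and (eventually_ge_atTop (4 * |y0|)))))))).exists_forall_of_atTop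
  refine ⟨C1 + 2 + 2 * C2, by positivity, max T1 1, le_max_right _ _, ?_⟩
  intro m T ρ Λ ℓ hT hΛ hℓ hρ hρT hρT2 hL hLL
  have hT' : ∀ i, T1 ≤ T i := fun i => (le_max_left _ _).trans (hT i)
  have hTp : ∀ i, 0 < T i := fun i => one_pos.trans_le ((le_max_right _ _).trans (hT i))
  have hT1' : ∀ i, 1 ≤ T i := fun i => (le_max_right _ _).trans (hT i)
  choose g1 g2 g3 g4 g5 g6 g7 using fun i => hT1 (T i) (hT' i)
  choose Bd hBd1 hBd2 using g1
  set p : ℝ := 1 / 4 * Λ ^ (-κ ^ 2 - 3 * s) with hp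
  have hexp : -κ ^ 2 - 3 * s ≤ 0 := by nlinarith
  have hp0 : 0 ≤ p := by positivity
  have hp1 : p ≤ 1 := by
    have : Λ ^ (-κ ^ 2 - 3 * s) ≤ 1 := Real.rpow_le_one_of_one_le_of_nonpos hΛ hexp
    rw [hp]; linarith
  set r : ℕ → ℝ := fun i => 2 * HH (T i) / T i with hr
  set v : ℕ → ℝ := fun i => 1 / 2 * Real.log (T i) ^ (κ - s) with hv
  have hpre : ∀ i (S : Set ℝ), volume ((fun x => y0 + x * T i) ⁻¹' S) = ENNReal.ofReal ((T i)⁻¹) * volume S := by
    intro i S
    have e1 : (fun x => y0 + x * T i) ⁻¹' S = (fun x => x * T i) ⁻¹' ((fun t => y0 + t) ⁻¹' S) := rfl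
    rw [e1, Real.volume_preimage_mul_right (hTp i).ne', measure_preimage_add, abs_of_pos (inv_pos.mpr (hTp i))]
  set B : ℕ → Set ℝ := fun i => (fun x => y0 + x * T i) ⁻¹' (Bd i) ∪
    (Icc 1 (1 + |y0| / T i) ∪ Icc (2 - |y0| / T i) (2:ℝ)) with hB
  have hLp : ∀ i, 0 < Real.log (T i) := fun i => one_pos.trans_le (g5 i)
  have hvp : ∀ i, 1 / 2 ≤ v i := fun i => by
    have : 1 ≤ Real.log (T i) ^ (κ - s) := Real.one_le_rpow (g5 i) (by linarith)
    simp only [hv]; linarith
  have key := sampling (z := fun i x => zn (1 / 2) (y0 + x * T i)) (g := fun i x => T i * dz (y0 + x * T i)) (v := v) (r := r)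
    (B := B) (p := p) (β := (C1 + 2) / ℓ) m
    (fun i => (zn_cont (by norm_num)).comp (continuous_const.add (continuous_id.mul continuous_const)))
    (fun i => by linarith [hvp i])
    (fun i => continuous_const.mul (dz_cont.comp (continuous_const.add (continuous_id.mul continuous_const))))
    (fun i x => mul_nonneg (hTp i).le (norm_nonneg _))
    (fun j _ x y _ _ => zn_lip y0 (T j) x y (hTp j).le)
    (fun i _ => by simp only [hr]; exact div_pos (g3 i) (hTp i))
    (fun i _ => by
      simp only [hr]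
      rw [div_le_iff₀ (hTp i)]
      linarith [g4 i])
    hp0 hp1 (by positivity)
    (fun i hi => by
      simp only [hB]
      have hLi := hLL i hi
      have hTi := hTp i
      have hLpi := hLp i
      have v1 : volume ((fun x => y0 + x * T i) ⁻¹' (Bd i)) ≤ ENNReal.ofReal (C1 / ℓ) := by
        rw [hpre]
        refine (mul_le_mul' le_rfl (hBd1 i)).trans ?_
        rw [← ENNReal.ofReal_mul (by positivity)]
        apply ENNReal.ofReal_le_ofReal
        calc (T i)⁻¹ * (C1 * (T i / LL (T i))) = C1 / LL (T i) := by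
              have := (hTp i).ne'
              field_simp
          _ ≤ C1 / ℓ := by gcongr
      have v0 : |y0| / T i ≤ 1 / ℓ := by
        have h3 : LL (T i) ≤ Real.log (T i) := by
          have := Real.log_le_sub_one_of_pos hLpi
          unfold LL; linarith
        calc |y0| / T i ≤ 1 / Real.log (T i) := by
              rw [div_le_div_iff₀ hTi hLpi]
              have := (le_div_iff₀ hLpi).mp (g6 i)
              linarith
          _ ≤ 1 / ℓ := one_div_le_one_div_of_le hℓ (hLi.trans h3)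
      have v2 : volume (Icc 1 (1 + |y0| / T i)) ≤ ENNReal.ofReal (1 / ℓ) := by
        rw [Real.volume_Icc]
        apply ENNReal.ofReal_le_ofReal
        linarith
      have v3 : volume (Icc (2 - |y0| / T i) (2:ℝ)) ≤ ENNReal.ofReal (1 / ℓ) := by
        rw [Real.volume_Icc]
        apply ENNReal.ofReal_le_ofReal
        linarith
      refine (measure_union_le _ _).trans ((add_le_add v1 ((measure_union_le _ _).trans (add_le_add v2 v3))).trans ?_)
      rw [← ENNReal.ofReal_add (by positivity) (by positivity), ← ENNReal.ofReal_add (by positivity) (by positivity)]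
      apply ENNReal.ofReal_le_ofReal
      apply le_of_eq
      ring)
    (fun i hi x hx hxB => by
      have hTi := hTp i
      simp only [hB, mem_union, not_or, mem_preimage, mem_Icc, not_and, not_le] at hxB
      obtain ⟨hxB1, hxB2, hxB3⟩ := hxB
      have hxa : 1 + |y0| / T i < x := hxB2 hx.1
      have hxb : x < 2 - |y0| / T i := by
        by_contra hcon
        rw [not_lt] at hcon
        exact absurd (hxB3 hcon) (not_lt.mpr hx.2)
      have hx1 : y0 + x * T i ∈ Icc (T i) (2 * T i) := by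
        have h3 : (1 + |y0| / T i) * T i < x * T i := mul_lt_mul_of_pos_right hxa hTi
        have h4 : x * T i < (2 - |y0| / T i) * T i := mul_lt_mul_of_pos_right hxb hTi
        have h5 : |y0| / T i * T i = |y0| := div_mul_cancel₀ _ hTi.ne'
        have h6 := neg_abs_le y0
        have h7 := le_abs_self y0
        constructor <;> nlinarith
      have h3 := hBd2 i (y0 + x * T i) hx1 hxB1
      have e2 : (fun y => y0 + y * T i) ⁻¹' ({t | Real.log (T i) ^ (κ - s) ≤ zn (1 / 2) t} ∩
          Icc (y0 + x * T i - 2 * HH (T i)) (y0 + x * T i + 2 * HH (T i))) =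
          {y | 2 * v i ≤ zn (1 / 2) (y0 + y * T i)} ∩ Icc (x - r i) (x + r i) := by
        ext y
        simp only [mem_preimage, mem_inter_iff, mem_setOf_eq, mem_Icc, hv, hr]
        have e3 : 2 * (1 / 2 * Real.log (T i) ^ (κ - s)) = Real.log (T i) ^ (κ - s) := by ring
        rw [e3]
        have e4 : y0 + x * T i - 2 * HH (T i) ≤ y0 + y * T i ↔ x - 2 * HH (T i) / T i ≤ y := by
          have h4 : x * T i - 2 * HH (T i) = (x - 2 * HH (T i) / T i) * T i := by
            field_simp
          constructor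
          · intro h
            have h5 : x * T i - 2 * HH (T i) ≤ y * T i := by linarith
            rw [h4] at h5
            exact le_of_mul_le_mul_right h5 hTi
          · intro h
            have h5 := mul_le_mul_of_nonneg_right h hTi.le
            rw [← h4] at h5
            linarith
        have e5 : y0 + y * T i ≤ y0 + x * T i + 2 * HH (T i) ↔ y ≤ x + 2 * HH (T i) / T i := by
          have h4 : x * T i + 2 * HH (T i) = (x + 2 * HH (T i) / T i) * T i := by
            field_simp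
          constructor
          · intro h
            have h5 : y * T i ≤ x * T i + 2 * HH (T i) := by linarith
            rw [h4] at h5
            exact le_of_mul_le_mul_right h5 hTi
          · intro h
            have h5 := mul_le_mul_of_nonneg_right h hTi.le
            rw [← h4] at h5
            linarith
        rw [e4, e5]
      rw [← e2, hpre]
      refine le_trans ?_ (mul_le_mul' le_rfl h3)
      rw [← ENNReal.ofReal_mul (by positivity)]
      apply ENNReal.ofReal_le_ofReal
      simp only [hr, hp]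
      have h5 : Λ ^ (-κ ^ 2 - 3 * s) ≤ Real.log (T i) ^ (-κ ^ 2 - 3 * s) :=
        Real.rpow_le_rpow_of_nonpos (hLp i) (hL i hi) hexp
      have hH := g3 i
      calc 1 / 4 * Λ ^ (-κ ^ 2 - 3 * s) * (2 * (2 * HH (T i) / T i)) =
            (T i)⁻¹ * (HH (T i) * Λ ^ (-κ ^ 2 - 3 * s)) := by field_simp; ring
        _ ≤ (T i)⁻¹ * (HH (T i) * Real.log (T i) ^ (-κ ^ 2 - 3 * s)) := by
            have : 0 < HH (T i) := by linarith
            gcongr)
  refine key.trans ?_
  have hb : (C1 + 2) / ℓ ≤ (C1 + 2 + 2 * C2) / ℓ := div_le_div_of_nonneg_right (by linarith) hℓ.le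
  have herr : ∑ i ∈ Finset.range m, (2 * r i + ∑ j ∈ Finset.range i, 2 * r i / v j *
      ∫ s in Icc (1 / 2 : ℝ) (5 / 2), T j * dz (y0 + s * T j)) ≤ m * (4 * Λ ^ 12 / ρ * (1 + (C1 + 2 + 2 * C2) * (m * Λ ^ 2))) := by
    have hterm : ∀ i ∈ Finset.range m, (2 * r i + ∑ j ∈ Finset.range i, 2 * r i / v j *
      ∫ s in Icc (1 / 2 : ℝ) (5 / 2), T j * dz (y0 + s * T j)) ≤ 4 * Λ ^ 12 / ρ * (1 + (C1 + 2 + 2 * C2) * (m * Λ ^ 2)) := by
      intro i hi
      rw [Finset.mem_range] at hi
      have hTi := hTp i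
      have hHi : HH (T i) ≤ Λ ^ 12 := pow_le_pow_left₀ (hLp i).le (hL i hi) 12
      have hr0 : 0 < r i := by simp only [hr]; exact div_pos (g3 i) (hTp i)
      have hri : r i ≤ 2 * Λ ^ 12 / T i := by simp only [hr]; gcongr
      have h6 : ∀ j ∈ Finset.range i, 2 * r i / v j * ∫ s in Icc (1 / 2 : ℝ) (5 / 2), T j * dz (y0 + s * T j) ≤
          4 * Λ ^ 12 / ρ * (2 * C2 * Λ ^ 2) := by
        intro j hj
        rw [Finset.mem_range] at hj
        have hjm : j < m := hj.trans hi
        have h7 : ∫ s in Icc (1 / 2 : ℝ) (5 / 2), T j * dz (y0 + s * T j) ≤ C2 * (T j * Real.log (T j) ^ 2) :=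
          (dz_int (hTp j) (by linarith [g7 j])).trans (g2 j)
        have h8 : (0:ℝ) ≤ ∫ s in Icc (1 / 2 : ℝ) (5 / 2), T j * dz (y0 + s * T j) :=
          setIntegral_nonneg measurableSet_Icc fun t _ => mul_nonneg (hTp j).le (norm_nonneg _)
        have h9 : Real.log (T j) ^ 2 ≤ Λ ^ 2 := pow_le_pow_left₀ (hLp j).le (hL j hjm) 2
        have hTj := hTp j
        have h10 : T j / T i ≤ 1 / ρ := by
          rw [div_le_div_iff₀ hTi hρ]
          linarith [hρT2 i hi j hj]
        calc 2 * r i / v j * ∫ s in Icc (1 / 2 : ℝ) (5 / 2), T j * dz (y0 + s * T j) ≤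
              2 * (2 * Λ ^ 12 / T i) / (1 / 2) * (C2 * (T j * Λ ^ 2)) := by
              have h11 := hvp j
              have h12 : ∫ s in Icc (1 / 2 : ℝ) (5 / 2), T j * dz (y0 + s * T j) ≤ C2 * (T j * Λ ^ 2) :=
                h7.trans (by gcongr)
              gcongr
          _ = 4 * Λ ^ 12 * (T j / T i) * (2 * C2 * Λ ^ 2) := by field_simp; ring
          _ ≤ 4 * Λ ^ 12 * (1 / ρ) * (2 * C2 * Λ ^ 2) := by gcongr
          _ = _ := by ring
      have h7 := Finset.sum_le_card_nsmul _ _ _ h6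
      rw [Finset.card_range, nsmul_eq_mul] at h7
      have h8 : 2 * r i ≤ 4 * Λ ^ 12 / ρ := by
        have h9 : 2 * Λ ^ 12 / T i ≤ 2 * Λ ^ 12 / ρ := by
          have := hρT i hi
          gcongr
        calc 2 * r i ≤ 2 * (2 * Λ ^ 12 / ρ) := by linarith
          _ = _ := by ring
      have him : (i:ℝ) ≤ m := by exact_mod_cast hi.le
      calc _ ≤ 4 * Λ ^ 12 / ρ + (i:ℝ) * (4 * Λ ^ 12 / ρ * (2 * C2 * Λ ^ 2)) := add_le_add h8 h7
        _ ≤ 4 * Λ ^ 12 / ρ + (m:ℝ) * (4 * Λ ^ 12 / ρ * ((C1 + 2 + 2 * C2) * Λ ^ 2)) := by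
            gcongr; linarith
        _ = _ := by ring
    have h7 := Finset.sum_le_card_nsmul _ _ _ hterm
    rwa [Finset.card_range, nsmul_eq_mul] at h7
  linarith

end

end Pool.Agent.K6.H33.FZ
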