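import Pool.Agent.K6.H33.FZ.App

set_option autoImplicit false

/-! Most points see many large values among the first `N` samples. -/

namespace Pool.Agent.K6.H33.FZ

open MeasureTheory Set Filter
open scoped ENNReal Topology
open Pool.Agent.W184 (zn zn_nonneg zn_cont zn_le)
open Pool.Agent.Y745.LD
open Pool.Agent.Y448.LD (tL tLL)

noncomputable section

/-- the number of samples of size at least `v` -/
def cnt (y0 : ℝ) (q : ℕ → ℝ) (N : ℕ) (v x : ℝ) : ℕ :=
  ((Finset.range N).filter fun n => v ≤ zn (1 / 2) (y0 + x * q n)).card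

/-- Markov for a number of events -/
lemma count_markov {G : ℕ} (hG : 0 < G) (E : ℕ → Set ℝ) (hE : ∀ g, MeasurableSet (E g)) {b : ℝ} (hb0 : 0 ≤ b)
    (hb : ∀ g < G, volume (E g) ≤ ENNReal.ofReal b) :
    volume {x | (G:ℝ) ≤ 2 * ∑ g ∈ Finset.range G, (E g).indicator (fun _ => (1:ℝ)) x} ≤ ENNReal.ofReal (2 * b) := by
  have hG' : (0:ℝ) < G := by exact_mod_cast hG
  set f : ℝ → ℝ≥0∞ := fun x => ∑ g ∈ Finset.range G, (E g).indicator (fun _ => (1:ℝ≥0∞)) x with hf
  have hfm : Measurable f := Finset.measurable_sum _ fun g _ => measurable_const.indicator (hE g)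
  have h1 : ∫⁻ x, f x ≤ ENNReal.ofReal (G * b) := by
    simp only [hf]
    rw [lintegral_finsetSum _ fun g _ => measurable_const.indicator (hE g)]
    have h2 : ∀ g ∈ Finset.range G, ∫⁻ x, (E g).indicator (fun _ => (1:ℝ≥0∞)) x ≤ ENNReal.ofReal b := by
      intro g hg
      rw [lintegral_indicator (hE g), lintegral_const, one_mul, Measure.restrict_apply_univ]
      exact hb g (Finset.mem_range.mp hg)
    refine (Finset.sum_le_sum h2).trans ?_
    rw [Finset.sum_const, Finset.card_range, nsmul_eq_mul, ENNReal.ofReal_mul hG'.le, ENNReal.ofReal_natCast]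
  have h3 := mul_meas_ge_le_lintegral₀ (μ := volume) hfm.aemeasurable (ENNReal.ofReal (G / 2))
  have hsub : {x | (G:ℝ) ≤ 2 * ∑ g ∈ Finset.range G, (E g).indicator (fun _ => (1:ℝ)) x} ⊆
      {x | ENNReal.ofReal (G / 2) ≤ f x} := by
    intro x hx
    simp only [mem_setOf_eq] at hx ⊢
    have e1 : f x = ENNReal.ofReal (∑ g ∈ Finset.range G, (E g).indicator (fun _ => (1:ℝ)) x) := by
      rw [ENNReal.ofReal_sum_of_nonneg fun g _ => indicator_nonneg (fun _ _ => zero_le_one) x]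
      refine Finset.sum_congr rfl fun g _ => ?_
      by_cases hx : x ∈ E g <;> simp [hx]
    rw [e1]
    apply ENNReal.ofReal_le_ofReal
    linarith
  have h4 : ENNReal.ofReal (G / 2) * volume {x | (G:ℝ) ≤ 2 * ∑ g ∈ Finset.range G, (E g).indicator (fun _ => (1:ℝ)) x} ≤
      ENNReal.ofReal (G / 2) * ENNReal.ofReal (2 * b) := by
    refine (mul_le_mul' le_rfl (measure_mono hsub)).trans (h3.trans (h1.trans (le_of_eq ?_)))
    rw [← ENNReal.ofReal_mul (by positivity)]
    congr 1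
    ring
  exact (ENNReal.mul_le_mul_iff_right (by rw [Ne, ENNReal.ofReal_eq_zero]; linarith [half_pos hG']) ENNReal.ofReal_ne_top).mp h4

lemma pow_exp_small {c η K : ℝ} (hc : 0 < c) (hη : 0 < η) :
    Tendsto (fun N : ℕ => (N:ℝ) ^ K * Real.exp (-c * (N:ℝ) ^ η)) atTop (𝓝 0) := by
  have h1 := tendsto_rpow_mul_exp_neg_mul_atTop_nhds_zero (K / η) c hc
  have h2 := h1.comp ((tendsto_rpow_atTop hη).comp tendsto_natCast_atTop_atTop)
  refine h2.congr' ?_
  filter_upwards [eventually_ge_atTop 1] with N hN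
  simp only [Function.comp_apply]
  rw [← Real.rpow_mul (by positivity), mul_div_cancel₀ _ hη.ne']

lemma ev_nat_rpow {a : ℝ} (ha : 0 < a) (C : ℝ) : ∀ᶠ N : ℕ in atTop, C ≤ (N:ℝ) ^ a :=
  ((tendsto_rpow_atTop ha).comp tendsto_natCast_atTop_atTop).eventually_ge_atTop C

lemma log_le_small {c η K C : ℝ} (hc : 0 < c) (hη : 0 < η) (hC : 0 ≤ C) :
    ∀ᶠ N : ℕ in atTop, C * ((N:ℝ) ^ K * Real.exp (-c * (N:ℝ) ^ η)) ≤ 1 / Real.log N := by
  have h1 := (pow_exp_small (K := K + 1) hc hη).const_mul C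
  rw [mul_zero] at h1
  filter_upwards [h1.eventually_le_const one_pos, eventually_ge_atTop 3] with N h2 hN
  have hN' : (3:ℝ) ≤ N := by exact_mod_cast hN
  have hN0 : (0:ℝ) < N := by linarith
  have hlog : 0 < Real.log N := Real.log_pos (by linarith)
  have hlog2 : Real.log N ≤ N := (Real.log_le_sub_one_of_pos hN0).trans (by linarith)
  rw [le_div_iff₀ hlog]
  refine le_trans ?_ h2
  rw [Real.rpow_add hN0, Real.rpow_one]
  calc C * ((N:ℝ) ^ K * Real.exp (-c * (N:ℝ) ^ η)) * Real.log N ≤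
        C * ((N:ℝ) ^ K * Real.exp (-c * (N:ℝ) ^ η)) * N := by gcongr
    _ = _ := by ring

/-- lacunary growth -/
lemma lac_pow {q : ℕ → ℝ} {lam : ℝ} (hlam : 1 < lam) (hq : ∀ n, lam * q n ≤ q (n + 1)) (n k : ℕ) :
    lam ^ k * q n ≤ q (n + k) := by
  induction k with
  | zero => simp
  | succ k ih =>
    have h1 : lam * (lam ^ k * q n) ≤ lam * q (n + k) := mul_le_mul_of_nonneg_left ih (by linarith)
    calc lam ^ (k + 1) * q n = lam * (lam ^ k * q n) := by ring
      _ ≤ lam * q (n + k) := h1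
      _ ≤ q (n + (k + 1)) := hq (n + k)

/-- **most points see many large values** -/
theorem block_bad (y0 : ℝ) {q : ℕ → ℝ} {lam a b : ℝ} (hlam : 1 < lam) (hq0 : ∀ n, 0 < q n) (hq : ∀ n, lam * q n ≤ q (n + 1))
    (ha : ∀ᶠ n : ℕ in atTop, Real.log (q n) ≤ (n:ℝ) ^ a) (hb : ∀ᶠ n : ℕ in atTop, (n:ℝ) ^ b ≤ Real.log (q n))
    (ha0 : 0 < a) (hb0 : 0 < b) {κ s δ : ℝ} (hs : 0 < s) (hsκ : s < κ) (hκ1 : κ + s ≤ 1) (hδ : 0 < δ)
    (hA : a * (κ ^ 2 + 3 * s) + δ < 1) :
    ∃ C : ℝ, 0 ≤ C ∧ ∀ᶠ N : ℕ in atTop,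
      volume {x : ℝ | x ∈ I12 ∧ (cnt y0 q N ((N:ℝ) ^ (b * (κ - s) - δ)) x : ℝ) < (N:ℝ) ^ (1 - a * (κ ^ 2 + 3 * s) - δ)} ≤
        ENNReal.ofReal (C / Real.log N) := by
  classical
  have hκ : 0 < κ := hs.trans hsκ
  obtain ⟨C0, hC0, T0, hT0, hgrp⟩ := group_est y0 hs hsκ hκ1
  set A : ℝ := a * (κ ^ 2 + 3 * s) with hAd
  have hA0 : 0 < A := by positivity
  have hqT : Tendsto q atTop atTop := by
    have h1 : Tendsto (fun n : ℕ => lam ^ n * q 0) atTop atTop :=
      (tendsto_pow_atTop_atTop_of_one_lt hlam).atTop_mul_const (hq0 0)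
    refine tendsto_atTop_mono (fun n => ?_) h1
    have := lac_pow hlam hq 0 n
    rwa [zero_add] at this
  obtain ⟨n1, hn1⟩ := (ha.and (hb.and ((hqT.eventually_ge_atTop T0).and (eventually_ge_atTop 1)))).exists_forall_of_atTop
  -- the constant of the spacing
  set c0 : ℝ := min 1 (q 0) with hc0
  have hc0p : 0 < c0 := lt_min one_pos (hq0 0)
  have hloglam : 0 < Real.log lam := Real.log_pos hlam
  have hM : ∀ᶠ N : ℕ in atTop, (4 * 2 * (1 + 2 * C0) / c0) * 1 * ((N:ℝ) ^ (2 + 14 * a) * Real.exp (-Real.log lam * (N:ℝ) ^ (δ / 4))) ≤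
      1 / Real.log N := by
    simp only [mul_one]
    exact log_le_small hloglam (by positivity) (by positivity)
  have hE := log_le_small (K := 0) (C := 1) (show (0:ℝ) < 1 / 4 by norm_num) (show 0 < δ / 4 by positivity) zero_le_one
  have hb2 := ev_nat_rpow (show (0:ℝ) < δ by exact hδ) (2 * 2 ^ (b * (κ - s)))
  refine ⟨2 * (2 + C0 / (b / 2)), by positivity, ?_⟩
  filter_upwards [hM, hE, hb2, eventually_ge_atTop (2 * n1), eventually_ge_atTop 100,
    ev_nat_rpow (show (0:ℝ) < δ / 2 by positivity) 48,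
    ev_nat_rpow (show (0:ℝ) < δ / 4 by positivity) 4] with N e1 e2 e3 e4 e5 e6 e7
  have hN : (100:ℝ) ≤ N := by exact_mod_cast e5
  have hN0 : (0:ℝ) < N := by linarith
  have hN1 : (1:ℝ) ≤ N := by linarith
  set m : ℕ := ⌈(N:ℝ) ^ (A + δ / 4)⌉₊ with hm
  set L : ℕ := ⌈(N:ℝ) ^ (δ / 4)⌉₊ with hL
  set G : ℕ := ⌈2 * (N:ℝ) ^ (1 - A - δ)⌉₊ with hGd
  set n0 : ℕ := (N + 1) / 2 with hn0
  have hm1 : (N:ℝ) ^ (A + δ / 4) ≤ m := Nat.le_ceil _
  have hm2 : (m:ℝ) ≤ 2 * (N:ℝ) ^ (A + δ / 4) := by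
    have h1 := Nat.ceil_lt_add_one (show (0:ℝ) ≤ (N:ℝ) ^ (A + δ / 4) by positivity)
    have h2 : 1 ≤ (N:ℝ) ^ (A + δ / 4) := Real.one_le_rpow hN1 (by positivity)
    linarith
  have hL1 : (N:ℝ) ^ (δ / 4) ≤ L := Nat.le_ceil _
  have hL2 : (L:ℝ) ≤ 2 * (N:ℝ) ^ (δ / 4) := by
    have h1 := Nat.ceil_lt_add_one (show (0:ℝ) ≤ (N:ℝ) ^ (δ / 4) by positivity)
    linarith
  have hG1 : 2 * (N:ℝ) ^ (1 - A - δ) ≤ G := Nat.le_ceil _
  have hG2 : (G:ℝ) ≤ 3 * (N:ℝ) ^ (1 - A - δ) := by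
    have h1 := Nat.ceil_lt_add_one (show (0:ℝ) ≤ 2 * (N:ℝ) ^ (1 - A - δ) by positivity)
    have h2 : 1 ≤ (N:ℝ) ^ (1 - A - δ) := Real.one_le_rpow hN1 (by linarith)
    linarith
  have hGpos : 0 < G := by
    rw [hGd, Nat.ceil_pos]; positivity
  have hLpos : 0 < L := by
    rw [hL, Nat.ceil_pos]; positivity
  have hmpos : 0 < m := by
    rw [hm, Nat.ceil_pos]; positivity
  have hn0' : (N:ℝ) / 2 ≤ n0 := by
    have : N ≤ 2 * n0 := by omega
    have : (N:ℝ) ≤ 2 * n0 := by exact_mod_cast this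
    linarith
  have hn0'' : (n0:ℝ) ≤ N / 2 + 1 / 2 := by
    have : 2 * n0 ≤ N + 1 := by omega
    have : 2 * (n0:ℝ) ≤ N + 1 := by exact_mod_cast this
    linarith
  have hGmL : (G:ℝ) * m * L ≤ N / 4 := by
    have h1 : (G:ℝ) * m * L ≤ 3 * (N:ℝ) ^ (1 - A - δ) * (2 * (N:ℝ) ^ (A + δ / 4)) * (2 * (N:ℝ) ^ (δ / 4)) := by gcongr
    have h2 : 3 * (N:ℝ) ^ (1 - A - δ) * (2 * (N:ℝ) ^ (A + δ / 4)) * (2 * (N:ℝ) ^ (δ / 4)) =
        12 * (N:ℝ) ^ (1 - δ / 2) := by
      have h3 : (N:ℝ) ^ (1 - δ / 2) = (N:ℝ) ^ (1 - A - δ) * (N:ℝ) ^ (A + δ / 4) * (N:ℝ) ^ (δ / 4) := by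
        rw [← Real.rpow_add hN0, ← Real.rpow_add hN0]
        congr 1
        ring
      rw [h3]; ring
    have h4 : 12 * (N:ℝ) ^ (1 - δ / 2) ≤ N / 4 := by
      have h5 : (N:ℝ) ^ (1 - δ / 2) * (N:ℝ) ^ (δ / 2) = N := by
        rw [← Real.rpow_add hN0]
        simp
      have h6 : 0 < (N:ℝ) ^ (1 - δ / 2) := by positivity
      nlinarith
    linarith
  -- the indices
  set idx : ℕ → ℕ → ℕ := fun g i => n0 + (g * m + i) * L with hidx
  have hidx_lt : ∀ g < G, ∀ i < m, idx g i < N := by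
    intro g hg i hi
    have h1 : g * m + i + 1 ≤ G * m := by nlinarith
    have h2 : (g * m + i) * L ≤ G * m * L := Nat.mul_le_mul_right _ (by omega)
    have h3 : ((idx g i : ℕ):ℝ) < N := by
      have h4 : ((idx g i : ℕ):ℝ) ≤ n0 + (G:ℝ) * m * L := by
        simp only [hidx]
        exact_mod_cast Nat.add_le_add_left h2 n0
      linarith
    exact_mod_cast h3
  have hidx_ge : ∀ g i, n0 ≤ idx g i := fun g i => Nat.le_add_right _ _
  have hidx_n1 : ∀ g i, n1 ≤ idx g i := fun g i => le_trans (by omega) (hidx_ge g i)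
  have hfacts := fun g i => hn1 (idx g i) (hidx_n1 g i)
  have hlogN : 0 < Real.log N := Real.log_pos (by linarith)
  -- the events
  set E : ℕ → Set ℝ := fun g => {x : ℝ | x ∈ I12 ∧ ∀ i < m, zn (1 / 2) (y0 + x * q (idx g i)) <
    1 / 2 * Real.log (q (idx g i)) ^ (κ - s)} with hEd
  have hEm : ∀ g, MeasurableSet (E g) := by
    intro g
    have : E g = I12 ∩ ⋂ i ∈ Finset.range m, {x | zn (1 / 2) (y0 + x * q (idx g i)) < 1 / 2 * Real.log (q (idx g i)) ^ (κ - s)} := by
      ext x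
      simp [hEd]
    rw [this]
    refine measurableSet_Icc.inter (Finset.measurableSet_biInter _ fun i _ => ?_)
    exact measurableSet_lt ((zn_cont (by norm_num)).comp (continuous_const.add (continuous_id.mul continuous_const))).measurable measurable_const
  have hEv : ∀ g < G, volume (E g) ≤ ENNReal.ofReal ((2 + C0 / (b / 2)) / Real.log N) := by
    intro g hg
    have hΛ : (1:ℝ) ≤ (N:ℝ) ^ a := Real.one_le_rpow hN1 ha0.le
    have hρ : (0:ℝ) < c0 * lam ^ L := by positivity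
    have hLn0 : L ≤ n0 := by
      have h1 : (1:ℝ) ≤ (G:ℝ) * m := by
        have : 1 ≤ G * m := Nat.mul_pos hGpos hmpos
        exact_mod_cast this
      have h2 : (L:ℝ) ≤ (G:ℝ) * m * L := by nlinarith [show (0:ℝ) ≤ L by positivity]
      have h3 : (L:ℝ) ≤ n0 := by linarith
      exact_mod_cast h3
    have key := hgrp m (fun i => q (idx g i)) (c0 * lam ^ L) ((N:ℝ) ^ a) (b / 2 * Real.log N)
      (fun i => (hfacts g i).2.2.1) hΛ (by positivity) hρ
      (fun i _ => by
        have h1 := lac_pow hlam hq 0 (idx g i)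
        rw [zero_add] at h1
        refine le_trans ?_ h1
        rw [mul_comm]
        have h2 : c0 ≤ q 0 := min_le_right _ _
        have h3 : lam ^ L ≤ lam ^ (idx g i) := pow_le_pow_right₀ hlam.le (hLn0.trans (hidx_ge g i))
        gcongr)
      (fun i _ j hj => by
        have h1 : idx g i = idx g j + (i - j) * L := by
          simp only [hidx]
          have : g * m + i = (g * m + j) + (i - j) := by omega
          rw [this, add_mul]
          ring
        have h2 := lac_pow hlam hq (idx g j) ((i - j) * L)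
        rw [← h1] at h2
        refine le_trans ?_ h2
        have h3 : lam ^ L ≤ lam ^ ((i - j) * L) := pow_le_pow_right₀ hlam.le (by
          have : 1 ≤ i - j := by omega
          nlinarith)
        have h4 : c0 ≤ 1 := min_le_left _ _
        have h5 := hq0 (idx g j)
        calc c0 * lam ^ L * q (idx g j) ≤ 1 * lam ^ L * q (idx g j) := by gcongr
          _ ≤ _ := by rw [one_mul]; gcongr)
      (fun i hi => by
        refine (hfacts g i).1.trans ?_
        have h1 : ((idx g i : ℕ):ℝ) ≤ N := by exact_mod_cast (hidx_lt g hg i hi).le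
        exact Real.rpow_le_rpow (by positivity) h1 ha0.le)
      (fun i hi => by
        have h1 : ((idx g i : ℕ):ℝ) ^ b ≤ Real.log (q (idx g i)) := (hfacts g i).2.1
        have h2 : (N:ℝ) / 2 ≤ (idx g i : ℕ) := hn0'.trans (by exact_mod_cast hidx_ge g i)
        have h3 : (0:ℝ) < (idx g i : ℕ) := by linarith
        have h4 : b * Real.log (idx g i : ℕ) ≤ LL (q (idx g i)) := by
          rw [← Real.log_rpow h3]
          exact Real.log_le_log (by positivity) h1
        refine le_trans ?_ h4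
        have h5 : 1 / 2 * Real.log N ≤ Real.log (idx g i : ℕ) := by
          have h6 : 1 / 2 * Real.log N = Real.log (Real.sqrt N) := by
            rw [Real.log_sqrt (by positivity)]; ring
          rw [h6]
          apply Real.log_le_log (by positivity)
          refine le_trans ?_ h2
          have h7 : Real.sqrt N * 2 ≤ Real.sqrt N * Real.sqrt N := by
            have : (2:ℝ) ≤ Real.sqrt N := by
              rw [show (2:ℝ) = Real.sqrt 4 by rw [show (4:ℝ) = 2 ^ 2 by norm_num]; simp]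
              exact Real.sqrt_le_sqrt (by linarith)
            gcongr
          rw [Real.mul_self_sqrt hN0.le] at h7
          linarith
        calc b / 2 * Real.log N = b * (1 / 2 * Real.log N) := by ring
          _ ≤ _ := by gcongr)
    have hfin : volume (E g) ≠ ⊤ := ((measure_mono (fun x hx => hx.1)).trans_lt
      (by rw [Real.volume_Icc]; exact ENNReal.ofReal_lt_top : volume I12 < ⊤)).ne
    rw [← ENNReal.ofReal_toReal hfin]
    apply ENNReal.ofReal_le_ofReal
    refine key.trans ?_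
    -- the three terms
    have t1 : (1 - 1 / 4 * ((N:ℝ) ^ a) ^ (-κ ^ 2 - 3 * s)) ^ m ≤ 1 / Real.log N := by
      have h1 : ((N:ℝ) ^ a) ^ (-κ ^ 2 - 3 * s) = (N:ℝ) ^ (-A) := by
        rw [← Real.rpow_mul hN0.le]
        congr 1
        rw [hAd]; ring
      rw [h1]
      set p : ℝ := 1 / 4 * (N:ℝ) ^ (-A) with hp
      have hp1 : p ≤ 1 := by
        have : (N:ℝ) ^ (-A) ≤ 1 := Real.rpow_le_one_of_one_le_of_nonpos hN1 (by linarith)
        rw [hp]; linarith
      have h2 : (1 - p) ^ m ≤ Real.exp (-(p * m)) := by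
        have h3 : 1 - p ≤ Real.exp (-p) := by
          have := Real.add_one_le_exp (-p)
          linarith
        calc (1 - p) ^ m ≤ Real.exp (-p) ^ m := pow_le_pow_left₀ (by linarith) h3 m
          _ = _ := by rw [← Real.exp_nat_mul]; congr 1; ring
      have h4 : 1 / 4 * (N:ℝ) ^ (δ / 4) ≤ p * m := by
        have h5 : (N:ℝ) ^ (δ / 4) = (N:ℝ) ^ (-A) * (N:ℝ) ^ (A + δ / 4) := by
          rw [← Real.rpow_add hN0]; congr 1; ring
        rw [h5, hp, ← mul_assoc]
        gcongr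
      have h6 : Real.exp (-(p * m)) ≤ Real.exp (-(1 / 4) * (N:ℝ) ^ (δ / 4)) := by
        apply Real.exp_le_exp.mpr; linarith
      rw [Real.rpow_zero, one_mul, one_mul] at e2
      exact h2.trans (h6.trans e2)
    have t3 : (m:ℝ) * (4 * ((N:ℝ) ^ a) ^ 12 / (c0 * lam ^ L) * (1 + C0 * (m * ((N:ℝ) ^ a) ^ 2))) ≤ 1 / Real.log N := by
      refine le_trans ?_ e1
      have hmN : (m:ℝ) ≤ 2 * N := by
        refine hm2.trans ?_
        have : (N:ℝ) ^ (A + δ / 4) ≤ (N:ℝ) ^ (1:ℝ) := Real.rpow_le_rpow_of_exponent_le hN1 (by linarith)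
        rw [Real.rpow_one] at this
        linarith
      have h1 : 1 + C0 * (m * ((N:ℝ) ^ a) ^ 2) ≤ (1 + 2 * C0) * (N * ((N:ℝ) ^ a) ^ 2) := by
        have h2 : 1 ≤ N * ((N:ℝ) ^ a) ^ 2 := by
          have : 1 ≤ ((N:ℝ) ^ a) ^ 2 := one_le_pow₀ hΛ
          nlinarith
        have h3 : C0 * (m * ((N:ℝ) ^ a) ^ 2) ≤ C0 * (2 * N * ((N:ℝ) ^ a) ^ 2) := by gcongr
        calc 1 + C0 * (m * ((N:ℝ) ^ a) ^ 2) ≤ N * ((N:ℝ) ^ a) ^ 2 + C0 * (2 * N * ((N:ℝ) ^ a) ^ 2) := add_le_add h2 h3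
          _ = _ := by ring
      have h4 : Real.exp (Real.log lam * (N:ℝ) ^ (δ / 4)) ≤ lam ^ L := by
        have h5 : lam ^ L = Real.exp (Real.log lam * L) := by
          rw [mul_comm, Real.exp_nat_mul, Real.exp_log (by linarith)]
        rw [h5]
        apply Real.exp_le_exp.mpr
        gcongr
      have h6 : 1 / lam ^ L ≤ Real.exp (-Real.log lam * (N:ℝ) ^ (δ / 4)) := by
        rw [neg_mul, Real.exp_neg, ← one_div]
        exact one_div_le_one_div_of_le (Real.exp_pos _) h4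
      have h7 : (N:ℝ) ^ (2 + 14 * a) = N * N * (((N:ℝ) ^ a) ^ 12 * ((N:ℝ) ^ a) ^ 2) := by
        rw [Real.rpow_add hN0, show (2:ℝ) = ((2:ℕ):ℝ) by norm_num, Real.rpow_natCast, ← pow_add, ← Real.rpow_natCast (((N:ℝ) ^ a)),
          ← Real.rpow_mul hN0.le]
        push_cast
        rw [show a * 14 = 14 * a by ring]
        ring
      calc (m:ℝ) * (4 * ((N:ℝ) ^ a) ^ 12 / (c0 * lam ^ L) * (1 + C0 * (m * ((N:ℝ) ^ a) ^ 2))) =
            m * (4 * ((N:ℝ) ^ a) ^ 12 / c0 * (1 / lam ^ L) * (1 + C0 * (m * ((N:ℝ) ^ a) ^ 2))) := by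
            field_simp
        _ ≤ 2 * N * (4 * ((N:ℝ) ^ a) ^ 12 / c0 * Real.exp (-Real.log lam * (N:ℝ) ^ (δ / 4)) *
            ((1 + 2 * C0) * (N * ((N:ℝ) ^ a) ^ 2))) := by gcongr
        _ = _ := by rw [h7]; ring
    have t2 : C0 / (b / 2 * Real.log N) = C0 / (b / 2) / Real.log N := by rw [div_div]
    rw [t2]
    have : (2 + C0 / (b / 2)) / Real.log N = 1 / Real.log N + C0 / (b / 2) / Real.log N + 1 / Real.log N := by ring
    rw [this]
    linarith
  have hmk := count_markov hGpos E hEm (by positivity) hEv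
  have hgoal : ENNReal.ofReal (2 * (2 + C0 / (b / 2)) / Real.log N) = ENNReal.ofReal (2 * ((2 + C0 / (b / 2)) / Real.log N)) := by
    congr 1; ring
  rw [hgoal]
  refine (measure_mono ?_).trans hmk
  rintro x ⟨hx, hcx⟩
  simp only [mem_setOf_eq]
  by_contra hcon
  rw [not_le] at hcon
  apply absurd hcx
  rw [not_lt]
  -- the good groups
  set Gd : Finset ℕ := (Finset.range G).filter fun g => x ∉ E g with hGdd
  have hsum : ∑ g ∈ Finset.range G, (E g).indicator (fun _ => (1:ℝ)) x = (((Finset.range G).filter fun g => x ∈ E g).card : ℝ) := by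
    rw [Finset.card_filter]
    push_cast
    refine Finset.sum_congr rfl fun g _ => ?_
    by_cases hx : x ∈ E g <;> simp [hx]
  have hcard : ((Finset.range G).filter fun g => x ∈ E g).card + Gd.card = G := by
    have := Finset.card_filter_add_card_filter_not (s := Finset.range G) (fun g => x ∈ E g)
    rwa [Finset.card_range] at this
  have hcard' : (((Finset.range G).filter fun g => x ∈ E g).card : ℝ) + Gd.card = G := by exact_mod_cast hcard
  rw [hsum] at hcon
  have hGdc : (N:ℝ) ^ (1 - A - δ) ≤ Gd.card := by linarith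
  refine hGdc.trans ?_
  have hex : ∀ g, ∃ i, g ∈ Gd → i < m ∧ 1 / 2 * Real.log (q (idx g i)) ^ (κ - s) ≤ zn (1 / 2) (y0 + x * q (idx g i)) := by
    intro g
    by_cases hg : g ∈ Gd
    · have h1 : x ∉ E g := (Finset.mem_filter.mp hg).2
      simp only [hEd, mem_setOf_eq, not_and, not_forall, not_lt] at h1
      obtain ⟨i, hi, h2⟩ := h1 hx
      exact ⟨i, fun _ => ⟨hi, h2⟩⟩
    · exact ⟨0, fun h => absurd h hg⟩
  choose ii hii using hex
  have hinj : Set.InjOn (fun g => idx g (ii g)) Gd := by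
    intro g hg g' hg' h
    have h1 := (hii g hg).1
    have h2 := (hii g' hg').1
    simp only [hidx] at h
    have h3 : (g * m + ii g) * L = (g' * m + ii g') * L := by omega
    have h4 : g * m + ii g = g' * m + ii g' := Nat.eq_of_mul_eq_mul_right hLpos h3
    have h5 : (g * m + ii g) / m = g := by
      rw [mul_comm, Nat.mul_add_div hmpos, Nat.div_eq_of_lt h1, add_zero]
    have h6 : (g' * m + ii g') / m = g' := by
      rw [mul_comm, Nat.mul_add_div hmpos, Nat.div_eq_of_lt h2, add_zero]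
    rw [← h5, ← h6, h4]
  have hle : Gd.card ≤ cnt y0 q N ((N:ℝ) ^ (b * (κ - s) - δ)) x := by
    unfold cnt
    rw [← Finset.card_image_of_injOn hinj]
    apply Finset.card_le_card
    intro n hn
    rw [Finset.mem_image] at hn
    obtain ⟨g, hg, rfl⟩ := hn
    rw [Finset.mem_filter, Finset.mem_range]
    have hgG : g < G := Finset.mem_range.mp (Finset.mem_filter.mp hg).1
    have h1 := hii g hg
    refine ⟨hidx_lt g hgG _ h1.1, le_trans ?_ h1.2⟩
    set n := idx g (ii g) with hnd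
    have h2 : (n:ℝ) ^ b ≤ Real.log (q n) := (hfacts g (ii g)).2.1
    have h3 : (N:ℝ) / 2 ≤ n := hn0'.trans (by exact_mod_cast hidx_ge g _)
    have hks : 0 ≤ κ - s := by linarith
    have h4 : ((N:ℝ) / 2) ^ (b * (κ - s)) ≤ Real.log (q n) ^ (κ - s) := by
      rw [Real.rpow_mul (by positivity)]
      refine Real.rpow_le_rpow (by positivity) (le_trans ?_ h2) hks
      exact Real.rpow_le_rpow (by positivity) h3 hb0.le
    refine le_trans ?_ (mul_le_mul_of_nonneg_left h4 (by norm_num))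
    rw [Real.rpow_sub hN0, Real.div_rpow hN0.le (by norm_num), div_le_iff₀ (by positivity)]
    have h5 : 0 < (N:ℝ) ^ (b * (κ - s)) := by positivity
    have h6 : (0:ℝ) < 2 ^ (b * (κ - s)) := by positivity
    calc (N:ℝ) ^ (b * (κ - s)) = 1 / 2 * ((N:ℝ) ^ (b * (κ - s)) / 2 ^ (b * (κ - s))) * (2 * 2 ^ (b * (κ - s))) := by
          field_simp
      _ ≤ _ := by gcongr
  exact_mod_cast hle

end

end Pool.Agent.K6.H33.FZ
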