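import Mathlib

set_option autoImplicit false

/-! Windows: Tonelli and Markov. -/

namespace Pool.Agent.K6.H33.FZ

open MeasureTheory Set
open scoped ENNReal

noncomputable section

/-- the window kernel -/
def kk (r x y : ℝ) : ℝ≥0∞ := if |x - y| ≤ r then 1 else 0

lemma kk_comm (r x y : ℝ) : kk r x y = kk r y x := by
  unfold kk; rw [abs_sub_comm]

lemma kk_meas (r : ℝ) : Measurable (fun p : ℝ × ℝ => kk r p.1 p.2) := by
  unfold kk
  exact Measurable.ite (measurableSet_le (by fun_prop) measurable_const) measurable_const measurable_const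

lemma kk_meas_left (r x : ℝ) : Measurable (fun y : ℝ => kk r x y) := by
  unfold kk
  exact Measurable.ite (measurableSet_le (by fun_prop) measurable_const) measurable_const measurable_const

lemma kk_meas_right (r y : ℝ) : Measurable (fun x : ℝ => kk r x y) := by
  unfold kk
  exact Measurable.ite (measurableSet_le (by fun_prop) measurable_const) measurable_const measurable_const

lemma kk_int (r x : ℝ) (h : ℝ → ℝ≥0∞) :
    ∫⁻ y, h y * kk r x y = ∫⁻ y in Icc (x - r) (x + r), h y := by
  rw [← lintegral_indicator measurableSet_Icc]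
  refine lintegral_congr fun y => ?_
  unfold kk
  by_cases hy : |x - y| ≤ r
  · have h1 : y ∈ Icc (x - r) (x + r) := by
      have := abs_le.mp hy
      exact ⟨by linarith [this.2], by linarith [this.1]⟩
    rw [if_pos hy, indicator_of_mem h1, mul_one]
  · have h1 : y ∉ Icc (x - r) (x + r) := by
      intro h2
      exact hy (abs_le.mpr ⟨by linarith [h2.2], by linarith [h2.1]⟩)
    rw [if_neg hy, indicator_of_notMem h1, mul_zero]

lemma kk_vol (r x : ℝ) (s : Set ℝ) : ∫⁻ y in s, kk r x y ≤ ENNReal.ofReal (2 * r) := by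
  calc ∫⁻ y in s, kk r x y ≤ ∫⁻ y, kk r x y := setLIntegral_le_lintegral _ _
    _ = ∫⁻ y, 1 * kk r x y := by simp
    _ = ENNReal.ofReal (2 * r) := by
        rw [kk_int, setLIntegral_one, Real.volume_Icc]
        congr 1; ring

lemma kk_zero {r x y : ℝ} {a b : ℝ} (hx : x ∈ Icc a b) (hy : y ∉ Icc (a - r) (b + r)) : kk r x y = 0 := by
  unfold kk
  rw [if_neg]
  intro h
  have := abs_le.mp h
  exact hy ⟨by linarith [this.2, hx.1], by linarith [this.1, hx.2]⟩

theorem win_tonelli {f : ℝ → ℝ≥0∞} (hf : Measurable f) (a b H : ℝ) :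
    ∫⁻ c in Icc a b, ∫⁻ t in Icc (c - H) (c + H), f t ≤
      ENNReal.ofReal (2 * H) * ∫⁻ t in Icc (a - H) (b + H), f t := by
  have h1 : ∀ c : ℝ, ∫⁻ t in Icc (c - H) (c + H), f t = ∫⁻ t, f t * kk H c t := fun c => (kk_int H c f).symm
  simp_rw [h1]
  rw [lintegral_lintegral_swap]
  · calc ∫⁻ t, ∫⁻ c in Icc a b, f t * kk H c t ≤
          ∫⁻ t, (Icc (a - H) (b + H)).indicator (fun t => ENNReal.ofReal (2 * H) * f t) t := by
          refine lintegral_mono fun t => ?_
          by_cases ht : t ∈ Icc (a - H) (b + H)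
          · rw [indicator_of_mem ht, lintegral_const_mul _ (kk_meas_right H t), mul_comm]
            refine mul_le_mul_left ?_ _
            simp_rw [kk_comm H _ t]
            exact kk_vol H t _
          · rw [indicator_of_notMem ht]
            refine le_of_eq ?_
            rw [setLIntegral_congr_fun measurableSet_Icc (g := fun _ => 0)]
            · simp
            · intro c hc
              simp only
              rw [kk_zero hc ht, mul_zero]
      _ = _ := by
          rw [lintegral_indicator measurableSet_Icc, lintegral_const_mul _ hf]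
  · have : Measurable (fun p : ℝ × ℝ => f p.2 * kk H p.1 p.2) := (hf.comp measurable_snd).mul (kk_meas H)
    exact this.aemeasurable

lemma win_meas {f : ℝ → ℝ≥0∞} (hf : Measurable f) (H : ℝ) :
    Measurable (fun c : ℝ => ∫⁻ t in Icc (c - H) (c + H), f t) := by
  have h1 : (fun c : ℝ => ∫⁻ t in Icc (c - H) (c + H), f t) = fun c => ∫⁻ t, f t * kk H c t :=
    funext fun c => (kk_int H c f).symm
  rw [h1]
  exact Measurable.lintegral_prod_right' (f := fun p : ℝ × ℝ => f p.2 * kk H p.1 p.2)
    ((hf.comp measurable_snd).mul (kk_meas H))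

/-- Markov for windows -/
theorem win_markov {f : ℝ → ℝ} (hf : Measurable f) (hf0 : ∀ t, 0 ≤ f t) {a b H l : ℝ} (hl : 0 < l)
    (hi : IntegrableOn f (Icc (a - H) (b + H))) (hH : 0 ≤ H) :
    volume {c : ℝ | c ∈ Icc a b ∧ l < ∫ t in Icc (c - H) (c + H), f t} ≤
      ENNReal.ofReal (2 * H / l * ∫ t in Icc (a - H) (b + H), f t) := by
  set g : ℝ → ℝ≥0∞ := fun t => ENNReal.ofReal (f t) with hg
  have hgm : Measurable g := ENNReal.measurable_ofReal.comp hf
  have h1 : volume {c : ℝ | c ∈ Icc a b ∧ l < ∫ t in Icc (c - H) (c + H), f t} ≤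
      (volume.restrict (Icc a b)) {c | ENNReal.ofReal l ≤ ∫⁻ t in Icc (c - H) (c + H), g t} := by
    rw [Measure.restrict_apply (measurableSet_le measurable_const (win_meas hgm H))]
    refine measure_mono fun c hc => ?_
    simp only [mem_ofPred_eq] at hc
    obtain ⟨hc1, hc2⟩ := hc
    refine ⟨?_, hc1⟩
    simp only [mem_ofPred_eq]
    have hi' : IntegrableOn f (Icc (c - H) (c + H)) :=
      hi.mono_set (Icc_subset_Icc (by linarith [hc1.1]) (by linarith [hc1.2]))
    rw [hg, ← ofReal_integral_eq_lintegral_ofReal hi' (Filter.Eventually.of_forall hf0)]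
    exact ENNReal.ofReal_le_ofReal hc2.le
  refine h1.trans ?_
  have hl0 : ENNReal.ofReal l ≠ 0 := by
    rw [Ne, ENNReal.ofReal_eq_zero, not_le]; exact hl
  have h2 := meas_ge_le_lintegral_div (μ := volume.restrict (Icc a b)) (win_meas hgm H).aemeasurable
    hl0 ENNReal.ofReal_ne_top
  refine h2.trans ?_
  have h3 := win_tonelli hgm a b H
  rw [hg, ← ofReal_integral_eq_lintegral_ofReal hi (Filter.Eventually.of_forall hf0),
    ← ENNReal.ofReal_mul (by linarith)] at h3
  calc (∫⁻ c in Icc a b, ∫⁻ t in Icc (c - H) (c + H), g t) / ENNReal.ofReal l ≤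
        ENNReal.ofReal (2 * H * ∫ x in Icc (a - H) (b + H), f x) / ENNReal.ofReal l :=
        ENNReal.div_le_div_right h3 _
    _ = ENNReal.ofReal (2 * H / l * ∫ t in Icc (a - H) (b + H), f t) := by
        rw [← ENNReal.ofReal_div_of_pos hl]
        congr 1
        ring

end

end Pool.Agent.K6.H33.FZ
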