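import Pool.Agent.K6.H33.FZ.Var3
import Pool.Agent.K6.H33.FZ.Win0
import Pool.Agent.Y931.LD.VM1

set_option autoImplicit false

/-! The coefficients of the truncated exponential of the prime sum. -/

namespace Pool.Agent.K6.H33.FZ

open Pool.Agent.Y745.SW (P_MVB Py pA)
open Pool.Agent.Y745.LD
open Pool.Agent.Y655.SW (SS pA_orth pA_rec mem_Pr pA_apply)
open Pool.Agent.Y931.LD (cf poly_DP sum_cf_sq mean_sq Qk_eq floor_pos yc_ge)

noncomputable section

lemma pA_bd {y : ℝ} (hy : 0 ≤ y) (k : ℕ) : ∀ n : ℕ, n ≠ 0 →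
    0 ≤ (pA y ^ k) n ∧ (pA y ^ k) n ≤ k.factorial / Real.sqrt n := by
  induction k with
  | zero =>
    intro n hn
    rw [pow_zero, ArithmeticFunction.one_apply]
    split_ifs with h
    · subst h; simp
    · exact ⟨le_rfl, by positivity⟩
  | succ k ih =>
    intro n hn
    by_cases h : ∃ p ∈ Pool.Agent.Y655.SW.Pr y, p ∣ n
    · obtain ⟨p, hp, m, rfl⟩ := h
      have hm : m ≠ 0 := fun h0 => hn (by rw [h0, mul_zero])
      have hp' := (mem_Pr hy).1 hp
      have hp0 : (0:ℝ) < p := by exact_mod_cast hp'.1.pos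
      have hm0 : (0:ℝ) < m := by exact_mod_cast Nat.pos_of_ne_zero hm
      have h1 := pA_rec hy hp k m hm
      obtain ⟨h2, h3⟩ := ih m hm
      set F : ℝ := (m.factorization p : ℝ) + 1 with hF
      have hF1 : 1 ≤ F := by
        have : (0:ℝ) ≤ (m.factorization p : ℝ) := Nat.cast_nonneg _
        linarith
      set a := (pA y ^ (k + 1)) (p * m) with ha
      have hR0 : 0 ≤ ((k:ℝ) + 1) * ((Real.sqrt p)⁻¹ * (pA y ^ k) m) := by positivity
      have ha0 : 0 ≤ a := by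
        by_contra hcon
        push Not at hcon
        nlinarith
      refine ⟨ha0, ?_⟩
      have h4 : a ≤ ((k:ℝ) + 1) * ((Real.sqrt p)⁻¹ * (pA y ^ k) m) := by
        rw [← h1]
        exact le_mul_of_one_le_left ha0 hF1
      refine h4.trans ?_
      calc ((k:ℝ) + 1) * ((Real.sqrt p)⁻¹ * (pA y ^ k) m) ≤
            ((k:ℝ) + 1) * ((Real.sqrt p)⁻¹ * (k.factorial / Real.sqrt m)) := by gcongr
        _ = ((k + 1).factorial : ℝ) / Real.sqrt ((p * m : ℕ) : ℝ) := by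
            rw [Nat.factorial_succ]
            push_cast
            rw [Real.sqrt_mul hp0.le]
            have := Real.sqrt_pos.mpr hp0
            have := Real.sqrt_pos.mpr hm0
            field_simp
    · have h0 : (pA y ^ (k + 1)) n = 0 := by
        rw [pow_succ, ArithmeticFunction.mul_apply]
        refine Finset.sum_eq_zero fun x hx => ?_
        rw [Nat.mem_divisorsAntidiagonal] at hx
        have h1 : pA y x.2 = 0 := by
          rw [pA_apply]
          split_ifs with h2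
          · exact absurd ⟨x.2, (mem_Pr hy).2 h2, Dvd.intro_left _ hx.1⟩ h
          · rfl
        rw [h1, mul_zero]
      rw [h0]
      exact ⟨le_rfl, by positivity⟩

/-- the coefficients of the truncated exponential -/
def ce (κ : ℝ) (m : ℕ) : ℝ := κ ^ m / (m.factorial : ℝ)

lemma cf_bd {κ y : ℝ} (hy : 0 ≤ y) (hκ : 0 ≤ κ) (hκ1 : κ ≤ 1) (M n : ℕ) (hn : n ≠ 0) :
    0 ≤ cf y M (ce κ) n ∧ cf y M (ce κ) n ≤ 1 / Real.sqrt n := by
  unfold cf
  by_cases h : ∃ m ∈ Finset.range (M + 1), (pA y ^ m) n ≠ 0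
  · obtain ⟨m, hm, hne⟩ := h
    rw [Finset.sum_eq_single_of_mem m hm]
    · obtain ⟨h1, h2⟩ := pA_bd hy m n hn
      have hf : (0:ℝ) < m.factorial := by exact_mod_cast m.factorial_pos
      have hc : 0 ≤ ce κ m := by unfold ce; positivity
      refine ⟨mul_nonneg hc h1, ?_⟩
      calc ce κ m * (pA y ^ m) n ≤ ce κ m * (m.factorial / Real.sqrt n) := mul_le_mul_of_nonneg_left h2 hc
        _ = κ ^ m / Real.sqrt n := by unfold ce; field_simp
        _ ≤ 1 / Real.sqrt n := div_le_div_of_nonneg_right (pow_le_one₀ hκ hκ1) (Real.sqrt_nonneg _)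
    · intro m' _ hne'
      have := pA_orth hy hne' n
      rcases mul_eq_zero.1 this with h3 | h3
      · rw [h3, mul_zero]
      · exact absurd h3 hne
  · push Not at h
    rw [Finset.sum_eq_zero fun m hm => by rw [h m hm, mul_zero]]
    exact ⟨le_rfl, by positivity⟩

lemma cf_one {κ y : ℝ} (hy : 0 ≤ y) (M : ℕ) : cf y M (ce κ) 1 = 1 := by
  unfold cf
  rw [Finset.sum_eq_single_of_mem 0 (by simp)]
  · simp [ce]
  · intro m _ hm
    have h1 := pA_orth hy hm 1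
    rw [pow_zero, ArithmeticFunction.one_apply, if_pos rfl, mul_one] at h1
    rw [h1, mul_zero]

/-- the length of the Dirichlet polynomial -/
def NN0 (c A T : ℝ) : ℕ := ⌊yc c T⌋₊ ^ KA A T

/-- the expected mean of the weight -/
def DD0 (κ c A T : ℝ) : ℝ := ∑ n ∈ Finset.Icc 1 (NN0 c A T), cf (yc c T) (KA A T) (ce κ) n ^ 2

lemma V_eq {κ c A T : ℝ} (hy : 1 ≤ yc c T) (t : ℝ) :
    V κ c A T t = ‖DQ (NN0 c A T) (cf (yc c T) (KA A T) (ce κ)) t‖ ^ 2 := by
  unfold V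
  rw [Qk_eq]
  have h := poly_DP hy (KA A T) (NN0 c A T) (ce κ) le_rfl t
  unfold ce at h
  unfold DQ ce
  rw [h]

lemma NN0_pos {c A T : ℝ} (hy : 1 ≤ yc c T) : 1 ≤ NN0 c A T := Nat.one_le_pow _ _ (floor_pos hy)

lemma DD0_ge {κ c A T : ℝ} (hy : 1 ≤ yc c T) : 1 ≤ DD0 κ c A T := by
  unfold DD0
  have h1 : (1:ℕ) ∈ Finset.Icc 1 (NN0 c A T) := Finset.mem_Icc.mpr ⟨le_rfl, NN0_pos hy⟩
  have h2 := Finset.single_le_sum (f := fun n => cf (yc c T) (KA A T) (ce κ) n ^ 2)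
    (fun n _ => sq_nonneg _) h1
  rw [cf_one (by linarith)] at h2
  linarith

/-- the total weight and its expected mean -/
lemma IV_DD0 (hMVB : P_MVB) {κ c A T : ℝ} (hy : 1 ≤ yc c T) (hT : 0 ≤ T)
    (hN : 8 * ((NN0 c A T : ℕ) : ℝ) * (1 + Real.log (NN0 c A T : ℝ)) ≤ T / 2) :
    T / 2 * DD0 κ c A T ≤ IV κ c A T ∧ IV κ c A T ≤ 3 / 2 * T * DD0 κ c A T := by
  have h := mean_sq hMVB hy (KA A T) (NN0 c A T) (ce κ) le_rfl (T1 := T) (T2 := 2 * T) (by linarith)
  rw [← sum_cf_sq hy (KA A T) (NN0 c A T) (ce κ) le_rfl] at h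
  have e1 : (∫ t in T..(2 * T), ‖∑ m ∈ Finset.range (KA A T + 1), ((ce κ m : ℝ) : ℂ) * Py (yc c T) t ^ m‖ ^ 2) =
      IV κ c A T := by
    unfold IV V
    simp only [Qk_eq]
    rfl
  rw [e1] at h
  have hD : 0 ≤ DD0 κ c A T := by
    have := DD0_ge (κ := κ) (A := A) hy
    linarith
  have e2 : ∑ n ∈ Finset.Icc 1 (NN0 c A T), cf (yc c T) (KA A T) (ce κ) n ^ 2 = DD0 κ c A T := rfl
  rw [e2] at h
  have h3 := abs_le.mp h
  have h4 : 8 * ((NN0 c A T : ℕ) : ℝ) * (1 + Real.log (NN0 c A T : ℝ)) * DD0 κ c A T ≤ T / 2 * DD0 κ c A T :=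
    mul_le_mul_of_nonneg_right hN hD
  constructor
  · nlinarith [h3.1]
  · nlinarith [h3.2]

end

end Pool.Agent.K6.H33.FZ
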