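import Mathlib

set_option autoImplicit false

/-! The deterministic deduction: counts of large values, moments and the maximum. -/

namespace Pool.Agent.K6.H33.FZ

open Set Filter
open scoped Topology

noncomputable section

/-- a limit of logarithms from power bounds -/
lemma tend_of_bounds {F : ℕ → ℝ} {L : ℝ} (h : ∀ ε : ℝ, 0 < ε → ∀ᶠ N : ℕ in atTop, (N:ℝ) ^ (L - ε) ≤ F N)
    (h' : ∀ ε : ℝ, 0 < ε → ∀ᶠ N : ℕ in atTop, F N ≤ (N:ℝ) ^ (L + ε)) :
    Tendsto (fun N : ℕ => Real.log (F N) / Real.log N) atTop (𝓝 L) := by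
  rw [tendsto_order]
  constructor
  · intro a ha
    filter_upwards [h ((L - a) / 2) (by linarith), eventually_ge_atTop 3] with N h1 h2
    have hN : (3:ℝ) ≤ N := by exact_mod_cast h2
    have hl : 0 < Real.log N := Real.log_pos (by linarith)
    rw [lt_div_iff₀ hl]
    have h3 : Real.log ((N:ℝ) ^ (L - (L - a) / 2)) ≤ Real.log (F N) := Real.log_le_log (by positivity) h1
    rw [Real.log_rpow (by linarith)] at h3
    nlinarith
  · intro a ha
    filter_upwards [h' ((a - L) / 2) (by linarith), h 1 one_pos, eventually_ge_atTop 3] with N h1 h1' h2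
    have hN : (3:ℝ) ≤ N := by exact_mod_cast h2
    have hl : 0 < Real.log N := Real.log_pos (by linarith)
    have hF : 0 < F N := lt_of_lt_of_le (by positivity) h1'
    rw [div_lt_iff₀ hl]
    have h3 : Real.log (F N) ≤ Real.log ((N:ℝ) ^ (L + (a - L) / 2)) := Real.log_le_log hF h1
    rw [Real.log_rpow (by linarith)] at h3
    nlinarith

/-- the number of large values -/
def dc (z : ℕ → ℝ) (N : ℕ) (v : ℝ) : ℕ := ((Finset.range N).filter fun n => v ≤ z n).card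

/-- the power sums -/
def dS (z : ℕ → ℝ) (N : ℕ) (β : ℝ) : ℝ := ∑ n ∈ Finset.range N, z n ^ β

lemma dc_anti {z : ℕ → ℝ} {N : ℕ} {v v' : ℝ} (h : v' ≤ v) : dc z N v ≤ dc z N v' := by
  apply Finset.card_le_card
  intro n hn
  rw [Finset.mem_filter] at hn ⊢
  exact ⟨hn.1, h.trans hn.2⟩

lemma dc_le (z : ℕ → ℝ) (N : ℕ) (v : ℝ) : dc z N v ≤ N := by
  refine (Finset.card_filter_le _ _).trans ?_
  rw [Finset.card_range]

/-- Chebyshev -/
lemma dc_dS {z : ℕ → ℝ} (hz : ∀ n, 0 ≤ z n) (N : ℕ) {v β : ℝ} (hv : 0 ≤ v) (hβ : 0 ≤ β) :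
    (dc z N v : ℝ) * v ^ β ≤ dS z N β := by
  unfold dc dS
  have h1 : ∑ n ∈ (Finset.range N).filter (fun n => v ≤ z n), v ^ β ≤ ∑ n ∈ (Finset.range N).filter (fun n => v ≤ z n), z n ^ β :=
    Finset.sum_le_sum fun n hn => Real.rpow_le_rpow hv (Finset.mem_filter.mp hn).2 hβ
  rw [Finset.sum_const, nsmul_eq_mul] at h1
  exact h1.trans (Finset.sum_le_sum_of_subset_of_nonneg (Finset.filter_subset _ _) fun n _ _ => Real.rpow_nonneg (hz n) _)

section main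

variable {z : ℕ → ℝ} {θ : ℝ} (hz : ∀ n, 0 ≤ z n) (hθ : 1 ≤ θ)
  (hU : ∀ β ε : ℚ, 0 < β → β ≤ 4 → 0 < ε → ∀ᶠ N : ℕ in atTop, dS z N β ≤ (N:ℝ) ^ (1 + θ * (β:ℝ) ^ 2 / 4 + ε))
  (hL : ∀ κ ε : ℚ, 0 < κ → (κ:ℝ) ^ 2 < θ → 0 < ε → ∀ᶠ N : ℕ in atTop,
    (N:ℝ) ^ (1 - (κ:ℝ) ^ 2 / θ - ε) ≤ (dc z N ((N:ℝ) ^ (κ:ℝ)) : ℝ))

include hθ hL in
/-- the lower bound for all real levels -/
lemma low_all {κ : ℝ} (hκ : 0 ≤ κ) (hκθ : κ ^ 2 < θ) {ε : ℝ} (hε : 0 < ε) : ∀ᶠ N : ℕ in atTop,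
    (N:ℝ) ^ (1 - κ ^ 2 / θ - ε) ≤ (dc z N ((N:ℝ) ^ κ) : ℝ) := by
  have hθ0 : 0 < θ := by linarith
  have h1 : ∀ᶠ κ' : ℝ in 𝓝[>] κ, κ' ^ 2 < θ ∧ κ' ^ 2 / θ < κ ^ 2 / θ + ε / 2 := by
    have c1 : ∀ᶠ κ' : ℝ in 𝓝 κ, κ' ^ 2 < θ :=
      (by fun_prop : Continuous fun κ' : ℝ => κ' ^ 2).continuousAt.eventually_lt_const hκθ
    have c2 : ∀ᶠ κ' : ℝ in 𝓝 κ, κ' ^ 2 / θ < κ ^ 2 / θ + ε / 2 :=
      (by fun_prop : Continuous fun κ' : ℝ => κ' ^ 2 / θ).continuousAt.eventually_lt_const (by linarith)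
    exact (c1.and c2).filter_mono nhdsWithin_le_nhds
  rw [eventually_nhdsWithin_iff, Metric.eventually_nhds_iff] at h1
  obtain ⟨r, hr, h2⟩ := h1
  obtain ⟨κ', hκ1, hκ2⟩ := exists_rat_btwn (show κ < κ + r by linarith)
  obtain ⟨g1, g2⟩ := h2 (y := (κ':ℝ)) (by rw [Real.dist_eq, abs_of_pos (by linarith)]; linarith) hκ1
  obtain ⟨ε', hε1, hε2⟩ := exists_rat_btwn (show (0:ℝ) < ε / 2 by linarith)
  have hκ'0 : (0:ℝ) < κ' := lt_of_le_of_lt hκ hκ1
  filter_upwards [hL κ' ε' (by exact_mod_cast hκ'0) g1 (by exact_mod_cast hε1), eventually_ge_atTop 1] with N hN hN1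
  have hN1' : (1:ℝ) ≤ N := by exact_mod_cast hN1
  refine (Real.rpow_le_rpow_of_exponent_le hN1' (by linarith)).trans (hN.trans ?_)
  exact_mod_cast dc_anti (Real.rpow_le_rpow_of_exponent_le hN1' hκ1.le)

include hz hθ hU in
/-- the upper bound for all real orders -/
lemma up_all {β : ℝ} (hβ : 0 ≤ β) (hβ4 : β < 4) {ε : ℝ} (hε : 0 < ε) : ∀ᶠ N : ℕ in atTop,
    dS z N β ≤ (N:ℝ) ^ (1 + θ * β ^ 2 / 4 + ε) := by
  have hθ0 : 0 < θ := by linarith
  have h1 : ∀ᶠ β' : ℝ in 𝓝[>] β, β' < 4 ∧ θ * β' ^ 2 / 4 < θ * β ^ 2 / 4 + ε / 4 := by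
    have c1 : ∀ᶠ β' : ℝ in 𝓝 β, β' < 4 := eventually_lt_nhds hβ4
    have c2 : ∀ᶠ β' : ℝ in 𝓝 β, θ * β' ^ 2 / 4 < θ * β ^ 2 / 4 + ε / 4 :=
      (by fun_prop : Continuous fun β' : ℝ => θ * β' ^ 2 / 4).continuousAt.eventually_lt_const (by linarith)
    exact (c1.and c2).filter_mono nhdsWithin_le_nhds
  rw [eventually_nhdsWithin_iff, Metric.eventually_nhds_iff] at h1
  obtain ⟨r, hr, h2⟩ := h1
  obtain ⟨β', hβ1, hβ2⟩ := exists_rat_btwn (show β < β + r by linarith)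
  obtain ⟨g1, g2⟩ := h2 (y := (β':ℝ)) (by rw [Real.dist_eq, abs_of_pos (by linarith)]; linarith) hβ1
  obtain ⟨ε', hε1, hε2⟩ := exists_rat_btwn (show (0:ℝ) < ε / 4 by linarith)
  have hβ'0 : (0:ℝ) < β' := lt_of_le_of_lt hβ hβ1
  have ht : Tendsto (fun N : ℕ => (N:ℝ) ^ (ε / 2)) atTop atTop :=
    (tendsto_rpow_atTop (by linarith)).comp tendsto_natCast_atTop_atTop
  filter_upwards [hU β' ε' (by exact_mod_cast hβ'0) (by exact_mod_cast g1.le) (by exact_mod_cast hε1),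
    eventually_ge_atTop 1, ht.eventually_ge_atTop 2] with N hN hN1 hN2
  have hN1' : (1:ℝ) ≤ N := by exact_mod_cast hN1
  have hN0 : (0:ℝ) < N := by linarith
  have h3 : dS z N β ≤ N + dS z N β' := by
    unfold dS
    have h4 : ∀ n ∈ Finset.range N, z n ^ β ≤ 1 + z n ^ (β':ℝ) := by
      intro n _
      rcases le_total (z n) 1 with h5 | h5
      · have := Real.rpow_le_one (hz n) h5 hβ
        have := Real.rpow_nonneg (hz n) (β':ℝ)
        linarith
      · have := Real.rpow_le_rpow_of_exponent_le h5 hβ1.le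
        linarith
    refine (Finset.sum_le_sum h4).trans (le_of_eq ?_)
    rw [Finset.sum_add_distrib]
    simp
  have h5 : (N:ℝ) ≤ (N:ℝ) ^ (1 + θ * β ^ 2 / 4 + ε / 2) := by
    conv_lhs => rw [← Real.rpow_one (N:ℝ)]
    exact Real.rpow_le_rpow_of_exponent_le hN1' (by
      have : 0 ≤ θ * β ^ 2 / 4 := by positivity
      linarith)
  have h6 : (N:ℝ) ^ (1 + θ * (β':ℝ) ^ 2 / 4 + ε') ≤ (N:ℝ) ^ (1 + θ * β ^ 2 / 4 + ε / 2) :=
    Real.rpow_le_rpow_of_exponent_le hN1' (by linarith)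
  calc dS z N β ≤ 2 * (N:ℝ) ^ (1 + θ * β ^ 2 / 4 + ε / 2) := by linarith
    _ ≤ (N:ℝ) ^ (ε / 2) * (N:ℝ) ^ (1 + θ * β ^ 2 / 4 + ε / 2) := by gcongr
    _ = _ := by rw [← Real.rpow_add hN0]; congr 1; ring

lemma sq_lt_of_lt_sqrt {κ : ℝ} (hκ : 0 ≤ κ) (h : κ < √θ) : κ ^ 2 < θ := (Real.lt_sqrt hκ).mp h

include hz hθ hU hL in
/-- **the numbers of large values** -/
theorem det_count {κ : ℝ} (hκ : 0 ≤ κ) (hκθ : κ < √θ) :
    Tendsto (fun N : ℕ => Real.log (dc z N ((N:ℝ) ^ κ)) / Real.log N) atTop (𝓝 (1 - κ ^ 2 / θ)) := by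
  have hθ0 : 0 < θ := by linarith
  have hs := sq_lt_of_lt_sqrt hκ hκθ
  refine tend_of_bounds (F := fun N => (dc z N ((N:ℝ) ^ κ) : ℝ)) (fun ε hε => low_all hθ hL hκ hs hε) fun ε hε => ?_
  set β := 2 * κ / θ with hβ
  have hβ0 : 0 ≤ β := by positivity
  have hβ4 : β < 4 := by
    rw [hβ, div_lt_iff₀ hθ0]
    nlinarith
  filter_upwards [up_all hz hθ hU hβ0 hβ4 hε, eventually_ge_atTop 1] with N hN hN1
  have hN1' : (1:ℝ) ≤ N := by exact_mod_cast hN1
  have hN0 : (0:ℝ) < N := by linarith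
  have h1 := (dc_dS hz N (v := (N:ℝ) ^ κ) (by positivity) hβ0).trans hN
  have h2 : (N:ℝ) ^ (1 + θ * β ^ 2 / 4 + ε) = (N:ℝ) ^ (1 - κ ^ 2 / θ + ε) * ((N:ℝ) ^ κ) ^ β := by
    rw [← Real.rpow_mul hN0.le, ← Real.rpow_add hN0]
    congr 1
    rw [hβ]; field_simp; ring
  rw [h2] at h1
  exact le_of_mul_le_mul_right h1 (by positivity)

include hz hθ hU in
/-- **no larger values** -/
theorem det_none {κ : ℝ} (hκθ : √θ < κ) : ∀ᶠ N : ℕ in atTop, ∀ n < N, z n < (N:ℝ) ^ κ := by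
  have hθ0 : 0 < θ := by linarith
  have hsq : 0 < √θ := Real.sqrt_pos.mpr hθ0
  have hss : √θ ^ 2 = θ := Real.sq_sqrt hθ0.le
  have hs1 : 1 ≤ √θ := by rw [show (1:ℝ) = √1 by simp]; exact Real.sqrt_le_sqrt hθ
  set β := 2 / √θ with hβ
  have hβ0 : 0 < β := by positivity
  have hβ4 : β < 4 := by
    rw [hβ, div_lt_iff₀ hsq]; linarith
  have he : 0 < (κ * β - 2) / 2 := by
    have : 2 < κ * β := by
      rw [hβ, ← mul_div_assoc, lt_div_iff₀ hsq]; linarith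
    linarith
  filter_upwards [up_all hz hθ hU hβ0.le hβ4 he, eventually_ge_atTop 2] with N hN hN1 n hn
  have hN1' : (2:ℝ) ≤ N := by exact_mod_cast hN1
  have hN0 : (0:ℝ) < N := by linarith
  by_contra hcon
  rw [not_lt] at hcon
  have h1 : ((N:ℝ) ^ κ) ^ β ≤ dS z N β := by
    refine (Real.rpow_le_rpow (by positivity) hcon hβ0.le).trans ?_
    exact Finset.single_le_sum (f := fun n => z n ^ β) (fun n _ => Real.rpow_nonneg (hz n) _) (Finset.mem_range.mpr hn)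
  have h2 := h1.trans hN
  rw [← Real.rpow_mul hN0.le] at h2
  have h3 : κ * β ≤ 1 + θ * β ^ 2 / 4 + (κ * β - 2) / 2 := (Real.rpow_le_rpow_left_iff (by linarith)).mp h2
  have h4 : θ * β ^ 2 / 4 = 1 := by
    rw [hβ, div_pow, hss]; field_simp; norm_num
  linarith

include hz hθ hU hL in
/-- **the moments** -/
theorem det_moment {β : ℝ} (hβ : 0 ≤ β) :
    Tendsto (fun N : ℕ => Real.log (1 / (N:ℝ) * dS z N β) / Real.log N) atTop
      (𝓝 (if β ≤ 2 / √θ then θ * β ^ 2 / 4 else √θ * β - 1)) := by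
  have hθ0 : 0 < θ := by linarith
  have hsq : 0 < √θ := Real.sqrt_pos.mpr hθ0
  have hss : √θ ^ 2 = θ := Real.sq_sqrt hθ0.le
  have hs1 : 1 ≤ √θ := by rw [show (1:ℝ) = √1 by simp]; exact Real.sqrt_le_sqrt hθ
  set φ : ℝ := if β ≤ 2 / √θ then θ * β ^ 2 / 4 else √θ * β - 1 with hφ
  refine tend_of_bounds (F := fun N => 1 / (N:ℝ) * dS z N β) (fun ε hε => ?_) fun ε hε => ?_
  · -- the lower bound
    set κ0 : ℝ := min (θ * β / 2) √θ with hκ0
    have hφ2 : φ = κ0 * β - κ0 ^ 2 / θ := by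
      rw [hφ]
      split_ifs with h
      · have h1 : θ * β / 2 ≤ √θ := by
          rw [le_div_iff₀ hsq] at h
          nlinarith
        rw [hκ0, min_eq_left h1]
        field_simp
        ring
      · have h1 : √θ ≤ θ * β / 2 := by
          rw [not_le, div_lt_iff₀ hsq] at h
          nlinarith
        rw [hκ0, min_eq_right h1, hss, div_self hθ0.ne']
    have hmem : κ0 ∈ closure (Ioo 0 √θ) := by
      rw [closure_Ioo hsq.ne]
      exact ⟨le_min (by positivity) hsq.le, min_le_right _ _⟩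
    have hopen : IsOpen {κ : ℝ | φ - ε / 2 < κ * β - κ ^ 2 / θ} :=
      isOpen_lt continuous_const (by fun_prop)
    obtain ⟨κ, hκ1, hκ2⟩ := mem_closure_iff.mp hmem _ hopen (by
      show φ - ε / 2 < κ0 * β - κ0 ^ 2 / θ
      linarith)
    replace hκ1 : φ - ε / 2 < κ * β - κ ^ 2 / θ := hκ1
    have hs := sq_lt_of_lt_sqrt hκ2.1.le hκ2.2
    filter_upwards [low_all hθ hL hκ2.1.le hs (half_pos hε), eventually_ge_atTop 1] with N hN hN1
    have hN1' : (1:ℝ) ≤ N := by exact_mod_cast hN1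
    have hN0 : (0:ℝ) < N := by linarith
    have h1 := dc_dS hz N (v := (N:ℝ) ^ κ) (by positivity) hβ
    have h2 : (N:ℝ) ^ (1 - κ ^ 2 / θ - ε / 2) * ((N:ℝ) ^ κ) ^ β ≤ dS z N β :=
      le_trans (by gcongr) h1
    rw [← Real.rpow_mul hN0.le, ← Real.rpow_add hN0] at h2
    have h3 : (N:ℝ) ^ (φ - ε) * N ≤ (N:ℝ) ^ (1 - κ ^ 2 / θ - ε / 2 + κ * β) := by
      rw [← Real.rpow_add_one hN0.ne']
      exact Real.rpow_le_rpow_of_exponent_le hN1' (by linarith)
    rw [one_div, ← div_eq_inv_mul, le_div_iff₀ hN0]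
    exact h3.trans h2
  · -- the upper bound
    by_cases h : β ≤ 2 / √θ
    · have hβ4 : β < 4 := by
        refine lt_of_le_of_lt h ?_
        rw [div_lt_iff₀ hsq]; linarith
      filter_upwards [up_all hz hθ hU hβ hβ4 hε, eventually_ge_atTop 1] with N hN hN1
      have hN1' : (1:ℝ) ≤ N := by exact_mod_cast hN1
      have hN0 : (0:ℝ) < N := by linarith
      rw [hφ, if_pos h, one_div, ← div_eq_inv_mul, div_le_iff₀ hN0, ← Real.rpow_add_one hN0.ne']
      refine hN.trans (le_of_eq ?_)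
      congr 1
      ring
    · rw [not_le] at h
      set β0 := 2 / √θ with hβ0
      have hβ0p : 0 < β0 := by positivity
      have hβ4 : β0 < 4 := by
        rw [hβ0, div_lt_iff₀ hsq]; linarith
      set e := ε / (β - β0 + 1) with he
      have he0 : 0 < e := div_pos hε (by linarith)
      have h4 : θ * β0 ^ 2 / 4 = 1 := by
        rw [hβ0, div_pow, hss]; field_simp; norm_num
      filter_upwards [up_all hz hθ hU hβ0p.le hβ4 he0, det_none hz hθ hU (show √θ < √θ + e by linarith),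
        eventually_ge_atTop 1] with N hN hN2 hN1
      have hN1' : (1:ℝ) ≤ N := by exact_mod_cast hN1
      have hN0 : (0:ℝ) < N := by linarith
      have h1 : dS z N β ≤ dS z N β0 * ((N:ℝ) ^ (√θ + e)) ^ (β - β0) := by
        unfold dS
        rw [Finset.sum_mul]
        refine Finset.sum_le_sum fun n hn => ?_
        have h5 := hN2 n (Finset.mem_range.mp hn)
        rcases (hz n).eq_or_lt with h6 | h6
        · rw [← h6, Real.zero_rpow (by linarith), Real.zero_rpow hβ0p.ne', zero_mul]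
        · calc z n ^ β = z n ^ β0 * z n ^ (β - β0) := by rw [← Real.rpow_add h6]; congr 1; ring
            _ ≤ _ := by
              have : z n ^ (β - β0) ≤ ((N:ℝ) ^ (√θ + e)) ^ (β - β0) := Real.rpow_le_rpow h6.le h5.le (by linarith)
              gcongr
      rw [hφ, if_neg (not_le.mpr h), one_div, ← div_eq_inv_mul, div_le_iff₀ hN0, ← Real.rpow_add_one hN0.ne']
      have h2 : dS z N β0 * ((N:ℝ) ^ (√θ + e)) ^ (β - β0) ≤
          (N:ℝ) ^ (1 + θ * β0 ^ 2 / 4 + e) * ((N:ℝ) ^ (√θ + e)) ^ (β - β0) := by gcongr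
      refine h1.trans (h2.trans (le_of_eq ?_))
      rw [← Real.rpow_mul hN0.le, ← Real.rpow_add hN0]
      congr 1
      rw [h4]
      have h5 : e * (β - β0 + 1) = ε := div_mul_cancel₀ _ (by linarith)
      have h6 : √θ * β0 = 2 := by rw [hβ0]; field_simp
      linarith [h5, h6, show (√θ + e) * (β - β0) = √θ * β - √θ * β0 + e * (β - β0 + 1) - e by ring]

include hz hθ hU hL in
/-- **the maximum** -/
theorem det_max : Tendsto (fun N : ℕ => Real.log (⨆ n : Fin N, z n) / Real.log N) atTop (𝓝 √θ) := by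
  have hθ0 : 0 < θ := by linarith
  have hsq : 0 < √θ := Real.sqrt_pos.mpr hθ0
  refine tend_of_bounds (F := fun N => ⨆ n : Fin N, z n) (fun ε hε => ?_) fun ε hε => ?_
  · set κ : ℝ := max (√θ - ε) (√θ / 2) with hκ
    have hκ0 : 0 < κ := lt_max_of_lt_right (by linarith)
    have hκ1 : κ < √θ := max_lt (by linarith) (by linarith)
    have hs := sq_lt_of_lt_sqrt hκ0.le hκ1
    filter_upwards [low_all hθ hL hκ0.le hs one_pos, eventually_ge_atTop 1] with N hN hN1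
    have hN1' : (1:ℝ) ≤ N := by exact_mod_cast hN1
    have hN0 : (0:ℝ) < N := by linarith
    have h1 : (0:ℝ) < (dc z N ((N:ℝ) ^ κ) : ℝ) := lt_of_lt_of_le (by positivity) hN
    have h2 : 0 < dc z N ((N:ℝ) ^ κ) := by exact_mod_cast h1
    obtain ⟨n, hn⟩ := Finset.card_pos.mp h2
    rw [Finset.mem_filter, Finset.mem_range] at hn
    refine (Real.rpow_le_rpow_of_exponent_le hN1' (le_max_left _ _)).trans (hn.2.trans ?_)
    exact le_ciSup (f := fun n : Fin N => z n) (Set.finite_range _).bddAbove ⟨n, hn.1⟩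
  · filter_upwards [det_none hz hθ hU (show √θ < √θ + ε by linarith)] with N hN
    exact Real.iSup_le (fun n => (hN n n.2).le) (by positivity)

end main

end

end Pool.Agent.K6.H33.FZ
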