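import Pool.Agent.K6.H33.FZ.LowAE

set_option autoImplicit false

/-! The upper bound for the sampled moments, almost everywhere. -/

namespace Pool.Agent.K6.H33.FZ

open MeasureTheory Set Filter
open scoped ENNReal Topology
open Pool.Agent.W184 (zn zn_nonneg zn_cont zn_le)
open Pool.Agent.Y745.LD
open Pool.Agent.Y448.LD (tL tLL)

noncomputable section

/-- the sampled moments -/
def Sm (y0 : ℝ) (q : ℕ → ℝ) (N : ℕ) (β x : ℝ) : ℝ := ∑ n ∈ Finset.range N, zn (1 / 2) (y0 + x * q n) ^ β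

lemma znp_cont {β : ℝ} (hβ : 0 ≤ β) : Continuous (fun t => zn (1 / 2) t ^ β) :=
  (zn_cont (by norm_num)).rpow_const fun t => Or.inr hβ

lemma Sm_cont {y0 : ℝ} {q : ℕ → ℝ} {β : ℝ} (hβ : 0 ≤ β) (N : ℕ) : Continuous (fun x => Sm y0 q N β x) := by
  unfold Sm
  exact continuous_finsetSum _ fun n _ => (znp_cont hβ).comp (continuous_const.add (continuous_id.mul continuous_const))

lemma Sm_nonneg (y0 : ℝ) (q : ℕ → ℝ) (N : ℕ) (β x : ℝ) : 0 ≤ Sm y0 q N β x :=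
  Finset.sum_nonneg fun _ _ => Real.rpow_nonneg (zn_nonneg _ _) _

lemma Sm_mono (y0 : ℝ) (q : ℕ → ℝ) {N N' : ℕ} (h : N ≤ N') (β x : ℝ) : Sm y0 q N β x ≤ Sm y0 q N' β x :=
  Finset.sum_le_sum_of_subset_of_nonneg (Finset.range_mono h) fun _ _ _ => Real.rpow_nonneg (zn_nonneg _ _) _

/-- the mean of a power of one sample -/
lemma one_mean (y0 : ℝ) {q : ℕ → ℝ} {lam a β : ℝ} (hlam : 1 < lam) (hq0 : ∀ n, 0 < q n) (hq : ∀ n, lam * q n ≤ q (n + 1))
    (ha : ∀ᶠ n : ℕ in atTop, Real.log (q n) ≤ (n:ℝ) ^ a) (ha0 : 0 ≤ a) (hβ : 0 < β) (hβ4 : β ≤ 4) :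
    ∃ D : ℝ, 0 ≤ D ∧ ∀ n : ℕ, ∫ x in I12, zn (1 / 2) (y0 + x * q n) ^ β ≤ D * ((n:ℝ) + 1) ^ (a * (β ^ 2 / 4)) := by
  have hqT := lac_tendsto hlam hq0 hq
  obtain ⟨C, hC, hm⟩ := mom_line (α := β / 2) (by positivity) (by linarith)
  obtain ⟨n1, hn1⟩ := ((hqT.eventually hm).and (ha.and (((tL.comp hqT).eventually_ge_atTop 1).and
    (hqT.eventually_ge_atTop (2 * |y0|))))).exists_forall_of_atTop
  have hI0 : ∀ n, 0 ≤ ∫ x in I12, zn (1 / 2) (y0 + x * q n) ^ β := fun n =>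
    setIntegral_nonneg measurableSet_Icc fun x _ => Real.rpow_nonneg (zn_nonneg _ _) _
  refine ⟨C + ∑ n ∈ Finset.range n1, ∫ x in I12, zn (1 / 2) (y0 + x * q n) ^ β,
    add_nonneg (by linarith) (Finset.sum_nonneg fun n _ => hI0 n), fun n => ?_⟩
  have hp : 1 ≤ ((n:ℝ) + 1) ^ (a * (β ^ 2 / 4)) := Real.one_le_rpow (by
    have : (0:ℝ) ≤ n := Nat.cast_nonneg n
    linarith) (by positivity)
  rcases lt_or_ge n n1 with hn | hn
  · have h1 : ∫ x in I12, zn (1 / 2) (y0 + x * q n) ^ β ≤ ∑ n ∈ Finset.range n1, ∫ x in I12, zn (1 / 2) (y0 + x * q n) ^ β :=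
      Finset.single_le_sum (f := fun n => ∫ x in I12, zn (1 / 2) (y0 + x * q n) ^ β) (fun n _ => hI0 n) (Finset.mem_range.mpr hn)
    have h2 : 0 ≤ ∑ n ∈ Finset.range n1, ∫ x in I12, zn (1 / 2) (y0 + x * q n) ^ β := Finset.sum_nonneg fun n _ => hI0 n
    nlinarith
  · obtain ⟨g1, g2, g3, g4⟩ := hn1 n hn
    simp only [Function.comp_apply] at g3
    have hqn := hq0 n
    have hzc := znp_cont hβ.le
    have e1 : ∫ x in I12, zn (1 / 2) (y0 + x * q n) ^ β = (q n)⁻¹ * ∫ t in (y0 + q n * 1)..(y0 + q n * 2), zn (1 / 2) t ^ β := by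
      simp_rw [mul_comm _ (q n)]
      rw [integral_Icc_eq_integral_Ioc, ← intervalIntegral.integral_of_le (by norm_num),
        intervalIntegral.integral_comp_add_mul (fun t => zn (1 / 2) t ^ β) hqn.ne', smul_eq_mul]
    have hy := abs_le.mp (show |y0| ≤ q n / 2 by linarith)
    have e2 : ∫ t in (y0 + q n * 1)..(y0 + q n * 2), zn (1 / 2) t ^ β ≤ ∫ t in (q n / 2)..(3 * q n), zn (1 / 2) t ^ β :=
      intervalIntegral.integral_mono_interval (by linarith) (by linarith) (by linarith)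
        (Filter.Eventually.of_forall fun t => Real.rpow_nonneg (zn_nonneg _ _) _) (hzc.intervalIntegrable _ _)
    have e3 : ∫ t in (q n / 2)..(3 * q n), zn (1 / 2) t ^ β ≤ C * (q n * Real.log (q n) ^ (β ^ 2 / 4)) := by
      have e4 : 2 * (β / 2) = β := by ring
      have e5 : (β / 2) ^ 2 = β ^ 2 / 4 := by ring
      rw [e4, e5] at g1
      exact g1
    have e6 : Real.log (q n) ^ (β ^ 2 / 4) ≤ ((n:ℝ) + 1) ^ (a * (β ^ 2 / 4)) := by
      have hn0 : (0:ℝ) ≤ n := Nat.cast_nonneg n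
      rw [Real.rpow_mul (by positivity)]
      refine Real.rpow_le_rpow (by linarith) (g2.trans ?_) (by positivity)
      exact Real.rpow_le_rpow hn0 (by linarith) ha0
    rw [e1]
    calc (q n)⁻¹ * ∫ t in (y0 + q n * 1)..(y0 + q n * 2), zn (1 / 2) t ^ β ≤ (q n)⁻¹ * (C * (q n * Real.log (q n) ^ (β ^ 2 / 4))) := by
          gcongr
          exact e2.trans e3
      _ = C * Real.log (q n) ^ (β ^ 2 / 4) := by field_simp
      _ ≤ C * ((n:ℝ) + 1) ^ (a * (β ^ 2 / 4)) := by gcongr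
      _ ≤ _ := by
          have : 0 ≤ ∑ n ∈ Finset.range n1, ∫ x in I12, zn (1 / 2) (y0 + x * q n) ^ β := Finset.sum_nonneg fun n _ => hI0 n
          gcongr
          linarith

/-- **the upper bound, almost everywhere in `[1, 2]`** -/
theorem up_ae (y0 : ℝ) {q : ℕ → ℝ} {lam θ : ℝ} (hlam : 1 < lam) (hq0 : ∀ n, 0 < q n) (hq : ∀ n, lam * q n ≤ q (n + 1))
    (hθ : 1 ≤ θ) (hlim : Tendsto (fun n : ℕ => Real.log (Real.log (q n)) / Real.log n) atTop (𝓝 θ))
    {β ε : ℝ} (hβ : 0 < β) (hβ4 : β ≤ 4) (hε : 0 < ε) :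
    ∀ᵐ x : ℝ, x ∈ I12 → ∀ᶠ N : ℕ in atTop, Sm y0 q N β x ≤ (N:ℝ) ^ (1 + θ * β ^ 2 / 4 + ε) := by
  have hqT := lac_tendsto hlam hq0 hq
  obtain ⟨l1, _⟩ := log_bounds hqT hlim (show 0 < ε / 16 by positivity)
  obtain ⟨D, hD, hmean⟩ := one_mean y0 hlam hq0 hq l1 (by positivity) hβ hβ4
  set A : ℝ := (θ + ε / 16) * (β ^ 2 / 4) with hA
  have hA0 : 0 ≤ A := by positivity
  have hA1 : A ≤ θ * β ^ 2 / 4 + ε / 4 := by
    have : β ^ 2 / 4 ≤ 4 := by nlinarith
    rw [hA]; nlinarith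
  set e : ℝ := 1 + A + ε / 4 with he
  -- the mean of the sum
  have hS : ∀ N : ℕ, 1 ≤ N → ∫ x in I12, Sm y0 q N β x ≤ D * (N:ℝ) ^ (1 + A) := by
    intro N hN
    have hN0 : (0:ℝ) < N := by exact_mod_cast hN
    unfold Sm
    have hint : ∀ n ∈ Finset.range N, IntegrableOn (fun x => zn (1 / 2) (y0 + x * q n) ^ β) I12 := fun n _ => by
      have hc : Continuous (fun x => zn (1 / 2) (y0 + x * q n) ^ β) :=
        (znp_cont hβ.le).comp (continuous_const.add (continuous_id.mul continuous_const))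
      exact hc.continuousOn.integrableOn_compact isCompact_Icc
    rw [integral_finsetSum _ hint]
    have h1 : ∀ n ∈ Finset.range N, ∫ x in I12, zn (1 / 2) (y0 + x * q n) ^ β ≤ D * (N:ℝ) ^ A := by
      intro n hn
      refine (hmean n).trans ?_
      have h2 : (n:ℝ) + 1 ≤ N := by exact_mod_cast Finset.mem_range.mp hn
      have h3 : ((n:ℝ) + 1) ^ A ≤ (N:ℝ) ^ A := Real.rpow_le_rpow (by positivity) h2 hA0
      gcongr
    have h2 := Finset.sum_le_card_nsmul _ _ _ h1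
    rw [Finset.card_range, nsmul_eq_mul] at h2
    refine h2.trans (le_of_eq ?_)
    rw [Real.rpow_add hN0, Real.rpow_one]
    ring
  have hbc := bc_shift (S := fun k => {x : ℝ | x ∈ I12 ∧ ((2 ^ k : ℕ) : ℝ) ^ e ≤ Sm y0 q (2 ^ k) β x})
    (f := fun k => D * ((2:ℝ) ^ (-(ε / 4))) ^ k)
    ((summable_geometric_of_lt_one (by positivity)
      (Real.rpow_lt_one_of_one_lt_of_neg (by norm_num) (by linarith))).mul_left _) 0 (fun k _ => by
      set N : ℕ := 2 ^ k with hN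
      have hN1 : 1 ≤ N := Nat.one_le_two_pow
      have hN0 : (0:ℝ) < N := by exact_mod_cast hN1
      have hc := Sm_cont (y0 := y0) (q := q) hβ.le N
      have h1 := mul_meas_ge_le_lintegral₀ (μ := volume.restrict I12)
        (hc.measurable.ennreal_ofReal).aemeasurable (ENNReal.ofReal ((N:ℝ) ^ e))
      rw [← ofReal_integral_eq_lintegral_ofReal (hc.continuousOn.integrableOn_compact isCompact_Icc)
        (Filter.Eventually.of_forall fun x => Sm_nonneg y0 q N β x)] at h1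
      have h2 : volume {x : ℝ | x ∈ I12 ∧ (N : ℝ) ^ e ≤ Sm y0 q N β x} ≤
          volume.restrict I12 {x | ENNReal.ofReal ((N:ℝ) ^ e) ≤ ENNReal.ofReal (Sm y0 q N β x)} := by
        rw [Measure.restrict_apply' measurableSet_Icc]
        refine measure_mono ?_
        rintro x ⟨hx1, hx2⟩
        exact ⟨ENNReal.ofReal_le_ofReal hx2, hx1⟩
      have h3 : ENNReal.ofReal ((N:ℝ) ^ e) * volume {x : ℝ | x ∈ I12 ∧ (N : ℝ) ^ e ≤ Sm y0 q N β x} ≤
          ENNReal.ofReal ((N:ℝ) ^ e) * ENNReal.ofReal (D * (N:ℝ) ^ (-(ε / 4))) := by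
        refine (mul_le_mul' le_rfl h2).trans (h1.trans ?_)
        rw [← ENNReal.ofReal_mul (by positivity)]
        apply ENNReal.ofReal_le_ofReal
        refine (hS N hN1).trans (le_of_eq ?_)
        have : (N:ℝ) ^ (1 + A) = (N:ℝ) ^ e * (N:ℝ) ^ (-(ε / 4)) := by
          rw [← Real.rpow_add hN0, he]; congr 1; ring
        rw [this]; ring
      have h4 := (ENNReal.mul_le_mul_iff_right (by rw [Ne, ENNReal.ofReal_eq_zero, not_le]; positivity) ENNReal.ofReal_ne_top).mp h3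
      refine h4.trans (le_of_eq ?_)
      congr 2
      rw [hN, Nat.cast_pow, ← Real.rpow_natCast, ← Real.rpow_mul (by positivity), ← Real.rpow_natCast,
        ← Real.rpow_mul (by positivity)]
      push_cast
      congr 1
      ring)
  filter_upwards [hbc] with x hx hxI
  obtain ⟨K, hK⟩ := eventually_atTop.mp hx
  have he0 : 0 < e := by positivity
  filter_upwards [eventually_ge_atTop (2 ^ K), eventually_ge_atTop 1, ev_nat_rpow (show 0 < ε / 4 by positivity) ((2:ℝ) ^ e)]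
    with N hN1 hN2 hN3
  set k := Nat.log 2 N with hk
  have hk1 : 2 ^ k ≤ N := Nat.pow_log_le_self 2 (by omega)
  have hk2 : N < 2 ^ (k + 1) := Nat.lt_pow_succ_log_self (by norm_num) N
  have hKk : K ≤ k + 1 := by
    by_contra h
    rw [not_le] at h
    have := Nat.pow_le_pow_right (show 0 < 2 by norm_num) h.le
    omega
  have h1 := hK (k + 1) hKk
  have h2 : Sm y0 q (2 ^ (k + 1)) β x < ((2 ^ (k + 1) : ℕ) : ℝ) ^ e := by
    by_contra hcon
    exact h1 ⟨hxI, not_lt.mp hcon⟩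
  have hN0 : (0:ℝ) < N := by exact_mod_cast hN2
  have hN1' : (1:ℝ) ≤ N := by exact_mod_cast hN2
  have h3 : ((2 ^ (k + 1) : ℕ) : ℝ) ≤ 2 * N := by
    have : 2 ^ (k + 1) ≤ 2 * N := by rw [pow_succ]; omega
    exact_mod_cast this
  calc Sm y0 q N β x ≤ Sm y0 q (2 ^ (k + 1)) β x := Sm_mono y0 q hk2.le β x
    _ ≤ ((2 ^ (k + 1) : ℕ) : ℝ) ^ e := h2.le
    _ ≤ (2 * N) ^ e := Real.rpow_le_rpow (by positivity) h3 he0.le
    _ = 2 ^ e * (N:ℝ) ^ e := Real.mul_rpow (by norm_num) hN0.le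
    _ ≤ (N:ℝ) ^ (ε / 4) * (N:ℝ) ^ e := by gcongr
    _ = (N:ℝ) ^ (ε / 4 + e) := by rw [← Real.rpow_add hN0]
    _ ≤ _ := Real.rpow_le_rpow_of_exponent_le hN1' (by rw [he]; linarith)

end

end Pool.Agent.K6.H33.FZ
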