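import Pool.Agent.K6.H33.FZ.Det
import Pool.Agent.K6.H33.FZ.UpAE

set_option autoImplicit false

/-! The theorem for almost every real number. -/

namespace Pool.Agent.K6.H33.FZ

open MeasureTheory Set Filter
open scoped ENNReal Topology
open Pool.Agent.W184 (zn zn_nonneg zn_cont zn_le zn_neg)

noncomputable section

/-- the conclusions for a sequence of nonnegative numbers -/
def Frz (θ : ℝ) (z : ℕ → ℝ) : Prop :=
  (∀ κ : ℝ, 0 ≤ κ → κ < √θ →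
    Tendsto (fun N : ℕ => Real.log (dc z N ((N:ℝ) ^ κ)) / Real.log N) atTop (𝓝 (1 - κ ^ 2 / θ))) ∧
  (∀ κ : ℝ, √θ < κ → ∀ᶠ N : ℕ in atTop, ∀ n < N, z n < (N:ℝ) ^ κ) ∧
  (∀ β : ℝ, 0 ≤ β → Tendsto (fun N : ℕ => Real.log (1 / (N:ℝ) * dS z N β) / Real.log N) atTop
      (𝓝 (if β ≤ 2 / √θ then θ * β ^ 2 / 4 else √θ * β - 1))) ∧
  Tendsto (fun N : ℕ => Real.log (⨆ n : Fin N, z n) / Real.log N) atTop (𝓝 √θ)

theorem frz_of {z : ℕ → ℝ} {θ : ℝ} (hz : ∀ n, 0 ≤ z n) (hθ : 1 ≤ θ)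
    (hU : ∀ β ε : ℚ, 0 < β → β ≤ 4 → 0 < ε → ∀ᶠ N : ℕ in atTop, dS z N β ≤ (N:ℝ) ^ (1 + θ * (β:ℝ) ^ 2 / 4 + ε))
    (hL : ∀ κ ε : ℚ, 0 < κ → (κ:ℝ) ^ 2 < θ → 0 < ε → ∀ᶠ N : ℕ in atTop,
      (N:ℝ) ^ (1 - (κ:ℝ) ^ 2 / θ - ε) ≤ (dc z N ((N:ℝ) ^ (κ:ℝ)) : ℝ)) : Frz θ z := by
  refine ⟨?_, ?_, ?_, ?_⟩
  · intro κ hκ hκθ
    exact det_count hz hθ hU hL hκ hκθ
  · intro κ hκ
    exact det_none hz hθ hU hκ
  · intro β hβ
    exact det_moment hz hθ hU hL hβ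
  · exact det_max hz hθ hU hL

theorem frz_I12 (y0 : ℝ) {q : ℕ → ℝ} {lam θ : ℝ} (hlam : 1 < lam) (hq0 : ∀ n, 0 < q n)
    (hq : ∀ n, lam * q n ≤ q (n + 1)) (hθ : 1 ≤ θ)
    (hlim : Tendsto (fun n : ℕ => Real.log (Real.log (q n)) / Real.log n) atTop (𝓝 θ)) :
    ∀ᵐ x : ℝ, x ∈ I12 → Frz θ (fun n => zn (1 / 2) (y0 + x * q n)) := by
  have h1 : ∀ᵐ x : ℝ, ∀ β ε : ℚ, 0 < β → β ≤ 4 → 0 < ε → x ∈ I12 → ∀ᶠ N : ℕ in atTop,
      Sm y0 q N β x ≤ (N:ℝ) ^ (1 + θ * (β:ℝ) ^ 2 / 4 + ε) := by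
    rw [ae_all_iff]; intro β
    rw [ae_all_iff]; intro ε
    by_cases hβ : 0 < β
    · by_cases hβ4 : β ≤ 4
      · by_cases hε : 0 < ε
        · filter_upwards [up_ae y0 hlam hq0 hq hθ hlim (β := β) (ε := ε) (by exact_mod_cast hβ) (by exact_mod_cast hβ4)
            (by exact_mod_cast hε)] with x hx _ _ _ hxI
          exact hx hxI
        · exact Filter.Eventually.of_forall fun x _ _ h => absurd h hε
      · exact Filter.Eventually.of_forall fun x _ h => absurd h hβ4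
    · exact Filter.Eventually.of_forall fun x h => absurd h hβ
  have h2 : ∀ᵐ x : ℝ, ∀ κ ε : ℚ, 0 < κ → (κ:ℝ) ^ 2 < θ → 0 < ε → x ∈ I12 → ∀ᶠ N : ℕ in atTop,
      (N:ℝ) ^ (1 - (κ:ℝ) ^ 2 / θ - ε) ≤ (cnt y0 q N ((N:ℝ) ^ (κ:ℝ)) x : ℝ) := by
    rw [ae_all_iff]; intro κ
    rw [ae_all_iff]; intro ε
    by_cases hκ : 0 < κ
    · by_cases hκθ : (κ:ℝ) ^ 2 < θ
      · by_cases hε : 0 < ε
        · filter_upwards [low_ae y0 hlam hq0 hq hθ hlim (κ := κ) (ε := ε) (by exact_mod_cast hκ) hκθ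
            (by exact_mod_cast hε)] with x hx _ _ _ hxI
          exact hx hxI
        · exact Filter.Eventually.of_forall fun x _ _ h => absurd h hε
      · exact Filter.Eventually.of_forall fun x _ h => absurd h hκθ
    · exact Filter.Eventually.of_forall fun x h => absurd h hκ
  filter_upwards [h1, h2] with x hx1 hx2 hxI
  have hz : ∀ n, 0 ≤ (fun n => zn (1 / 2) (y0 + x * q n)) n := fun n => zn_nonneg _ _
  have hU : ∀ β ε : ℚ, 0 < β → β ≤ 4 → 0 < ε → ∀ᶠ N : ℕ in atTop,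
      dS (fun n => zn (1 / 2) (y0 + x * q n)) N β ≤ (N:ℝ) ^ (1 + θ * (β:ℝ) ^ 2 / 4 + ε) :=
    fun β ε h h' h'' => hx1 β ε h h' h'' hxI
  have hL : ∀ κ ε : ℚ, 0 < κ → (κ:ℝ) ^ 2 < θ → 0 < ε → ∀ᶠ N : ℕ in atTop,
      (N:ℝ) ^ (1 - (κ:ℝ) ^ 2 / θ - ε) ≤ (dc (fun n => zn (1 / 2) (y0 + x * q n)) N ((N:ℝ) ^ (κ:ℝ)) : ℝ) :=
    fun κ ε h h' h'' => hx2 κ ε h h' h'' hxI
  generalize (fun n => zn (1 / 2) (y0 + x * q n)) = z at hz hU hL ⊢
  exact frz_of hz hθ hU hL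

lemma ae_scale {p : ℝ → Prop} {c : ℝ} (hc : c ≠ 0) (h : ∀ᵐ x : ℝ, p x) : ∀ᵐ x : ℝ, p (x * c) := by
  rw [ae_iff] at h ⊢
  have e1 : {x : ℝ | ¬p (x * c)} = (fun x => x * c) ⁻¹' {x | ¬p x} := rfl
  rw [e1, Real.volume_preimage_mul_right hc, h, mul_zero]

lemma lim_scale {q : ℕ → ℝ} {c θ : ℝ} (hc : 0 < c) (hqT : Tendsto q atTop atTop)
    (hlim : Tendsto (fun n : ℕ => Real.log (Real.log (q n)) / Real.log n) atTop (𝓝 θ)) :
    Tendsto (fun n : ℕ => Real.log (Real.log (c * q n)) / Real.log n) atTop (𝓝 θ) := by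
  have hl : Tendsto (fun n => Real.log (q n)) atTop atTop := Real.tendsto_log_atTop.comp hqT
  have hn : Tendsto (fun n : ℕ => Real.log (n:ℝ)) atTop atTop := Real.tendsto_log_atTop.comp tendsto_natCast_atTop_atTop
  have h1 : Tendsto (fun n => 1 + Real.log c / Real.log (q n)) atTop (𝓝 (1 + 0)) :=
    tendsto_const_nhds.add (tendsto_const_nhds.div_atTop hl)
  rw [add_zero] at h1
  have h2 : Tendsto (fun n => Real.log (1 + Real.log c / Real.log (q n))) atTop (𝓝 (Real.log 1)) :=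
    (Real.continuousAt_log one_ne_zero).tendsto.comp h1
  have h3 : Tendsto (fun n : ℕ => Real.log (1 + Real.log c / Real.log (q n)) / Real.log n) atTop (𝓝 0) :=
    h2.div_atTop hn
  have h4 := hlim.add h3
  rw [add_zero] at h4
  refine h4.congr' ?_
  filter_upwards [hl.eventually_ge_atTop 1, h1.eventually_const_lt (show (1 / 2 : ℝ) < 1 by norm_num),
    hqT.eventually_gt_atTop 0] with n g1 g2 g3
  rw [← add_div]
  congr 1
  rw [← Real.log_mul (by linarith) (by linarith), Real.log_mul hc.ne' g3.ne']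
  congr 1
  have : Real.log (q n) ≠ 0 := by linarith
  field_simp
  ring

lemma mem_I12_scale (k : ℤ) {x : ℝ} (hk : (0:ℝ) < 2 ^ k) (hk1 : (2:ℝ) ^ k ≤ x) (hk2 : x < 2 ^ (k+1)) : x * ((2:ℝ) ^ k)⁻¹ ∈ I12 := by
    constructor
    · rw [← div_eq_mul_inv, le_div_iff₀ hk, one_mul]; exact hk1
    · rw [← div_eq_mul_inv, div_le_iff₀ hk]
      rw [zpow_add_one₀ (by norm_num)] at hk2
      linarith

theorem frz_pos (y0 : ℝ) {q : ℕ → ℝ} {lam θ : ℝ} (hlam : 1 < lam) (hq0 : ∀ n, 0 < q n)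
    (hq : ∀ n, lam * q n ≤ q (n + 1)) (hθ : 1 ≤ θ)
    (hlim : Tendsto (fun n : ℕ => Real.log (Real.log (q n)) / Real.log n) atTop (𝓝 θ)) :
    ∀ᵐ x : ℝ, 0 < x → Frz θ (fun n => zn (1 / 2) (y0 + x * q n)) := by
  have hqT := lac_tendsto hlam hq0 hq
  have h1 : ∀ᵐ x : ℝ, ∀ k : ℤ, x * ((2:ℝ) ^ k)⁻¹ ∈ I12 →
      Frz θ (fun n => zn (1 / 2) (y0 + x * ((2:ℝ) ^ k)⁻¹ * ((2:ℝ) ^ k * q n))) := by
    rw [ae_all_iff]
    intro k
    have hk : (0:ℝ) < 2 ^ k := by positivity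
    have h5 := frz_I12 y0 hlam (q := fun n => (2:ℝ) ^ k * q n) (fun n => mul_pos hk (hq0 n)) (fun n => by
        have := mul_le_mul_of_nonneg_left (hq n) hk.le
        linarith [this, show lam * ((2:ℝ) ^ k * q n) = 2 ^ k * (lam * q n) by ring]) hθ (lim_scale hk hqT hlim)
    exact ae_scale (p := fun x => x ∈ I12 → Frz θ (fun n => zn (1 / 2) (y0 + x * ((2:ℝ) ^ k * q n))))
      (inv_ne_zero hk.ne') h5
  filter_upwards [h1] with x hx hx0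
  obtain ⟨k, hk1, hk2⟩ := exists_mem_Ico_zpow hx0 (show (1:ℝ) < 2 by norm_num)
  have hk : (0:ℝ) < 2 ^ k := by positivity
  have h2 := hx k (mem_I12_scale k hk hk1 hk2)
  have e1 : (fun n => zn (1 / 2) (y0 + x * ((2:ℝ) ^ k)⁻¹ * ((2:ℝ) ^ k * q n))) = fun n => zn (1 / 2) (y0 + x * q n) := by
    funext n
    have : x * ((2:ℝ) ^ k)⁻¹ * ((2:ℝ) ^ k * q n) = x * q n := by
      field_simp
    rw [this]
  rw [e1] at h2
  exact h2

/-- **the theorem for almost every real number** -/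
theorem frz_all (y0 : ℝ) {q : ℕ → ℝ} {lam θ : ℝ} (hlam : 1 < lam) (hq0 : ∀ n, 0 < q n)
    (hq : ∀ n, lam * q n ≤ q (n + 1)) (hθ : 1 ≤ θ)
    (hlim : Tendsto (fun n : ℕ => Real.log (Real.log (q n)) / Real.log n) atTop (𝓝 θ)) :
    ∀ᵐ x : ℝ, Frz θ (fun n => zn (1 / 2) (y0 + x * q n)) := by
  have h1 := frz_pos y0 hlam hq0 hq hθ hlim
  have h2 := ae_scale (c := -1) (by norm_num) (frz_pos (-y0) hlam hq0 hq hθ hlim)
  have h3 : ∀ᵐ x : ℝ, x ≠ 0 := by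
    rw [ae_iff]; simp
  filter_upwards [h1, h2, h3] with x hx1 hx2 hx3
  rcases lt_or_gt_of_ne hx3 with hx | hx
  · have h4 := hx2 (by linarith)
    have e1 : ∀ n, zn (1 / 2) (-y0 + x * -1 * q n) = zn (1 / 2) (y0 + x * q n) := fun n => by
      rw [show -y0 + x * -1 * q n = -(y0 + x * q n) by ring, zn_neg]
    simpa only [e1] using h4
  · exact hx1 hx

end

end Pool.Agent.K6.H33.FZ
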