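import Pool.Agent.K6.H33.FZ.Win0
import Pool.Agent.W184.Half
import Pool.Agent.W184.Avg

set_option autoImplicit false

/-! From a line near the critical line to the critical line, in windows. -/

namespace Pool.Agent.K6.H33.FZ

open MeasureTheory Set Filter
open scoped ENNReal
open Pool.Agent.W184 (zn zn_nonneg zn_cont zn_le KP KP_cont KP_nonneg KP_le KP_int half_pt tail_int one_add_abs_le)

noncomputable section

/-- the kernel -/
def KK (Δ p : ℝ) (M : ℕ) (w : ℝ) : ℝ := KP Δ w * (1 + w ^ 2) ^ (-((M:ℝ) * p))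

lemma KK_cont {Δ p : ℝ} (M : ℕ) (h : 0 < Δ) : Continuous (KK Δ p M) := by
  unfold KK
  refine (KP_cont h).mul ?_
  refine Continuous.rpow_const (by fun_prop) fun w => Or.inl ?_
  positivity

lemma KK_nonneg {Δ p : ℝ} (M : ℕ) (h : 0 < Δ) (w : ℝ) : 0 ≤ KK Δ p M w :=
  mul_nonneg (KP_nonneg h w) (by positivity)

lemma KK_le {Δ p : ℝ} {M : ℕ} (h : 0 < Δ) (hM : 17 ≤ (M:ℝ) * p) (w : ℝ) :
    KK Δ p M w ≤ (1 / Δ) * (1 + w ^ 2) ^ (-(17:ℝ)) := by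
  unfold KK
  refine mul_le_mul (KP_le h w) ?_ (by positivity) (by positivity)
  exact Real.rpow_le_rpow_of_exponent_le (by nlinarith [sq_nonneg w]) (by linarith)

lemma KK_mass {Δ p : ℝ} {M : ℕ} (h : 0 < Δ) (hM : 0 ≤ (M:ℝ) * p) : ∫⁻ w, ENNReal.ofReal (KK Δ p M w) ≤ 1 := by
  obtain ⟨j1, j2⟩ := KP_int h
  calc ∫⁻ w, ENNReal.ofReal (KK Δ p M w) ≤ ∫⁻ w, ENNReal.ofReal (KP Δ w) := by
        refine lintegral_mono fun w => ENNReal.ofReal_le_ofReal ?_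
        unfold KK
        refine mul_le_of_le_one_right (KP_nonneg h w) ?_
        exact Real.rpow_le_one_of_one_le_of_nonpos (by nlinarith [sq_nonneg w]) (by linarith)
    _ = ENNReal.ofReal (∫ w, KP Δ w) :=
        (ofReal_integral_eq_lintegral_ofReal j1 (Filter.Eventually.of_forall (KP_nonneg h))).symm
    _ = 1 := by rw [j2, ENNReal.ofReal_one]

lemma KK_tail {Δ p U : ℝ} {M : ℕ} (h : 0 < Δ) (hM : 17 ≤ (M:ℝ) * p) (hU : 1 ≤ U) :
    ∫⁻ w in {w : ℝ | U < |w|}, ENNReal.ofReal (KK Δ p M w * (1 + |w|) ^ 2) ≤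
      ENNReal.ofReal (4 * Real.pi * (1 / Δ) * U ^ (-(29:ℝ))) := by
  have h1 : ∀ w, 0 ≤ KK Δ p M w * (1 + |w|) := fun w => mul_nonneg (KK_nonneg M h w) (by positivity)
  have h2 : ∀ w, KK Δ p M w * (1 + |w|) ≤ (2 * (1 / Δ)) * (1 + w ^ 2) ^ (-(16:ℝ)) := by
    intro w
    have h0 : 0 < 1 + w ^ 2 := by positivity
    calc KK Δ p M w * (1 + |w|) ≤ ((1 / Δ) * (1 + w ^ 2) ^ (-(17:ℝ))) * (2 * (1 + w ^ 2)) :=
          mul_le_mul (KK_le h hM w) (one_add_abs_le w) (by positivity) (by positivity)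
      _ = (2 * (1 / Δ)) * ((1 + w ^ 2) ^ (-(17:ℝ)) * (1 + w ^ 2) ^ (1:ℝ)) := by rw [Real.rpow_one]; ring
      _ = _ := by rw [← Real.rpow_add h0]; norm_num
  obtain ⟨-, i2, i3⟩ := tail_int (K := fun w => KK Δ p M w * (1 + |w|)) (A := 2 * (1 / Δ)) (U := U) (by positivity)
    hU ((KK_cont M h).mul (by fun_prop)) h1 h2
  have hms : MeasurableSet {w : ℝ | U < |w|} := measurableSet_lt measurable_const measurable_abs
  have e1 : ∀ w, KK Δ p M w * (1 + |w|) ^ 2 = KK Δ p M w * (1 + |w|) * (1 + |w|) := fun w => by ring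
  simp_rw [e1]
  rw [← ofReal_integral_eq_lintegral_ofReal i2.integrableOn
    (Filter.Eventually.of_forall fun w => mul_nonneg (h1 w) (by positivity))]
  refine ENNReal.ofReal_le_ofReal (i3.trans (le_of_eq ?_))
  ring

lemma zeta_bd2 {z : ℂ} (hz : 2 ≤ z.re) : ‖riemannZeta z‖ ≤ ∑' n : ℕ, 1 / ((n:ℝ) + 1) ^ 2 := by
  rw [zeta_eq_tsum_one_div_nat_add_one_cpow (by linarith)]
  have hs : Summable (fun n : ℕ => 1 / ((n:ℝ) + 1) ^ 2) := by
    have h1 := (Real.summable_one_div_nat_pow (p := 2)).mpr (by norm_num)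
    have h2 := (summable_nat_add_iff 1).mpr h1
    refine h2.congr fun n => ?_
    push_cast
    rfl
  refine tsum_of_norm_bounded hs.hasSum fun n => ?_
  have hn : (0:ℝ) < (n:ℝ) + 1 := by positivity
  have e : ‖(((n:ℂ) + 1) ^ z)‖ = ((n:ℝ) + 1) ^ z.re := by
    have : ((n:ℂ) + 1) = (((n:ℝ) + 1 : ℝ) : ℂ) := by push_cast; rfl
    rw [this, Complex.norm_cpow_eq_rpow_re_of_pos hn]
  rw [norm_div, norm_one, e, ← Real.rpow_two]
  exact one_div_le_one_div_of_le (by positivity) (Real.rpow_le_rpow_of_exponent_le (by linarith [(Nat.cast_nonneg n : (0:ℝ) ≤ n)]) hz)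

/-- the pointwise inequality -/
lemma half_simple {p Δ : ℝ} {M : ℕ} (hp : 0 < p) (hM : 1 ≤ M) (h0 : 0 < Δ) (h1 : Δ ≤ 1 / 8) (t : ℝ) :
    ENNReal.ofReal (((1 - 8 * Δ) / (1 + Δ) ^ (2 * M)) ^ p * zn (1 / 2 + Δ) t ^ p) ≤
      ∫⁻ w, ENNReal.ofReal (KK Δ p M w) * ENNReal.ofReal (zn (1 / 2) (t + w) ^ p) := by
  have hz2 : ∀ z : ℂ, 2 ≤ z.re → ‖riemannZeta z - (0:ℂ)‖ * (1:ℝ) ^ z.re ≤ ∑' n : ℕ, 1 / ((n:ℝ) + 1) ^ 2 := by
    intro z hz
    rw [sub_zero, Real.one_rpow, mul_one]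
    exact zeta_bd2 hz
  have h := half_pt (Q := fun _ => 0) (N := 1) (C1 := 0) (C2 := ∑' n : ℕ, 1 / ((n:ℝ) + 1) ^ 2) (t := t) hp le_rfl hM (by fun_prop)
    (fun z _ _ => by simp) hz2 h0 h1
  simp only [sub_zero, Real.one_rpow, mul_one] at h
  have e1 : ‖riemannZeta (((1 / 2 + Δ : ℝ) : ℂ) + t * Complex.I)‖ = zn (1 / 2 + Δ) t := rfl
  rw [e1] at h
  have e2 : ∀ w : ℝ, ‖riemannZeta (((1 / 2 : ℝ) : ℂ) + (t + w : ℝ) * Complex.I)‖ = zn (1 / 2) (t + w) := fun _ => rfl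
  simp_rw [e2] at h
  refine (ENNReal.ofReal_le_ofReal h).trans ?_
  have h3 : ∀ w, 0 ≤ KP Δ w * (1 + w ^ 2) ^ (-((M:ℝ) * p)) * zn (1 / 2) (t + w) ^ p := fun w =>
    mul_nonneg (KK_nonneg M h0 w) (Real.rpow_nonneg (zn_nonneg _ _) _)
  have hc : Continuous (fun w => KP Δ w * (1 + w ^ 2) ^ (-((M:ℝ) * p)) * zn (1 / 2) (t + w) ^ p) := by
    refine (KK_cont (p := p) M h0).mul (Continuous.rpow_const ?_ fun _ => Or.inr hp.le)
    exact (zn_cont (by norm_num)).comp (by fun_prop)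
  rw [integral_eq_lintegral_of_nonneg_ae (Filter.Eventually.of_forall h3) hc.aestronglyMeasurable]
  refine ENNReal.ofReal_toReal_le.trans (le_of_eq (lintegral_congr fun w => ?_))
  exact ENNReal.ofReal_mul (KK_nonneg M h0 w)

end

end Pool.Agent.K6.H33.FZ
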