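import Pool.Agent.K6.H33.FZ.Line

set_option autoImplicit false

/-! From a line near the critical line to the critical line, in windows: most windows. -/

namespace Pool.Agent.K6.H33.FZ

open MeasureTheory Set Filter
open scoped ENNReal
open Pool.Agent.W184 (zn zn_nonneg zn_cont zn_le KP KP_cont KP_nonneg KP_le KP_int half_pt tail_int one_add_abs_le)

noncomputable section

lemma shift_int (G : ℝ → ℝ≥0∞) (a b w : ℝ) :
    ∫⁻ t in Icc a b, G (t + w) = ∫⁻ t in Icc (a + w) (b + w), G t := by
  rw [← lintegral_indicator measurableSet_Icc, ← lintegral_indicator measurableSet_Icc]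
  rw [← lintegral_add_right_eq_self (μ := volume) (fun t => (Icc (a + w) (b + w)).indicator G t) w]
  refine lintegral_congr fun t => ?_
  by_cases h : t ∈ Icc a b
  · rw [indicator_of_mem h, indicator_of_mem (show t + w ∈ Icc (a + w) (b + w) from
      ⟨by linarith [h.1], by linarith [h.2]⟩)]
  · rw [indicator_of_notMem h, indicator_of_notMem]
    intro h2
    exact h ⟨by linarith [h2.1], by linarith [h2.2]⟩

theorem transfer {k G f : ℝ → ℝ≥0∞} (hk : Measurable k) (hG : Measurable G) (hk1 : ∫⁻ w, k w ≤ 1)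
    (hpt : ∀ t, f t ≤ ∫⁻ w, k w * G (t + w)) {a b H : ℝ} :
    volume {x | x ∈ Icc (a + H) (b - H) ∧ (∫⁻ t in Icc (x - 2 * H) (x + 2 * H), G t) + 1 <
      ∫⁻ t in Icc (x - H) (x + H), f t} ≤
      ENNReal.ofReal (2 * H) * ∫⁻ t in Icc a b, ∫⁻ w in {w : ℝ | H < |w|}, k w * G (t + w) := by
  have hms : MeasurableSet {w : ℝ | H < |w|} := measurableSet_lt measurable_const measurable_abs
  set Ψ : ℝ → ℝ≥0∞ := fun t => ∫⁻ w in {w : ℝ | H < |w|}, k w * G (t + w) with hΨ
  have hkG : Measurable (fun q : ℝ × ℝ => k q.2 * G (q.1 + q.2)) :=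
    (hk.comp measurable_snd).mul (hG.comp (measurable_fst.add measurable_snd))
  have hΨm : Measurable Ψ := by
    rw [hΨ]
    exact Measurable.lintegral_prod_right' (ν := volume.restrict {w : ℝ | H < |w|}) hkG
  have key : {x | x ∈ Icc (a + H) (b - H) ∧ (∫⁻ t in Icc (x - 2 * H) (x + 2 * H), G t) + 1 <
      ∫⁻ t in Icc (x - H) (x + H), f t} ⊆
      {x | x ∈ Icc (a + H) (b - H) ∧ 1 ≤ ∫⁻ t in Icc (x - H) (x + H), Ψ t} := by
    rintro x ⟨hx, h1⟩
    refine ⟨hx, ?_⟩
    by_contra h2
    push Not at h2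
    have h3 : ∫⁻ t in Icc (x - H) (x + H), f t ≤
        (∫⁻ t in Icc (x - 2 * H) (x + 2 * H), G t) + ∫⁻ t in Icc (x - H) (x + H), Ψ t := by
      calc ∫⁻ t in Icc (x - H) (x + H), f t ≤ ∫⁻ t in Icc (x - H) (x + H), ∫⁻ w, k w * G (t + w) :=
            lintegral_mono fun t => hpt t
        _ = ∫⁻ t in Icc (x - H) (x + H), (Ψ t + ∫⁻ w in {w : ℝ | H < |w|}ᶜ, k w * G (t + w)) := by
            refine lintegral_congr fun t => ?_
            exact (lintegral_add_compl _ hms).symm
        _ = (∫⁻ t in Icc (x - H) (x + H), Ψ t) +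
            ∫⁻ t in Icc (x - H) (x + H), ∫⁻ w in {w : ℝ | H < |w|}ᶜ, k w * G (t + w) :=
            lintegral_add_left hΨm _
        _ ≤ _ := by
            rw [add_comm]
            refine add_le_add ?_ le_rfl
            rw [lintegral_lintegral_swap hkG.aemeasurable]
            calc ∫⁻ w in {w : ℝ | H < |w|}ᶜ, ∫⁻ t in Icc (x - H) (x + H), k w * G (t + w) ≤
                  ∫⁻ w in {w : ℝ | H < |w|}ᶜ, k w * ∫⁻ t in Icc (x - 2 * H) (x + 2 * H), G t := by
                  refine setLIntegral_mono' hms.compl fun w hw => ?_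
                  have hw' : |w| ≤ H := by
                    simpa using hw
                  have hw2 := abs_le.mp hw'
                  have hm : Measurable (fun t => G (t + w)) := hG.comp (measurable_id.add_const w)
                  rw [lintegral_const_mul _ hm, shift_int]
                  exact mul_le_mul' le_rfl (lintegral_mono_set
                    (Icc_subset_Icc (by linarith [hw2.1]) (by linarith [hw2.2])))
              _ ≤ ∫⁻ w, k w * ∫⁻ t in Icc (x - 2 * H) (x + 2 * H), G t := setLIntegral_le_lintegral _ _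
              _ = (∫⁻ w, k w) * ∫⁻ t in Icc (x - 2 * H) (x + 2 * H), G t := lintegral_mul_const _ hk
              _ ≤ 1 * ∫⁻ t in Icc (x - 2 * H) (x + 2 * H), G t := by gcongr
              _ = _ := one_mul _
    have h4 := h1.trans_le h3
    exact absurd (h4.trans_le (add_le_add le_rfl h2.le)) (lt_irrefl _)
  refine (measure_mono key).trans ?_
  have hm2 := win_meas hΨm H
  have h1 : volume {x | x ∈ Icc (a + H) (b - H) ∧ 1 ≤ ∫⁻ t in Icc (x - H) (x + H), Ψ t} ≤
      (volume.restrict (Icc (a + H) (b - H))) {x | 1 ≤ ∫⁻ t in Icc (x - H) (x + H), Ψ t} := by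
    rw [Measure.restrict_apply (measurableSet_le measurable_const hm2)]
    exact measure_mono fun x hx => ⟨hx.2, hx.1⟩
  refine h1.trans ?_
  have h2 := meas_ge_le_lintegral_div (μ := volume.restrict (Icc (a + H) (b - H))) hm2.aemeasurable
    (one_ne_zero) ENNReal.one_ne_top
  rw [div_one] at h2
  refine h2.trans ((win_tonelli hΨm _ _ H).trans (le_of_eq ?_))
  rw [show a + H - H = a by ring, show b - H + H = b by ring]

/-- the tail -/
theorem tail_bound {Δ p T H M0 : ℝ} {M : ℕ} (hΔ : 0 < Δ) (hM : 17 ≤ (M:ℝ) * p) (hp : 0 ≤ p) (hp2 : p ≤ 2)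
    (hH : 1 ≤ H) (hT : 2 ≤ T) (hM0 : ∫⁻ t in Icc (T / 2) (3 * T), ENNReal.ofReal (zn (1 / 2) t ^ p) ≤ ENNReal.ofReal M0) :
    ∫⁻ t in Icc T (2 * T), ∫⁻ w in {w : ℝ | H < |w|}, ENNReal.ofReal (KK Δ p M w) * ENNReal.ofReal (zn (1 / 2) (t + w) ^ p) ≤
      ENNReal.ofReal (M0 * (4 * Real.pi * (1 / Δ) * H ^ (-(29:ℝ)))) +
      ENNReal.ofReal (T * (144 * (1 + 2 * T) ^ 2) * (4 * Real.pi * (1 / Δ) * (T / 2) ^ (-(29:ℝ)))) := by
  set k : ℝ → ℝ≥0∞ := fun w => ENNReal.ofReal (KK Δ p M w) with hk
  set G : ℝ → ℝ≥0∞ := fun t => ENNReal.ofReal (zn (1 / 2) t ^ p) with hG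
  have hkm : Measurable k := ENNReal.measurable_ofReal.comp (KK_cont M hΔ).measurable
  have hGm : Measurable G := by
    refine ENNReal.measurable_ofReal.comp (Measurable.pow_const ?_ p)
    exact (zn_cont (by norm_num)).measurable
  have hkG : Measurable (fun q : ℝ × ℝ => k q.2 * G (q.1 + q.2)) :=
    (hkm.comp measurable_snd).mul (hGm.comp (measurable_fst.add measurable_snd))
  have hms : ∀ U : ℝ, MeasurableSet {w : ℝ | U < |w|} := fun U => measurableSet_lt measurable_const measurable_abs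
  rw [lintegral_lintegral_swap hkG.aemeasurable]
  set c0 : ℝ := T * (144 * (1 + 2 * T) ^ 2) with hc0
  have hc00 : 0 ≤ c0 := by rw [hc0]; positivity
  set q : ℝ → ℝ≥0∞ := fun w => ENNReal.ofReal (KK Δ p M w * (1 + |w|) ^ 2) with hq
  have hqm : Measurable q := ENNReal.measurable_ofReal.comp
    ((KK_cont M hΔ).mul ((continuous_const.add continuous_abs).pow 2)).measurable
  -- growth
  have hgr : ∀ y : ℝ, zn (1 / 2) y ^ p ≤ 144 * (1 + |y|) ^ 2 := by
    intro y
    have h1 := zn_le (σ := 1 / 2) (t := y) (by norm_num) (by norm_num)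
    have h2 : (1:ℝ) ≤ 1 + |y| := by linarith [abs_nonneg y]
    calc zn (1 / 2) y ^ p ≤ (12 * (1 + |y|) ^ ((5:ℝ)/8)) ^ p := Real.rpow_le_rpow (zn_nonneg _ _) h1 hp
      _ = (12:ℝ) ^ p * ((1 + |y|) ^ ((5:ℝ)/8 * p)) := by
          rw [Real.mul_rpow (by norm_num) (by positivity), ← Real.rpow_mul (by linarith)]
      _ ≤ (12:ℝ) ^ (2:ℝ) * (1 + |y|) ^ (2:ℝ) := by
          refine mul_le_mul (Real.rpow_le_rpow_of_exponent_le (by norm_num) hp2)
            (Real.rpow_le_rpow_of_exponent_le h2 (by linarith)) (by positivity) (by positivity)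
      _ = 144 * (1 + |y|) ^ 2 := by
          rw [Real.rpow_two, Real.rpow_two]; norm_num
  have hin : ∀ w, ∫⁻ t in Icc T (2 * T), k w * G (t + w) ≤
      ENNReal.ofReal M0 * k w + ({w : ℝ | T / 2 < |w|}).indicator (fun w => ENNReal.ofReal c0 * q w) w := by
    intro w
    by_cases hw : T / 2 < |w|
    · rw [indicator_of_mem (show w ∈ {w : ℝ | T / 2 < |w|} from hw)]
      refine le_add_of_nonneg_of_le (zero_le) ?_
      calc ∫⁻ t in Icc T (2 * T), k w * G (t + w) ≤
            ∫⁻ _t in Icc T (2 * T), k w * ENNReal.ofReal (144 * (1 + 2 * T) ^ 2 * (1 + |w|) ^ 2) := by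
            refine setLIntegral_mono' measurableSet_Icc fun t ht => ?_
            gcongr
            refine ENNReal.ofReal_le_ofReal ((hgr _).trans ?_)
            rw [mul_assoc, ← mul_pow]
            have h1 : 1 + |t + w| ≤ (1 + 2 * T) * (1 + |w|) := by
              have h2 := abs_add_le t w
              rw [abs_of_pos (by linarith [ht.1] : 0 < t)] at h2
              nlinarith [ht.2, abs_nonneg w]
            have h3 : 0 ≤ 1 + |t + w| := by positivity
            gcongr
        _ = ENNReal.ofReal c0 * q w := by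
            rw [setLIntegral_const, Real.volume_Icc, show 2 * T - T = T by ring]
            simp only [hk, hq]
            rw [← ENNReal.ofReal_mul (KK_nonneg M hΔ w), ← ENNReal.ofReal_mul' (by linarith),
              ← ENNReal.ofReal_mul hc00]
            congr 1
            rw [hc0]; ring
    · rw [indicator_of_notMem (show w ∉ {w : ℝ | T / 2 < |w|} from hw), add_zero]
      push Not at hw
      have hw2 := abs_le.mp hw
      have hm : Measurable (fun t => G (t + w)) := hGm.comp (measurable_id.add_const w)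
      rw [lintegral_const_mul _ hm, shift_int, mul_comm]
      gcongr
      refine le_trans ?_ hM0
      exact lintegral_mono_set (Icc_subset_Icc (by linarith [hw2.1, hw2.2]) (by linarith [hw2.1, hw2.2]))
  calc ∫⁻ w in {w : ℝ | H < |w|}, ∫⁻ t in Icc T (2 * T), k w * G (t + w) ≤
        ∫⁻ w in {w : ℝ | H < |w|}, (ENNReal.ofReal M0 * k w +
          ({w : ℝ | T / 2 < |w|}).indicator (fun w => ENNReal.ofReal c0 * q w) w) := lintegral_mono hin
    _ = (∫⁻ w in {w : ℝ | H < |w|}, ENNReal.ofReal M0 * k w) +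
        ∫⁻ w in {w : ℝ | H < |w|}, ({w : ℝ | T / 2 < |w|}).indicator (fun w => ENNReal.ofReal c0 * q w) w :=
        lintegral_add_left (hkm.const_mul _) _
    _ ≤ _ := by
        refine add_le_add ?_ ?_
        · rw [lintegral_const_mul _ hkm]
          have h1 : ∫⁻ w in {w : ℝ | H < |w|}, k w ≤ ENNReal.ofReal (4 * Real.pi * (1 / Δ) * H ^ (-(29:ℝ))) := by
            refine le_trans (lintegral_mono fun w => ?_) (KK_tail hΔ hM hH)
            refine ENNReal.ofReal_le_ofReal (le_mul_of_one_le_right (KK_nonneg M hΔ w) ?_)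
            have := abs_nonneg w
            nlinarith
          calc ENNReal.ofReal M0 * ∫⁻ w in {w : ℝ | H < |w|}, k w ≤
                ENNReal.ofReal M0 * ENNReal.ofReal (4 * Real.pi * (1 / Δ) * H ^ (-(29:ℝ))) := by gcongr
            _ = _ := by rw [← ENNReal.ofReal_mul' (by positivity)]
        · calc ∫⁻ w in {w : ℝ | H < |w|}, ({w : ℝ | T / 2 < |w|}).indicator (fun w => ENNReal.ofReal c0 * q w) w ≤
                ∫⁻ w, ({w : ℝ | T / 2 < |w|}).indicator (fun w => ENNReal.ofReal c0 * q w) w :=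
                setLIntegral_le_lintegral _ _
            _ = ENNReal.ofReal c0 * ∫⁻ w in {w : ℝ | T / 2 < |w|}, q w := by
                rw [lintegral_indicator (hms _), lintegral_const_mul _ hqm]
            _ ≤ ENNReal.ofReal c0 * ENNReal.ofReal (4 * Real.pi * (1 / Δ) * (T / 2) ^ (-(29:ℝ))) := by
                gcongr
                exact KK_tail hΔ hM (by linarith)
            _ = _ := by rw [← ENNReal.ofReal_mul hc00]

end

end Pool.Agent.K6.H33.FZ
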