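import Pool.Agent.K6.H33.FZ.Block

set_option autoImplicit false

/-! The lower bound for the numbers of large samples, almost everywhere. -/

namespace Pool.Agent.K6.H33.FZ

open MeasureTheory Set Filter
open scoped ENNReal Topology
open Pool.Agent.W184 (zn zn_nonneg zn_cont zn_le)
open Pool.Agent.Y745.LD
open Pool.Agent.Y448.LD (tL tLL)

noncomputable section

lemma cnt_mono {y0 : ℝ} {q : ℕ → ℝ} {N N' : ℕ} (hN : N ≤ N') {v v' : ℝ} (hv : v' ≤ v) (x : ℝ) : cnt y0 q N v x ≤ cnt y0 q N' v' x := by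
  unfold cnt
  apply Finset.card_le_card
  intro n hn
  rw [Finset.mem_filter, Finset.mem_range] at hn ⊢
  exact ⟨hn.1.trans_le hN, hv.trans hn.2⟩

/-- Borel–Cantelli with a shift -/
lemma bc_shift {S : ℕ → Set ℝ} {f : ℕ → ℝ} (hf : Summable f) (j0 : ℕ)
    (h : ∀ j ≥ j0, volume (S j) ≤ ENNReal.ofReal (f j)) : ∀ᵐ x : ℝ, ∀ᶠ j : ℕ in atTop, x ∉ S j := by
  have h1 : ∑' j, volume (S (j + j0)) ≠ ⊤ := by
    have h2 : ∑' j, volume (S (j + j0)) ≤ ∑' j, ENNReal.ofReal (|f (j + j0)|) :=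
      ENNReal.tsum_le_tsum fun j => (h (j + j0) (Nat.le_add_left _ _)).trans (ENNReal.ofReal_le_ofReal (le_abs_self _))
    have h3 : Summable fun j => |f (j + j0)| := (hf.abs).comp_injective (add_left_injective j0)
    refine (h2.trans_lt ?_).ne
    rw [← ENNReal.ofReal_tsum_of_nonneg (fun j => abs_nonneg _) h3]
    exact ENNReal.ofReal_lt_top
  filter_upwards [ae_eventually_notMem h1] with x hx
  rw [eventually_atTop] at hx ⊢
  obtain ⟨J, hJ⟩ := hx
  refine ⟨J + j0, fun j hj => ?_⟩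
  have := hJ (j - j0) (by omega)
  rwa [Nat.sub_add_cancel (by omega)] at this

/-- passing from sparse `N` to all `N` -/
theorem bc_interp {y0 : ℝ} {q : ℕ → ℝ} {c d C c' d' η : ℝ} (h : ∀ᶠ N : ℕ in atTop,
      volume {x : ℝ | x ∈ I12 ∧ (cnt y0 q N ((N:ℝ) ^ c) x : ℝ) < (N:ℝ) ^ d} ≤ ENNReal.ofReal (C / Real.log N))
    (hC : 0 ≤ C) (hη : 0 < η) (hc' : 0 ≤ c') (hd' : 0 ≤ d') (h1 : c' * (1 + 2 * η) ≤ c) (h2 : d' * (1 + 2 * η) ≤ d) :
    ∀ᵐ x : ℝ, x ∈ I12 → ∀ᶠ N : ℕ in atTop, (N:ℝ) ^ d' ≤ (cnt y0 q N ((N:ℝ) ^ c') x : ℝ) := by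
  set M : ℕ → ℕ := fun j => ⌊Real.exp ((1 + η) ^ j)⌋₊ with hM
  have hη1 : 1 < 1 + η := by linarith
  have htp : Tendsto (fun j : ℕ => (1 + η) ^ j) atTop atTop := tendsto_pow_atTop_atTop_of_one_lt hη1
  have hMt : Tendsto M atTop atTop := tendsto_nat_floor_atTop.comp (Real.tendsto_exp_atTop.comp htp)
  have hlogM : ∀ᶠ j : ℕ in atTop, (1 + η) ^ j / 2 ≤ Real.log (M j) := by
    filter_upwards [htp.eventually_ge_atTop 4] with j hj
    set y := (1 + η) ^ j with hy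
    have h3 : Real.exp y < M j + 1 := Nat.lt_floor_add_one _
    have h4 : Real.exp (y / 2) + 1 ≤ Real.exp y := by
      have h5 : Real.exp y = Real.exp (y / 2) * Real.exp (y / 2) := by rw [← Real.exp_add]; congr 1; ring
      have h6 : 2 ≤ Real.exp (y / 2) := by
        have := Real.add_one_le_exp (y / 2)
        linarith
      rw [h5]; nlinarith
    have h7 : Real.exp (y / 2) ≤ M j := by linarith
    rw [Real.le_log_iff_exp_le (by have := Real.exp_pos (y / 2); linarith)]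
    exact h7
  obtain ⟨j0, hj0⟩ := ((hMt.eventually h).and (hlogM.and (htp.eventually_ge_atTop 1))).exists_forall_of_atTop
  have hbc := bc_shift (S := fun j => {x : ℝ | x ∈ I12 ∧ (cnt y0 q (M j) ((M j : ℝ) ^ c) x : ℝ) < (M j : ℝ) ^ d})
    (f := fun j => 2 * C * ((1 + η)⁻¹) ^ j)
    ((summable_geometric_of_lt_one (by positivity) (inv_lt_one_of_one_lt₀ hη1)).mul_left _) j0 (fun j hj => by
      obtain ⟨g1, g2, g3⟩ := hj0 j hj
      refine g1.trans (ENNReal.ofReal_le_ofReal ?_)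
      have h5 : 0 < (1 + η) ^ j := by positivity
      calc C / Real.log (M j) ≤ C / ((1 + η) ^ j / 2) := by gcongr
        _ = 2 * C * ((1 + η)⁻¹) ^ j := by rw [inv_pow]; field_simp)
  filter_upwards [hbc] with x hx hxI
  have hMη : ∀ᶠ j : ℕ in atTop, (2:ℝ) ^ (1 + η) ≤ (M j : ℝ) ^ η :=
    hMt.eventually (ev_nat_rpow hη _)
  obtain ⟨J, hJ⟩ := (hx.and (hMη.and (hMt.eventually_ge_atTop 1))).exists_forall_of_atTop
  filter_upwards [(Real.tendsto_log_atTop.comp tendsto_natCast_atTop_atTop).eventually_ge_atTop ((1 + η) ^ J),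
    (Real.tendsto_log_atTop.comp tendsto_natCast_atTop_atTop).eventually_ge_atTop 1, eventually_ge_atTop 1] with N hN1 hN2 hN3
  simp only [Function.comp_apply] at hN1 hN2
  obtain ⟨j, hj1, hj2⟩ := exists_nat_pow_near hN2 hη1
  have hJj : J ≤ j := by
    have h3 : (1 + η) ^ J < (1 + η) ^ (j + 1) := hN1.trans_lt hj2
    have := (pow_lt_pow_iff_right₀ hη1).mp h3
    omega
  obtain ⟨g1, g2, g3⟩ := hJ j hJj
  have hN0 : (0:ℝ) < N := by exact_mod_cast hN3
  have hMN : M j ≤ N := by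
    apply Nat.floor_le_of_le
    calc Real.exp ((1 + η) ^ j) ≤ Real.exp (Real.log N) := Real.exp_le_exp.mpr hj1
      _ = N := Real.exp_log hN0
  have hMj : (1:ℝ) ≤ M j := by exact_mod_cast g3
  have hMj0 : (0:ℝ) < M j := by linarith
  have hNM : (N:ℝ) ≤ (M j : ℝ) ^ (1 + 2 * η) := by
    have h3 : Real.exp ((1 + η) ^ j) ≤ 2 * M j := by
      have := Nat.lt_floor_add_one (Real.exp ((1 + η) ^ j))
      have h4 : Real.exp ((1 + η) ^ j) < M j + 1 := this
      linarith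
    have h5 : (N:ℝ) ≤ Real.exp ((1 + η) ^ j) ^ (1 + η) := by
      rw [← Real.exp_mul, ← pow_succ]
      calc (N:ℝ) = Real.exp (Real.log N) := (Real.exp_log hN0).symm
        _ ≤ _ := Real.exp_le_exp.mpr hj2.le
    calc (N:ℝ) ≤ Real.exp ((1 + η) ^ j) ^ (1 + η) := h5
      _ ≤ (2 * M j) ^ (1 + η) := Real.rpow_le_rpow (Real.exp_pos _).le h3 (by linarith)
      _ = 2 ^ (1 + η) * (M j : ℝ) ^ (1 + η) := Real.mul_rpow (by norm_num) hMj0.le
      _ ≤ (M j : ℝ) ^ η * (M j : ℝ) ^ (1 + η) := by gcongr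
      _ = _ := by rw [← Real.rpow_add hMj0]; congr 1; ring
  have hg : (M j : ℝ) ^ d ≤ (cnt y0 q (M j) ((M j : ℝ) ^ c) x : ℝ) := by
    by_contra hcon
    exact g1 ⟨hxI, not_le.mp hcon⟩
  have hNc : (N:ℝ) ^ c' ≤ (M j : ℝ) ^ c := by
    calc (N:ℝ) ^ c' ≤ ((M j : ℝ) ^ (1 + 2 * η)) ^ c' := Real.rpow_le_rpow hN0.le hNM hc'
      _ = (M j : ℝ) ^ (c' * (1 + 2 * η)) := by rw [← Real.rpow_mul hMj0.le]; congr 1; ring
      _ ≤ _ := Real.rpow_le_rpow_of_exponent_le hMj h1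
  have hNd : (N:ℝ) ^ d' ≤ (M j : ℝ) ^ d := by
    calc (N:ℝ) ^ d' ≤ ((M j : ℝ) ^ (1 + 2 * η)) ^ d' := Real.rpow_le_rpow hN0.le hNM hd'
      _ = (M j : ℝ) ^ (d' * (1 + 2 * η)) := by rw [← Real.rpow_mul hMj0.le]; congr 1; ring
      _ ≤ _ := Real.rpow_le_rpow_of_exponent_le hMj h2
  have h3 : (cnt y0 q (M j) ((M j : ℝ) ^ c) x : ℝ) ≤ (cnt y0 q N ((N:ℝ) ^ c') x : ℝ) := by
    exact_mod_cast cnt_mono hMN hNc x
  linarith

/-- the size of the logarithms -/
lemma log_bounds {q : ℕ → ℝ} {θ u : ℝ} (hqT : Tendsto q atTop atTop)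
    (hlim : Tendsto (fun n : ℕ => Real.log (Real.log (q n)) / Real.log n) atTop (𝓝 θ)) (hu : 0 < u) :
    (∀ᶠ n : ℕ in atTop, Real.log (q n) ≤ (n:ℝ) ^ (θ + u)) ∧ ∀ᶠ n : ℕ in atTop, (n:ℝ) ^ (θ - u) ≤ Real.log (q n) := by
  have h1 : ∀ᶠ n : ℕ in atTop, Real.log (Real.log (q n)) / Real.log n < θ + u := hlim.eventually_lt_const (by linarith)
  have h2 : ∀ᶠ n : ℕ in atTop, θ - u < Real.log (Real.log (q n)) / Real.log n := hlim.eventually_const_lt (by linarith)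
  have h3 : ∀ᶠ n : ℕ in atTop, 1 ≤ Real.log (q n) := (tL.comp hqT).eventually_ge_atTop 1
  constructor
  · filter_upwards [h1, h3, eventually_ge_atTop 3] with n g1 g2 g3
    have hn : (3:ℝ) ≤ n := by exact_mod_cast g3
    have hlog : 0 < Real.log n := Real.log_pos (by linarith)
    rw [div_lt_iff₀ hlog] at g1
    rw [← Real.exp_log (show 0 < Real.log (q n) by linarith), Real.rpow_def_of_pos (by linarith)]
    exact Real.exp_le_exp.mpr (by linarith)
  · filter_upwards [h2, h3, eventually_ge_atTop 3] with n g1 g2 g3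
    have hn : (3:ℝ) ≤ n := by exact_mod_cast g3
    have hlog : 0 < Real.log n := Real.log_pos (by linarith)
    rw [lt_div_iff₀ hlog] at g1
    rw [← Real.exp_log (show 0 < Real.log (q n) by linarith), Real.rpow_def_of_pos (by linarith)]
    exact Real.exp_le_exp.mpr (by linarith)

lemma lac_tendsto {q : ℕ → ℝ} {lam : ℝ} (hlam : 1 < lam) (hq0 : ∀ n, 0 < q n) (hq : ∀ n, lam * q n ≤ q (n + 1)) :
    Tendsto q atTop atTop := by
  have h1 : Tendsto (fun n : ℕ => lam ^ n * q 0) atTop atTop :=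
    (tendsto_pow_atTop_atTop_of_one_lt hlam).atTop_mul_const (hq0 0)
  refine tendsto_atTop_mono (fun n => ?_) h1
  have := lac_pow hlam hq 0 n
  rwa [zero_add] at this

/-- **the lower bound, almost everywhere in `[1, 2]`** -/
theorem low_ae (y0 : ℝ) {q : ℕ → ℝ} {lam θ : ℝ} (hlam : 1 < lam) (hq0 : ∀ n, 0 < q n) (hq : ∀ n, lam * q n ≤ q (n + 1))
    (hθ : 1 ≤ θ) (hlim : Tendsto (fun n : ℕ => Real.log (Real.log (q n)) / Real.log n) atTop (𝓝 θ))
    {κ ε : ℝ} (hκ : 0 < κ) (hκθ : κ ^ 2 < θ) (hε : 0 < ε) :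
    ∀ᵐ x : ℝ, x ∈ I12 → ∀ᶠ N : ℕ in atTop, (N:ℝ) ^ (1 - κ ^ 2 / θ - ε) ≤ (cnt y0 q N ((N:ℝ) ^ κ) x : ℝ) := by
  have hθ0 : 0 < θ := by linarith
  have hκθ' : κ ^ 2 / θ < 1 := (div_lt_one hθ0).mpr hκθ
  set ε' : ℝ := min ε ((1 - κ ^ 2 / θ) / 2) with hε'
  have hε'0 : 0 < ε' := lt_min hε (by linarith)
  have hε'1 : ε' ≤ ε := min_le_left _ _
  have hε'2 : ε' ≤ (1 - κ ^ 2 / θ) / 2 := min_le_right _ _
  -- choose `w`
  have hw : ∀ᶠ w : ℝ in 𝓝[>] 0, θ * (κ / θ + w) ^ 2 < κ ^ 2 / θ + ε' := by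
    have h1 : Tendsto (fun w : ℝ => θ * (κ / θ + w) ^ 2) (𝓝[>] 0) (𝓝 (θ * (κ / θ + 0) ^ 2)) := by
      have : Continuous (fun w : ℝ => θ * (κ / θ + w) ^ 2) := by fun_prop
      exact (this.tendsto 0).mono_left nhdsWithin_le_nhds
    apply h1.eventually_lt_const
    rw [add_zero]
    have : θ * (κ / θ) ^ 2 = κ ^ 2 / θ := by field_simp
    linarith
  obtain ⟨w, hw1, hw0⟩ := (hw.and self_mem_nhdsWithin).exists
  replace hw0 : 0 < w := hw0
  set K : ℝ := κ / θ + w with hK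
  have hK0 : 0 < K := by positivity
  have hθK : θ * K ^ 2 < 1 := by linarith
  have hK1 : K < 1 := by
    by_contra h
    rw [not_lt] at h
    nlinarith
  have hκK : κ < θ * K := by
    have : θ * K = κ + θ * w := by rw [hK]; field_simp
    rw [this]
    have := mul_pos hθ0 hw0
    linarith
  -- choose `u`
  have ev : ∀ {f g : ℝ → ℝ}, Continuous f → Continuous g → f 0 < g 0 → ∀ᶠ u : ℝ in 𝓝[>] 0, f u < g u := by
    intro f g hf hg h
    exact (hf.continuousAt.eventually_lt hg.continuousAt h).filter_mono nhdsWithin_le_nhds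
  have c1 := ev (f := fun u => κ * (1 + 2 * u)) (g := fun u => (θ - u) * (K - u) - u) (by fun_prop) (by fun_prop)
    (by simpa using hκK)
  have c2 := ev (f := fun u => (1 - κ ^ 2 / θ - ε') * (1 + 2 * u)) (g := fun u => 1 - (θ + u) * (K ^ 2 + 3 * u) - u)
    (by fun_prop) (by fun_prop) (by simp only [mul_zero, add_zero, sub_zero, mul_one]; linarith)
  have c3 := ev (f := fun u => (θ + u) * (K ^ 2 + 3 * u) + u) (g := fun _ => 1) (by fun_prop) (by fun_prop)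
    (by simpa using hθK)
  have c4 := ev (f := fun u => K + u) (g := fun _ => 1) (by fun_prop) (by fun_prop) (by simpa using hK1)
  have c5 := ev (f := fun u => u) (g := fun _ => min K θ) (by fun_prop) (by fun_prop) (by simpa using ⟨hK0, hθ0⟩)
  obtain ⟨u, ⟨d1, d2, d3, d4, d5⟩, hu0⟩ := ((c1.and (c2.and (c3.and (c4.and c5)))).and self_mem_nhdsWithin).exists
  replace hu0 : 0 < u := hu0
  have hqT := lac_tendsto hlam hq0 hq
  obtain ⟨l1, l2⟩ := log_bounds hqT hlim hu0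
  have d5' := lt_min_iff.mp d5
  obtain ⟨C, hC, hb⟩ := block_bad y0 hlam hq0 hq l1 l2 (by linarith) (by linarith [d5'.2]) hu0 d5'.1 d4.le hu0 (δ := u) d3
  have key := bc_interp (c' := κ) (d' := 1 - κ ^ 2 / θ - ε') hb hC hu0 hκ.le (by linarith) d1.le d2.le
  filter_upwards [key] with x hx hxI
  filter_upwards [hx hxI, eventually_ge_atTop 1] with N hN hN1
  have hN1' : (1:ℝ) ≤ N := by exact_mod_cast hN1
  exact (Real.rpow_le_rpow_of_exponent_le hN1' (by linarith)).trans hN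

end

end Pool.Agent.K6.H33.FZ
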