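import Pool.Agent.K6.H33.FZ.VWin
import Pool.Agent.Y448.LD.LowD

set_option autoImplicit false

/-! Masses of the weight, with a rate. -/

namespace Pool.Agent.K6.H33.FZ

open Pool.Agent.Y745.SW (P_MVB Py pA)
open Pool.Agent.Y745.LD
open Pool.Agent.Y448.LD (VM V_cont V_nonneg Pc_cont V_bd exp_LL tL tLL)
open MeasureTheory Set Filter

noncomputable section

/-- sets of small measure have small mass (as in the starting library, with a rate) -/
theorem mass_rate {κ c A C : ℝ} (hc1 : c < 1) (hC : 1 ≤ C)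
    (h : ∀ᶠ T : ℝ in atTop, VM κ c A C T) : ∃ K : ℝ, 0 ≤ K ∧
    ∀ᶠ T : ℝ in atTop, ∀ X : Set ℝ, X ⊆ Icc T (2 * T) → MeasurableSet X →
      volume.real X ≤ 3 * (T / Real.log T ^ (2 * κ ^ 2 + 2)) →
      ∫ t in X, V κ c A T t ≤ K / Real.log T * IV κ c A T := by
  refine ⟨C * (3 * Real.exp (2 * κ ^ 2 * C) + C), by positivity, ?_⟩
  filter_upwards [h, tL.eventually_ge_atTop 1, tLL.eventually_ge_atTop 0,
    Filter.eventually_ge_atTop 1] with T ⟨h1, h2, h3, _⟩ hL hLL hT X hX hXm hvol
  set s := sc c T with hs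
  set L := Real.log T with hLdef
  have hL0 : 0 < L := by linarith
  have hT0 : 0 < T := by linarith
  set θ := L * Real.exp (3 * κ ^ 2 * s) with hθ
  have hθ0 : 0 < θ := by positivity
  have hVc := V_cont κ c A T
  have i1 : IntegrableOn (fun t => V κ c A T t) X :=
    (hVc.continuousOn.integrableOn_compact isCompact_Icc).mono_set hX
  have hV2c : Continuous (fun t => V κ c A T t ^ 2) := hVc.pow 2
  have i2' : IntegrableOn (fun t => V κ c A T t ^ 2) (Icc T (2 * T)) :=
    hV2c.continuousOn.integrableOn_compact isCompact_Icc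
  have i2 : IntegrableOn (fun t => V κ c A T t ^ 2) X := i2'.mono_set hX
  have hXf : volume X ≠ ⊤ := ((measure_mono hX).trans_lt (by rw [Real.volume_Icc]; finiteness)).ne
  have i3 : IntegrableOn (fun _ : ℝ => θ) X := integrableOn_const hXf
  have s1 : ∫ t in X, V κ c A T t ≤ θ * volume.real X + (∫ t in T..(2 * T), V κ c A T t ^ 2) / θ := by
    calc ∫ t in X, V κ c A T t ≤ ∫ t in X, (θ + V κ c A T t ^ 2 / θ) := by
          refine setIntegral_mono_on i1 (i3.add (i2.div_const θ)) hXm ?_
          intro t _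
          have h4 : V κ c A T t * θ ≤ (θ + V κ c A T t ^ 2 / θ) * θ := by
            have e : (θ + V κ c A T t ^ 2 / θ) * θ = θ ^ 2 + V κ c A T t ^ 2 := by
              field_simp
            rw [e]
            nlinarith [sq_nonneg (V κ c A T t - θ), sq_nonneg (V κ c A T t + θ)]
          exact le_of_mul_le_mul_right h4 hθ0
      _ = θ * volume.real X + (∫ t in X, V κ c A T t ^ 2) / θ := by
          rw [integral_add i3 (i2.div_const θ), setIntegral_const,
            smul_eq_mul, mul_comm, integral_div]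
      _ ≤ _ := by
          gcongr
          rw [intervalIntegral.integral_of_le (by linarith), ← integral_Icc_eq_integral_Ioc]
          exact setIntegral_mono_set i2' (Filter.Eventually.of_forall fun t => sq_nonneg _)
            (Filter.Eventually.of_forall hX)
  have hs' : s ≤ LL T + C := by
    have h4 := (abs_le.1 h1).2
    have h5 : c * LL T ≤ 1 * LL T := by gcongr
    linarith
  have e1 : Real.exp (2 * κ ^ 2 * s) ≤ L ^ (2 * κ ^ 2) * Real.exp (2 * κ ^ 2 * C) := by
    rw [← exp_LL hL0, ← Real.exp_add]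
    apply Real.exp_le_exp.2
    have : 2 * κ ^ 2 * s ≤ 2 * κ ^ 2 * (LL T + C) := by gcongr
    linarith
  have e2 : Real.exp (3 * κ ^ 2 * s) = Real.exp (κ ^ 2 * s) * Real.exp (2 * κ ^ 2 * s) := by
    rw [← Real.exp_add]; congr 1; ring
  have e3 : Real.exp (4 * κ ^ 2 * s) = Real.exp (κ ^ 2 * s) * Real.exp (3 * κ ^ 2 * s) := by
    rw [← Real.exp_add]; congr 1; ring
  have e4 : L ^ (2 * κ ^ 2 + 2) = L ^ (2 * κ ^ 2) * L ^ 2 := by
    rw [Real.rpow_add hL0]
    congr 1
    exact Real.rpow_natCast L 2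
  have hLp : 0 < L ^ (2 * κ ^ 2) := by positivity
  set E := Real.exp (κ ^ 2 * s) with hE
  have hE0 : 0 < E := Real.exp_pos _
  have s2 : θ * volume.real X ≤ T * E / L * (3 * Real.exp (2 * κ ^ 2 * C)) := by
    calc θ * volume.real X ≤ θ * (3 * (T / L ^ (2 * κ ^ 2 + 2))) := by gcongr
      _ = T * E / L * (3 * (Real.exp (2 * κ ^ 2 * s) / L ^ (2 * κ ^ 2))) := by
          rw [hθ, e2, e4]
          field_simp
      _ ≤ T * E / L * (3 * Real.exp (2 * κ ^ 2 * C)) := by
          have : Real.exp (2 * κ ^ 2 * s) / L ^ (2 * κ ^ 2) ≤ Real.exp (2 * κ ^ 2 * C) := by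
            rw [div_le_iff₀ hLp]
            linarith
          gcongr
  have s3 : (∫ t in T..(2 * T), V κ c A T t ^ 2) / θ ≤ T * E / L * C := by
    rw [div_le_iff₀ hθ0]
    refine h3.trans (le_of_eq ?_)
    rw [hθ, e3]
    field_simp
  have s4 : T * E ≤ C * IV κ c A T := h2
  have hI : 0 ≤ IV κ c A T := by
    have : 0 < T * E := by positivity
    by_contra hcon
    push Not at hcon
    nlinarith
  calc ∫ t in X, V κ c A T t ≤ T * E / L * (3 * Real.exp (2 * κ ^ 2 * C)) + T * E / L * C := by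
        linarith
    _ = T * E * (3 * Real.exp (2 * κ ^ 2 * C) + C) / L := by ring
    _ ≤ (C * IV κ c A T) * (3 * Real.exp (2 * κ ^ 2 * C) + C) / L := by gcongr
    _ = C * (3 * Real.exp (2 * κ ^ 2 * C) + C) / L * IV κ c A T := by ring

/-- Chebyshev with a weight -/
lemma cheb {V q : ℝ → ℝ} {S : Set ℝ} (hS : MeasurableSet S) (hV0 : ∀ t, 0 ≤ V t) (hq : Measurable q)
    (hV : IntegrableOn V S) (hi : IntegrableOn (fun t => V t * q t ^ 2) S) {a M : ℝ} (ha : 0 < a)
    (hM : ∫ t in S, V t * q t ^ 2 ≤ M) : ∫ t in S ∩ {t | a < |q t|}, V t ≤ M / a ^ 2 := by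
  have hm : MeasurableSet {t | a < |q t|} := measurableSet_lt measurable_const (measurable_norm.comp hq)
  calc ∫ t in S ∩ {t | a < |q t|}, V t ≤ ∫ t in S ∩ {t | a < |q t|}, (V t * q t ^ 2) / a ^ 2 := by
        refine setIntegral_mono_on (hV.mono_set inter_subset_left)
          ((hi.mono_set inter_subset_left).div_const _) (hS.inter hm) fun t ht => ?_
        have h1 : a < |q t| := ht.2
        rw [le_div_iff₀ (by positivity)]
        refine mul_le_mul_of_nonneg_left ?_ (hV0 t)
        rw [← sq_abs (q t)]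
        exact pow_le_pow_left₀ ha.le h1.le 2
    _ ≤ ∫ t in S, (V t * q t ^ 2) / a ^ 2 := by
        refine setIntegral_mono_set (hi.div_const _) (Filter.Eventually.of_forall fun t => ?_)
          inter_subset_left.eventuallyLE
        have := hV0 t
        positivity
    _ = (∫ t in S, V t * q t ^ 2) / a ^ 2 := by rw [integral_div]
    _ ≤ M / a ^ 2 := by gcongr

end

end Pool.Agent.K6.H33.FZ
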