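import Pool.Agent.K6.H33.FZ.Line2
import Pool.Agent.Y568.UP.STRIP
import Pool.Agent.Y732.UP.SUBA
import Pool.Agent.Y496.UP.OUT

set_option autoImplicit false

/-! Large values on the critical line from moments, and the upper bounds for the moments. -/

namespace Pool.Agent.K6.H33.FZ

open MeasureTheory Set Filter
open scoped ENNReal
open Pool.Agent.W184 (zn zn_nonneg zn_cont zn_le)

noncomputable section

/-- moments of zeta on the critical line and around it, orders at most 4 (from the starting library) -/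
theorem a_STRIP : Pool.Agent.Y745.UP.P_STRIP :=
  Pool.Agent.Y568.UP.t_STRIP Pool.Agent.Y732.UP.t_SUBA Pool.Agent.Y496.UP.t_OUT

theorem mom_line {α : ℝ} (hα : 0 < α) (hα2 : α ≤ 2) : ∃ C : ℝ, 1 ≤ C ∧ ∀ᶠ T : ℝ in atTop,
    ∫ t in (T / 2)..(3 * T), zn (1 / 2) t ^ (2 * α) ≤ C * (T * Real.log T ^ (α ^ 2)) := by
  obtain ⟨C, hC, h⟩ := a_STRIP α 1 hα hα2 one_pos
  refine ⟨C, hC, ?_⟩
  filter_upwards [h, eventually_gt_atTop 1] with T h1 h2
  have := h1 0 (by rw [abs_zero]; have := Real.log_pos h2; positivity)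
  simpa [zn] using this

/-- the mass between two levels -/
theorem mid_mass {g : ℝ → ℝ} (hg : Continuous g) (hg0 : ∀ t, 0 ≤ g t) {κ s a b x H m U1 U2 : ℝ} (hs : 0 < s)
    (hsκ : s < κ) (ha : 0 < a) (hab : a ≤ b) (hm : m ≤ ∫ t in Icc (x - H) (x + H), g t ^ (2 * κ))
    (h1 : ∫ t in Icc (x - H) (x + H), g t ^ (2 * (κ + s)) ≤ U1)
    (h2 : ∫ t in Icc (x - H) (x + H), g t ^ (2 * (κ - s)) ≤ U2) :
    m ≤ a ^ (2 * s) * U2 + b ^ (-(2 * s)) * U1 + b ^ (2 * κ) * volume.real ({t | a ≤ g t} ∩ Icc (x - H) (x + H)) := by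
  set W := Icc (x - H) (x + H) with hW
  have hb : 0 < b := lt_of_lt_of_le ha hab
  have hκ : 0 < κ := hs.trans hsκ
  have hSm : MeasurableSet {t | a ≤ g t} := measurableSet_le measurable_const hg.measurable
  have hc : ∀ q : ℝ, 0 ≤ q → Continuous (fun t => g t ^ q) := fun q hq =>
    hg.rpow_const fun _ => Or.inr hq
  have hi : ∀ q : ℝ, 0 ≤ q → IntegrableOn (fun t => g t ^ q) W := fun q hq =>
    (hc q hq).continuousOn.integrableOn_compact isCompact_Icc
  have i1 := hi (2 * (κ - s)) (by linarith)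
  have i2 := hi (2 * (κ + s)) (by linarith)
  have i0 := hi (2 * κ) (by linarith)
  have hWf : volume W ≠ ⊤ := by rw [hW, Real.volume_Icc]; exact ENNReal.ofReal_ne_top
  have i3 : IntegrableOn ({t | a ≤ g t}.indicator (fun _ => b ^ (2 * κ))) W :=
    (integrableOn_const hWf).indicator hSm
  have hpt : ∀ t, g t ^ (2 * κ) ≤ a ^ (2 * s) * g t ^ (2 * (κ - s)) + b ^ (-(2 * s)) * g t ^ (2 * (κ + s)) +
      {t | a ≤ g t}.indicator (fun _ => b ^ (2 * κ)) t := by
    intro t
    have hgt := hg0 t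
    have n1 : 0 ≤ a ^ (2 * s) * g t ^ (2 * (κ - s)) := by positivity
    have n2 : 0 ≤ b ^ (-(2 * s)) * g t ^ (2 * (κ + s)) := by positivity
    by_cases h3 : a ≤ g t
    · rw [indicator_of_mem (show t ∈ {t | a ≤ g t} from h3)]
      have hgp : 0 < g t := ha.trans_le h3
      rcases le_total (g t) b with h4 | h4
      · have h5 : g t ^ (2 * κ) ≤ b ^ (2 * κ) := Real.rpow_le_rpow hgt h4 (by linarith)
        linarith
      · have h5 : g t ^ (2 * κ) ≤ b ^ (-(2 * s)) * g t ^ (2 * (κ + s)) := by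
          have e1 : g t ^ (2 * κ) = g t ^ (-(2 * s)) * g t ^ (2 * (κ + s)) := by
            rw [← Real.rpow_add hgp]; congr 1; ring
          rw [e1]
          refine mul_le_mul_of_nonneg_right ?_ (by positivity)
          exact Real.rpow_le_rpow_of_nonpos hb h4 (by linarith)
        have n3 : 0 ≤ b ^ (2 * κ) := by positivity
        linarith
    · rw [indicator_of_notMem (show t ∉ {t | a ≤ g t} from h3), add_zero]
      push Not at h3
      have h5 : g t ^ (2 * κ) ≤ a ^ (2 * s) * g t ^ (2 * (κ - s)) := by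
        have e1 : g t ^ (2 * κ) = g t ^ (2 * s) * g t ^ (2 * (κ - s)) := by
          rw [← Real.rpow_add_of_nonneg hgt (by linarith) (by linarith)]; congr 1; ring
        rw [e1]
        exact mul_le_mul_of_nonneg_right (Real.rpow_le_rpow hgt h3.le (by linarith)) (by positivity)
      linarith
  have e3 : ∫ t in W, {t | a ≤ g t}.indicator (fun _ => b ^ (2 * κ)) t =
      b ^ (2 * κ) * volume.real ({t | a ≤ g t} ∩ W) := by
    rw [setIntegral_indicator hSm, setIntegral_const, smul_eq_mul, mul_comm, inter_comm]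
  have j1 : IntegrableOn (fun t => a ^ (2 * s) * g t ^ (2 * (κ - s))) W := i1.const_mul _
  have j2 : IntegrableOn (fun t => b ^ (-(2 * s)) * g t ^ (2 * (κ + s))) W := i2.const_mul _
  have j12 : IntegrableOn (fun t => a ^ (2 * s) * g t ^ (2 * (κ - s)) + b ^ (-(2 * s)) * g t ^ (2 * (κ + s))) W :=
    j1.add j2
  calc m ≤ ∫ t in W, g t ^ (2 * κ) := hm
    _ ≤ ∫ t in W, (a ^ (2 * s) * g t ^ (2 * (κ - s)) + b ^ (-(2 * s)) * g t ^ (2 * (κ + s)) +
        {t | a ≤ g t}.indicator (fun _ => b ^ (2 * κ)) t) :=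
        setIntegral_mono i0 (j12.add i3) hpt
    _ = a ^ (2 * s) * (∫ t in W, g t ^ (2 * (κ - s))) + b ^ (-(2 * s)) * (∫ t in W, g t ^ (2 * (κ + s))) +
        b ^ (2 * κ) * volume.real ({t | a ≤ g t} ∩ W) := by
        rw [integral_add j12 i3, integral_add j1 j2, integral_const_mul, integral_const_mul, e3]
    _ ≤ _ := by
        have : 0 ≤ a ^ (2 * s) := by positivity
        have : 0 ≤ b ^ (-(2 * s)) := by positivity
        gcongr

/-- the Markov bound for the moments in windows -/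
theorem up_win {α δ : ℝ} (hα : 0 < α) (hα2 : α ≤ 2) {Hf : ℝ → ℝ}
    (hH0 : ∀ᶠ T in atTop, 0 < Hf T) (hH : ∀ᶠ T in atTop, Hf T ≤ T / 2) : ∃ C : ℝ, 0 ≤ C ∧ ∀ᶠ T : ℝ in atTop,
    volume {x | x ∈ Icc T (2 * T) ∧ 2 * Hf T * Real.log T ^ (α ^ 2 + δ) <
      ∫ t in Icc (x - Hf T) (x + Hf T), zn (1 / 2) t ^ (2 * α)} ≤ ENNReal.ofReal (C * (T * Real.log T ^ (-δ))) := by
  obtain ⟨C, hC, h⟩ := mom_line hα hα2
  refine ⟨C, by linarith, ?_⟩
  filter_upwards [h, hH0, hH, eventually_gt_atTop 1, Real.tendsto_log_atTop.eventually_gt_atTop 0] with T h1 h2 h3 h4 h5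
  have hc : Continuous (fun t => zn (1 / 2) t ^ (2 * α)) :=
    (zn_cont (by norm_num)).rpow_const fun _ => Or.inr (by linarith)
  have hn : ∀ t, 0 ≤ zn (1 / 2) t ^ (2 * α) := fun t => Real.rpow_nonneg (zn_nonneg _ _) _
  set L := Real.log T with hL
  have hl : 0 < 2 * Hf T * L ^ (α ^ 2 + δ) := by positivity
  have hm := win_markov hc.measurable hn (a := T) (b := 2 * T) hl
    (hc.continuousOn.integrableOn_compact isCompact_Icc) h2.le
  refine hm.trans (ENNReal.ofReal_le_ofReal ?_)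
  have h6 : ∫ t in Icc (T - Hf T) (2 * T + Hf T), zn (1 / 2) t ^ (2 * α) ≤
      ∫ t in (T / 2)..(3 * T), zn (1 / 2) t ^ (2 * α) := by
    rw [intervalIntegral.integral_of_le (by linarith), ← integral_Icc_eq_integral_Ioc]
    exact setIntegral_mono_set (hc.continuousOn.integrableOn_compact isCompact_Icc)
      (Filter.Eventually.of_forall hn) (Icc_subset_Icc (by linarith) (by linarith)).eventuallyLE
  calc 2 * Hf T / (2 * Hf T * L ^ (α ^ 2 + δ)) * ∫ t in Icc (T - Hf T) (2 * T + Hf T), zn (1 / 2) t ^ (2 * α) ≤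
        2 * Hf T / (2 * Hf T * L ^ (α ^ 2 + δ)) * (C * (T * L ^ (α ^ 2))) :=
        mul_le_mul_of_nonneg_left (h6.trans h1) (by positivity)
    _ = C * (T * L ^ (-δ)) := by
        rw [Real.rpow_add h5, Real.rpow_neg h5.le]
        field_simp

end

end Pool.Agent.K6.H33.FZ
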