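import Pool.Agent.K6.H33.FZ.Mass

set_option autoImplicit false

/-! Large values of zeta near the critical line in short windows. -/

namespace Pool.Agent.K6.H33.FZ

open Pool.Agent.Y745.SW (P_MVB Py pA)
open Pool.Agent.Y745.LD
open Pool.Agent.Y448.LD (VM V_cont V_nonneg Pc_cont V_bd exp_LL tL tLL zl_int nz_of_closure)
open Pool.Agent.Y757.LS
open Pool.Agent.Y931.LD (yc_ge)
open MeasureTheory Set Filter

noncomputable section

/-- the set of the heights at which zeta is as predicted by the prime sum -/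
def Gd (κ c D δ e T : ℝ) : Set ℝ :=
  {t | (t ∈ G1 1 D T ∩ Icc (T + 4 * Real.log T) (2 * T - 4 * Real.log T) ∧
    |Real.log ‖riemannZeta (pt (Real.log T ^ (e - 1)) t)‖ - (Pc c T t).re| ≤ δ * LL T) ∧
    ‖Pc c T t - ((κ * sc c T : ℝ) : ℂ)‖ ≤ δ * LL T}

lemma zeta_meas : Measurable riemannZeta := by
  have h2 : ContinuousOn riemannZeta {1}ᶜ := fun s hs =>
    (differentiableAt_riemannZeta hs).continuousAt.continuousWithinAt
  exact measurable_of_continuousOn_compl_singleton 1 h2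

lemma q_meas (c σ T : ℝ) : Measurable (fun t : ℝ => Real.log ‖riemannZeta (pt σ t)‖ - (Pc c T t).re) := by
  refine (Real.measurable_log.comp ((zeta_meas.comp ?_).norm)).sub (Complex.continuous_re.comp (Pc_cont c T)).measurable
  unfold pt
  fun_prop

/-- the bad mass -/
theorem bad_mass {κ c A δ e D K1 K2 C T : ℝ} (hδ : 0 < δ) (hℓ : 1 ≤ LL T) (hL : 1 ≤ Real.log T) (hT : 1 ≤ T)
    (hI : 0 ≤ IV κ c A T) (hC : 0 ≤ C) (hK1 : 0 ≤ K1)
    (hG : MeasurableSet (G1 1 D T)) (hd : 0 < Real.log T ^ (e - 1)) (hd2 : Real.log T ^ (e - 1) < 1 / 2)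
    (hDd : D * LL T / Real.log T < Real.log T ^ (e - 1))
    (hGv : volume.real (Icc T (2 * T) \ G1 1 D T) ≤ T / Real.log T ^ (2 * κ ^ 2 + 2))
    (hedge : 10 * Real.log T ≤ T / Real.log T ^ (2 * κ ^ 2 + 2))
    (hms : ∀ X : Set ℝ, X ⊆ Icc T (2 * T) → MeasurableSet X →
      volume.real X ≤ 3 * (T / Real.log T ^ (2 * κ ^ 2 + 2)) →
      ∫ t in X, V κ c A T t ≤ K1 / Real.log T * IV κ c A T)
    (hZ : ∫ t in G1 1 D T ∩ Icc (T + 4 * Real.log T) (2 * T - 4 * Real.log T), V κ c A T t *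
      (Real.log ‖riemannZeta (pt (Real.log T ^ (e - 1)) t)‖ - (Pc c T t).re) ^ 2 ≤ K2 * LL T * IV κ c A T)
    (hP : ∫ t in T..(2 * T), V κ c A T t * ‖Pc c T t - ((κ * sc c T : ℝ) : ℂ)‖ ^ 2 ≤ C * LL T * IV κ c A T) :
    MeasurableSet (Gd κ c D δ e T) ∧
    ∫ t in Icc T (2 * T) \ Gd κ c D δ e T, V κ c A T t ≤
      (K1 + K2 / δ ^ 2 + C / δ ^ 2) / LL T * IV κ c A T := by
  set L := Real.log T with hLd
  set ℓ := LL T with hℓd
  set s := sc c T with hsd
  set S := G1 1 D T ∩ Icc (T + 4 * L) (2 * T - 4 * L) with hSd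
  set q : ℝ → ℝ := fun t => Real.log ‖riemannZeta (pt (L ^ (e - 1)) t)‖ - (Pc c T t).re with hq
  set q2 : ℝ → ℝ := fun t => ‖Pc c T t - ((κ * s : ℝ) : ℂ)‖ with hq2
  have hSm : MeasurableSet S := hG.inter measurableSet_Icc
  have hqm : Measurable q := q_meas c _ T
  have hq2c : Continuous q2 := ((Pc_cont c T).sub continuous_const).norm
  have hVc := V_cont κ c A T
  have hV0 : ∀ t, 0 ≤ V κ c A T t := fun t => V_nonneg _ _ _ _ _
  have hVint : IntegrableOn (fun t => V κ c A T t) (Icc T (2 * T)) :=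
    hVc.continuousOn.integrableOn_compact isCompact_Icc
  have hGm : MeasurableSet (Gd κ c D δ e T) := by
    have e1 : Gd κ c D δ e T = (S ∩ {t | |q t| ≤ δ * ℓ}) ∩ {t | q2 t ≤ δ * ℓ} := rfl
    rw [e1]
    exact (hSm.inter (measurableSet_le (measurable_norm.comp hqm) measurable_const)).inter
      (measurableSet_le hq2c.measurable measurable_const)
  refine ⟨hGm, ?_⟩
  have hL0 : 0 < L := by linarith
  have hSI : S ⊆ Icc T (2 * T) := fun t ht => ⟨by linarith [ht.2.1], by linarith [ht.2.2]⟩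
  have ha : 0 < δ * ℓ := by positivity
  -- the three parts
  set X := Icc T (2 * T) \ S with hX
  have hXm : MeasurableSet X := measurableSet_Icc.diff hSm
  have p1 : ∫ t in X, V κ c A T t ≤ K1 / ℓ * IV κ c A T := by
    have f1 : volume (Icc T (2 * T)) ≠ ⊤ := by rw [Real.volume_Icc]; exact ENNReal.ofReal_ne_top
    have f2 : volume (Icc T (2 * T) \ G1 1 D T) ≠ ⊤ :=
      ((measure_mono sdiff_subset).trans_lt (lt_top_iff_ne_top.2 f1)).ne
    have f4 : volume (Icc T (T + 4 * L)) ≠ ⊤ := by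
      rw [Real.volume_Icc]; exact ENNReal.ofReal_ne_top
    have f5 : volume (Icc (2 * T - 4 * L) (2 * T)) ≠ ⊤ := by
      rw [Real.volume_Icc]; exact ENNReal.ofReal_ne_top
    have v4 : volume.real (Icc T (T + 4 * L)) = 4 * L := by
      rw [Real.volume_real_Icc_of_le (by linarith)]; ring
    have v5 : volume.real (Icc (2 * T - 4 * L) (2 * T)) = 4 * L := by
      rw [Real.volume_real_Icc_of_le (by linarith)]; ring
    have hcov : X ⊆ (Icc T (2 * T) \ G1 1 D T) ∪ (Icc T (T + 4 * L) ∪ Icc (2 * T - 4 * L) (2 * T)) := by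
      intro t ht
      obtain ⟨h1, h2⟩ := ht
      by_cases g1 : t ∈ G1 1 D T
      · right
        have h3 : t ∉ Icc (T + 4 * L) (2 * T - 4 * L) := fun h => h2 ⟨g1, h⟩
        by_cases h4 : T + 4 * L ≤ t
        · right
          refine ⟨?_, h1.2⟩
          by_contra h5
          push Not at h5
          exact h3 ⟨h4, h5.le⟩
        · left
          exact ⟨h1.1, by linarith⟩
      · left
        exact ⟨h1, g1⟩
    have hv : volume.real X ≤ 3 * (T / L ^ (2 * κ ^ 2 + 2)) := by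
      calc volume.real X ≤ volume.real ((Icc T (2 * T) \ G1 1 D T) ∪
            (Icc T (T + 4 * L) ∪ Icc (2 * T - 4 * L) (2 * T))) :=
            measureReal_mono hcov (measure_union_ne_top f2 (measure_union_ne_top f4 f5))
        _ ≤ volume.real (Icc T (2 * T) \ G1 1 D T) +
            (volume.real (Icc T (T + 4 * L)) + volume.real (Icc (2 * T - 4 * L) (2 * T))) := by
            refine (measureReal_union_le _ _).trans (add_le_add le_rfl (measureReal_union_le _ _))
        _ ≤ _ := by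
            rw [v4, v5]
            linarith
    refine (hms X sdiff_subset hXm hv).trans ?_
    have h1 : K1 / L ≤ K1 / ℓ := by
      refine div_le_div_of_nonneg_left hK1 (by linarith) ?_
      have : LL T ≤ Real.log T - 1 := Real.log_le_sub_one_of_pos hL0
      linarith
    exact mul_le_mul_of_nonneg_right h1 hI
  have p2 : ∫ t in S ∩ {t | δ * ℓ < |q t|}, V κ c A T t ≤ K2 / δ ^ 2 / ℓ * IV κ c A T := by
    have hi : IntegrableOn (fun t => V κ c A T t * q t ^ 2) S :=
      zl_int hL0 hd hd2 hDd (by linarith) hVc (Complex.continuous_re.comp (Pc_cont c T))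
    refine (cheb hSm hV0 hqm (hVint.mono_set hSI) hi ha hZ).trans (le_of_eq ?_)
    field_simp
  have p3 : ∫ t in Icc T (2 * T) ∩ {t | δ * ℓ < |q2 t|}, V κ c A T t ≤ C / δ ^ 2 / ℓ * IV κ c A T := by
    have hi : IntegrableOn (fun t => V κ c A T t * q2 t ^ 2) (Icc T (2 * T)) :=
      (hVc.mul (hq2c.pow 2)).continuousOn.integrableOn_compact isCompact_Icc
    have hP' : ∫ t in Icc T (2 * T), V κ c A T t * q2 t ^ 2 ≤ C * ℓ * IV κ c A T := by
      rw [integral_Icc_eq_integral_Ioc, ← intervalIntegral.integral_of_le (by linarith)]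
      exact hP
    refine (cheb measurableSet_Icc hV0 hq2c.measurable hVint hi ha hP').trans (le_of_eq ?_)
    field_simp
  -- the union
  have hcov : Icc T (2 * T) \ Gd κ c D δ e T ⊆
      (X ∪ (S ∩ {t | δ * ℓ < |q t|})) ∪ (Icc T (2 * T) ∩ {t | δ * ℓ < |q2 t|}) := by
    rintro t ⟨h1, h2⟩
    by_cases h3 : δ * ℓ < |q2 t|
    · exact Or.inr ⟨h1, h3⟩
    · left
      by_cases h4 : t ∈ S
      · right
        refine ⟨h4, ?_⟩
        by_contra h5
        simp only [mem_ofPred_eq, not_lt] at h5 h3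
        refine h2 ⟨⟨h4, h5⟩, ?_⟩
        rwa [abs_of_nonneg (norm_nonneg _)] at h3
      · left
        exact ⟨h1, h4⟩
  have m2 : MeasurableSet (S ∩ {t | δ * ℓ < |q t|}) :=
    hSm.inter (measurableSet_lt measurable_const (measurable_norm.comp hqm))
  have m3 : MeasurableSet (Icc T (2 * T) ∩ {t | δ * ℓ < |q2 t|}) :=
    measurableSet_Icc.inter (measurableSet_lt measurable_const (measurable_norm.comp hq2c.measurable))
  have i1 : IntegrableOn (fun t => V κ c A T t) X := hVint.mono_set sdiff_subset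
  have i2 : IntegrableOn (fun t => V κ c A T t) (S ∩ {t | δ * ℓ < |q t|}) :=
    hVint.mono_set (inter_subset_left.trans hSI)
  have i3 : IntegrableOn (fun t => V κ c A T t) (Icc T (2 * T) ∩ {t | δ * ℓ < |q2 t|}) :=
    hVint.mono_set inter_subset_left
  have hun : ∀ {P Q : Set ℝ}, MeasurableSet Q → IntegrableOn (fun t => V κ c A T t) P →
      IntegrableOn (fun t => V κ c A T t) Q →
      ∫ t in P ∪ Q, V κ c A T t ≤ (∫ t in P, V κ c A T t) + ∫ t in Q, V κ c A T t := by
    intro P Q hQ h1 h2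
    have h3 : ∫ t in P ∪ Q, V κ c A T t = (∫ t in P \ Q, V κ c A T t) + ∫ t in Q, V κ c A T t := by
      rw [← sdiff_union_self (s := P) (t := Q), setIntegral_union disjoint_sdiff_left hQ (h1.mono_set sdiff_subset) h2]
    rw [h3]
    have h4 : ∫ t in P \ Q, V κ c A T t ≤ ∫ t in P, V κ c A T t :=
      setIntegral_mono_set h1 (Filter.Eventually.of_forall hV0) sdiff_subset.eventuallyLE
    linarith
  calc ∫ t in Icc T (2 * T) \ Gd κ c D δ e T, V κ c A T t ≤
        ∫ t in (X ∪ (S ∩ {t | δ * ℓ < |q t|})) ∪ (Icc T (2 * T) ∩ {t | δ * ℓ < |q2 t|}), V κ c A T t :=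
        setIntegral_mono_set ((i1.union i2).union i3) (Filter.Eventually.of_forall hV0) hcov.eventuallyLE
    _ ≤ ((∫ t in X, V κ c A T t) + ∫ t in S ∩ {t | δ * ℓ < |q t|}, V κ c A T t) +
        ∫ t in Icc T (2 * T) ∩ {t | δ * ℓ < |q2 t|}, V κ c A T t := by
        refine (hun m3 (i1.union i2) i3).trans (add_le_add (hun m2 i1 i2) le_rfl)
    _ ≤ (K1 / ℓ * IV κ c A T + K2 / δ ^ 2 / ℓ * IV κ c A T) + C / δ ^ 2 / ℓ * IV κ c A T := by
        linarith
    _ = _ := by ring

end

end Pool.Agent.K6.H33.FZ
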