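import Pool.Agent.K6.H33.FZ.Off
import Pool.Agent.Y363.LD.ZL2
import Pool.Agent.Y363.LD.PW
import Pool.Agent.Y447.LD.VMR
import Pool.Agent.Y665.LD.VMS
import Pool.Agent.Y179.LD.Z1
import Pool.Agent.Y840.SW.MVB

set_option autoImplicit false

/-! Large values of zeta near the critical line in short windows: the statement. -/

namespace Pool.Agent.K6.H33.FZ

open Pool.Agent.Y745.SW (P_MVB Py pA)
open Pool.Agent.Y745.LD
open Pool.Agent.Y448.LD (VM V_cont V_nonneg Pc_cont V_bd exp_LL tL tLL zl_int nz_of_closure)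
open Pool.Agent.Y757.LS
open Pool.Agent.Y931.LD (yc_ge)
open MeasureTheory Set Filter

noncomputable section

theorem b_MVB : P_MVB := Pool.Agent.Y840.SW.t_MVB

theorem b_VM1 : P_VM1 := Pool.Agent.Y931.LD.t_VM1 b_MVB

theorem b_VMT : P_VMT := Pool.Agent.Y665.LD.t_VMT b_MVB b_VM1

theorem b_ZL2 : P_ZL2 := Pool.Agent.Y363.LD.t_ZL2 b_MVB b_VM1 (Pool.Agent.Y447.LD.t_VMR b_MVB)
  (Pool.Agent.Y665.LD.t_VMS b_MVB b_VM1) Pool.Agent.Y179.LD.t_Z1

/-- the large values at one height, deterministic part -/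
theorem good_window {κ c A δ e D C1 T x : ℝ} (hκ : 0 ≤ κ) (hκ1 : κ ≤ 1) (hδ : 0 ≤ δ) (hδ1 : δ ≤ 1) (hc0 : 0 < c)
    (hc : c ≤ 1) (hC1 : 1 ≤ C1) (hL : 1 ≤ Real.log T) (hℓ : C1 ≤ LL T) (hT : 0 < T)
    (hPW : ∀ z : ℂ, ‖z‖ ≤ 3 * LL T →
      ‖tex (KA A T) ((κ : ℂ) * z) - Complex.exp ((κ : ℂ) * z)‖ ≤ 1 / 2 * Real.exp (κ * z.re))
    (hs : |sc c T - c * LL T| ≤ C1) (hIV : T * Real.exp (κ ^ 2 * sc c T) ≤ C1 * IV κ c A T)
    (hIV2 : IV κ c A T ≤ 3 / 2 * T * DD0 κ c A T) (hGm : MeasurableSet (Gd κ c D δ e T))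
    (hxI : Icc (x - HH T) (x + HH T) ⊆ Icc T (2 * T))
    (hW : HH T * DD0 κ c A T < ∫ t in (x - HH T)..(x + HH T), V κ c A T t)
    (hbad : ∫ t in Icc (x - HH T) (x + HH T), (Icc T (2 * T) \ Gd κ c D δ e T).indicator (V κ c A T) t ≤
      HH T * DD0 κ c A T / 2) :
    ENNReal.ofReal (HH T * (4 / (27 * C1) * Real.exp (-(κ ^ 2 * sc c T) - 2 * κ * (δ * LL T)))) ≤
      volume (Gd κ c D δ e T ∩ Icc (x - HH T) (x + HH T)) := by
  set H := HH T with hH
  have hH1 : 1 ≤ H := by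
    rw [hH]; unfold HH
    exact one_le_pow₀ hL
  have hH0 : 0 < H := by linarith
  set W := Icc (x - H) (x + H) with hWd
  set G := Gd κ c D δ e T with hG
  set Dd := DD0 κ c A T with hDd
  set s := sc c T with hsd
  set ℓ := LL T with hℓd
  have hVc := V_cont κ c A T
  have hV0 : ∀ t, 0 ≤ V κ c A T t := fun t => V_nonneg _ _ _ _ _
  have hVint : IntegrableOn (fun t => V κ c A T t) W := hVc.continuousOn.integrableOn_compact isCompact_Icc
  have hWm : MeasurableSet W := measurableSet_Icc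
  -- the good mass
  have h1 : ∫ t in W, V κ c A T t = (∫ t in W ∩ G, V κ c A T t) + ∫ t in W \ G, V κ c A T t :=
    (integral_inter_add_sdiff hGm hVint).symm
  have h2 : ∫ t in W \ G, V κ c A T t ≤ H * Dd / 2 := by
    refine le_trans (le_of_eq ?_) hbad
    have hm : MeasurableSet (Icc T (2 * T) \ G) := measurableSet_Icc.diff hGm
    rw [setIntegral_indicator hm]
    congr 2
    ext t
    simp only [Set.mem_sdiff, Set.mem_inter_iff]
    constructor
    · rintro ⟨a, b⟩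
      exact ⟨a, hxI a, b⟩
    · rintro ⟨a, _, b⟩
      exact ⟨a, b⟩
  have h3 : H * Dd < ∫ t in W, V κ c A T t := by
    rw [hWd, integral_Icc_eq_integral_Ioc, ← intervalIntegral.integral_of_le (by linarith)]
    exact hW
  have h4 : H * Dd / 2 < ∫ t in W ∩ G, V κ c A T t := by linarith
  -- the weight on the good set
  set Mx := 9 / 4 * Real.exp (2 * κ * (κ * s + δ * ℓ)) with hMx
  have h5 : ∀ t ∈ W ∩ G, V κ c A T t ≤ Mx := by
    intro t ht
    have hP : ‖Pc c T t - ((κ * s : ℝ) : ℂ)‖ ≤ δ * ℓ := ht.2.2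
    have hs2 : s ≤ 2 * ℓ := by
      have := (abs_le.mp hs).2
      nlinarith
    have hs0 : 0 ≤ s := by
      rw [hsd]; unfold sc
      exact Finset.sum_nonneg fun _ _ => by positivity
    have hPn : ‖Pc c T t‖ ≤ 3 * ℓ := by
      have e1 : Pc c T t = (Pc c T t - ((κ * s : ℝ) : ℂ)) + ((κ * s : ℝ) : ℂ) := by ring
      rw [e1]
      refine (norm_add_le _ _).trans ?_
      rw [Complex.norm_real, Real.norm_of_nonneg (by positivity)]
      have h6 : κ * s ≤ 1 * (2 * ℓ) := mul_le_mul hκ1 hs2 hs0 zero_le_one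
      have h7 : δ * ℓ ≤ 1 * ℓ := mul_le_mul_of_nonneg_right hδ1 (by linarith)
      linarith
    have hre : (Pc c T t).re ≤ κ * s + δ * ℓ := by
      have h6 := (Complex.re_le_norm (Pc c T t - ((κ * s : ℝ) : ℂ))).trans hP
      rw [Complex.sub_re, Complex.ofReal_re] at h6
      linarith
    refine (V_bd (hPW _ hPn)).2.trans ?_
    rw [hMx]
    have : 2 * κ * (Pc c T t).re ≤ 2 * κ * (κ * s + δ * ℓ) := mul_le_mul_of_nonneg_left hre (by positivity)
    gcongr
  have hfin : volume (W ∩ G) ≠ ⊤ :=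
    ((measure_mono inter_subset_left).trans_lt (by rw [hWd, Real.volume_Icc]; exact ENNReal.ofReal_lt_top)).ne
  have h6 : ∫ t in W ∩ G, V κ c A T t ≤ Mx * volume.real (W ∩ G) := by
    calc ∫ t in W ∩ G, V κ c A T t ≤ ∫ t in W ∩ G, Mx :=
          setIntegral_mono_on (hVint.mono_set inter_subset_left) (integrableOn_const hfin) (hWm.inter hGm) h5
      _ = Mx * volume.real (W ∩ G) := by rw [setIntegral_const, smul_eq_mul, mul_comm]
  have hMx0 : 0 < Mx := by rw [hMx]; positivity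
  -- the size of D
  have hD : 2 / (3 * C1) * Real.exp (κ ^ 2 * s) ≤ Dd := by
    have h7 : T * Real.exp (κ ^ 2 * s) ≤ C1 * (3 / 2 * T * Dd) :=
      hIV.trans (mul_le_mul_of_nonneg_left hIV2 (by linarith))
    have h8 : Real.exp (κ ^ 2 * s) ≤ C1 * (3 / 2 * Dd) := by
      refine le_of_mul_le_mul_left ?_ hT
      linarith
    rw [div_mul_eq_mul_div, div_le_iff₀ (by positivity)]
    linarith
  have h7 : H * (4 / (27 * C1) * Real.exp (-(κ ^ 2 * s) - 2 * κ * (δ * ℓ))) ≤ volume.real (W ∩ G) := by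
    have h8 : H * (2 / (3 * C1) * Real.exp (κ ^ 2 * s)) / 2 ≤ Mx * volume.real (W ∩ G) := by
      have : H * (2 / (3 * C1) * Real.exp (κ ^ 2 * s)) ≤ H * Dd := mul_le_mul_of_nonneg_left hD hH0.le
      linarith
    refine le_of_mul_le_mul_left ?_ hMx0
    refine le_trans (le_of_eq ?_) h8
    rw [hMx]
    have e2 : Real.exp (2 * κ * (κ * s + δ * ℓ)) * Real.exp (-(κ ^ 2 * s) - 2 * κ * (δ * ℓ)) =
        Real.exp (κ ^ 2 * s) := by
      rw [← Real.exp_add]; congr 1; ring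
    calc 9 / 4 * Real.exp (2 * κ * (κ * s + δ * ℓ)) *
          (H * (4 / (27 * C1) * Real.exp (-(κ ^ 2 * s) - 2 * κ * (δ * ℓ)))) =
        9 / 4 * H * (4 / (27 * C1)) * (Real.exp (2 * κ * (κ * s + δ * ℓ)) *
          Real.exp (-(κ ^ 2 * s) - 2 * κ * (δ * ℓ))) := by ring
      _ = _ := by rw [e2]; field_simp; ring
  rw [inter_comm]
  calc _ ≤ ENNReal.ofReal (volume.real (W ∩ G)) := ENNReal.ofReal_le_ofReal h7
    _ = volume (W ∩ G) := ENNReal.ofReal_toReal hfin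

end

end Pool.Agent.K6.H33.FZ
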