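import Pool.Agent.K6.H33.FZ.Off2

set_option autoImplicit false

/-! Large values of zeta near the critical line in most short windows. -/

namespace Pool.Agent.K6.H33.FZ

open Pool.Agent.Y745.SW (P_MVB Py pA)
open Pool.Agent.Y745.LD
open Pool.Agent.Y448.LD (VM V_cont V_nonneg Pc_cont V_bd exp_LL tL tLL zl_int nz_of_closure)
open Pool.Agent.Y757.LS
open Pool.Agent.Y931.LD (yc_ge)
open MeasureTheory Set Filter

noncomputable section

lemma ev_pw (b : ℝ) (C : ℝ) (k : ℕ) : ∀ᶠ T : ℝ in atTop, C * Real.log T ^ k ≤ T / Real.log T ^ b := by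
  obtain ⟨m, hm⟩ := exists_nat_ge b
  filter_upwards [ev_exp (k + m) 1 one_pos (max C 0), tL.eventually_ge_atTop 1, eventually_gt_atTop 0] with T h1 h2 h3
  have hL0 : 0 < Real.log T := by linarith
  rw [one_mul, Real.exp_log h3] at h1
  rw [le_div_iff₀ (by positivity)]
  have h4 : Real.log T ^ b ≤ Real.log T ^ m := by
    rw [← Real.rpow_natCast]
    exact Real.rpow_le_rpow_of_exponent_le h2 hm
  calc C * Real.log T ^ k * Real.log T ^ b ≤ max C 0 * Real.log T ^ k * Real.log T ^ m := by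
        gcongr
        exact le_max_left _ _
    _ = max C 0 * Real.log T ^ (k + m) := by rw [pow_add]; ring
    _ ≤ T := h1

/-- **large values near the line in most windows** -/
theorem off_win (hG1M : P_G1M) {κ δ : ℝ} (hκ : 0 < κ) (hκ1 : κ ≤ 1) (hδ : 0 < δ) (hδ1 : δ ≤ 1) :
    ∃ e C : ℝ, 0 < e ∧ e < 1 ∧ 0 ≤ C ∧ ∀ᶠ T : ℝ in atTop, ∃ Bd : Set ℝ,
      volume Bd ≤ ENNReal.ofReal (C * (T / LL T)) ∧ ∀ x ∈ Icc T (2 * T), x ∉ Bd →
        Icc (x - HH T) (x + HH T) ⊆ Icc T (2 * T) ∧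
        ENNReal.ofReal (HH T * Real.log T ^ (-κ ^ 2 - δ)) ≤
          volume ({t | Real.log T ^ (κ - δ) ≤ ‖riemannZeta (pt (Real.log T ^ (e - 1)) t)‖} ∩
            Icc (x - HH T) (x + HH T)) := by
  set δ1 : ℝ := δ / 8 with hδ1d
  have hδ10 : 0 < δ1 := by positivity
  set c : ℝ := 1 - δ1 with hcd
  have hc0 : 0 < c := by rw [hcd]; linarith
  have hc1 : c < 1 := by rw [hcd]; linarith
  set e : ℝ := δ1 / 2 with hed
  have he0 : 0 < e := by positivity
  have he1 : e < 1 := by rw [hed]; linarith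
  have hec : e < 1 - c := by rw [hed, hcd]; linarith
  obtain ⟨D, hD0, hG⟩ := hG1M 1 (2 * κ ^ 2 + 2) one_pos (by positivity)
  have hG' := hG D le_rfl
  obtain ⟨a1, hV1⟩ := b_VM1 κ c hc0 hc1
  obtain ⟨a2, hV2⟩ := b_VMT κ c hc0 hc1
  obtain ⟨a3, hV3⟩ := b_ZL2 κ c hc0 hc1
  obtain ⟨a4, hV4⟩ := Pool.Agent.Y363.LD.t_PW κ 3 (by norm_num)
  set A : ℝ := max 0 (max a1 (max a2 (max a3 a4))) with hA
  have hA0 : 0 ≤ A := le_max_left _ _
  have hA' : max a1 (max a2 (max a3 a4)) ≤ A := le_max_right _ _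
  simp only [max_le_iff] at hA'
  obtain ⟨hA1, hA2, hA3, hA4⟩ := hA'
  obtain ⟨C1, hC1, hVM⟩ := hV1 A hA1
  obtain ⟨C2, hC2, hVT⟩ := hV2 A hA2
  have hZ := hV3 A hA3 e D 1 he0 hec hD0 one_pos
  have hPW := hV4 A hA4
  obtain ⟨K1, hK1, hms⟩ := mass_rate (κ := κ) (c := c) (A := A) hc1 hC1 hVM
  set K : ℝ := K1 + (2 * (1 - c) + 1) / δ1 ^ 2 + C2 / δ1 ^ 2 with hK
  have hK0 : 0 ≤ K := by
    have : 0 ≤ 2 * (1 - c) + 1 := by linarith
    positivity
  refine ⟨e, 6 * K + 3, he0, he1, by positivity, ?_⟩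
  have r1 : Tendsto (fun T : ℝ => Real.log T ^ (-(1 - e))) atTop (nhds 0) :=
    (tendsto_rpow_neg_atTop (by linarith)).comp tL
  have hN := NN0_le (A := A) hc0 hc1 hA0
  filter_upwards [hG', hVM, hVT, hZ, hPW, hms, vwin hκ.le hκ1 hc0 hc1 hA0, hN, tL.eventually_ge_atTop 100,
    tLL.eventually_ge_atTop (max 1 C1), eventually_ge_atTop 100,
    r1.eventually (gt_mem_nhds (by norm_num : (0 : ℝ) < 1 / 2)),
    Pool.Agent.Y448.LD.tL.eventually ((isLittleO_log_rpow_atTop he0).bound (c := 1 / (2 * D)) (by positivity)),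
    ev_pw (2 * κ ^ 2 + 2) 10 1, ev_pw 1 2 12, ev_exp 0 (1 / 2) (by norm_num) 16,
    tLL.eventually_ge_atTop ((Real.log (27 * C1 / 4) + C1) / δ1), tLL.eventually_ge_atTop (C1 / δ1)]
    with T h1 h2 h3 h4 h5 h6 h7 h8 h9 h10 h11 h12 h13 h14 h15 h16 h17 h18
  set L := Real.log T with hLd
  set ℓ := LL T with hℓd
  have hL0 : 0 < L := by linarith
  have hT0 : 0 < T := by linarith
  have hℓ1 : 1 ≤ ℓ := (le_max_left _ _).trans h10
  have hℓC : C1 ≤ ℓ := (le_max_right _ _).trans h10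
  have hℓ0 : 0 < ℓ := by linarith
  have hy1 : 1 ≤ yc c T := yc_ge hL0.le
  have hTe : T = Real.exp L := (Real.exp_log (by linarith)).symm
  obtain ⟨g1, g2⟩ := h1
  obtain ⟨v1, v2, v3, v4⟩ := h2
  -- the length
  have hN8 : 8 * ((NN0 c A T : ℕ) : ℝ) * (1 + Real.log (NN0 c A T : ℝ)) ≤ T / 2 := by
    have hN1 : (1:ℝ) ≤ NN0 c A T := by exact_mod_cast NN0_pos hy1
    have f1 : 1 + Real.log (NN0 c A T : ℝ) ≤ NN0 c A T := by
      have := Real.log_le_sub_one_of_pos (show (0:ℝ) < NN0 c A T by linarith)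
      linarith
    have f2 : 16 ≤ Real.exp (1 / 2 * L) := by rwa [pow_zero, mul_one] at h16
    have f3 : (NN0 c A T : ℝ) * NN0 c A T ≤ Real.exp (1 / 2 * L) := by
      calc (NN0 c A T : ℝ) * NN0 c A T ≤ Real.exp (L / 60) * Real.exp (L / 60) := by gcongr
        _ = Real.exp (L / 30) := by rw [← Real.exp_add]; congr 1; ring
        _ ≤ Real.exp (1 / 2 * L) := Real.exp_le_exp.mpr (by linarith)
    have f4 : Real.exp (1 / 2 * L) * Real.exp (1 / 2 * L) = T := by
      rw [← Real.exp_add, show 1 / 2 * L + 1 / 2 * L = L by ring, ← hTe]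
    calc 8 * ((NN0 c A T : ℕ) : ℝ) * (1 + Real.log (NN0 c A T : ℝ)) ≤ 8 * ((NN0 c A T : ℕ) : ℝ) * NN0 c A T := by gcongr
      _ = 8 * ((NN0 c A T : ℝ) * NN0 c A T) := by ring
      _ ≤ 8 * Real.exp (1 / 2 * L) := by gcongr
      _ ≤ (Real.exp (1 / 2 * L) * Real.exp (1 / 2 * L)) / 2 := by
          have := mul_le_mul_of_nonneg_right f2 (Real.exp_pos (1 / 2 * L)).le
          linarith
      _ = T / 2 := by rw [f4]
  obtain ⟨i1, i2⟩ := IV_DD0 (κ := κ) b_MVB hy1 hT0.le hN8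
  have hD1 : 1 ≤ DD0 κ c A T := DD0_ge hy1
  have hIV0 : 0 ≤ IV κ c A T := le_trans (by positivity) i1
  -- the distance from the line
  have hd0 : 0 < L ^ (e - 1) := Real.rpow_pos_of_pos hL0 _
  have hd2 : L ^ (e - 1) < 1 / 2 := by rwa [neg_sub] at h12
  have hDd : D * ℓ / L < L ^ (e - 1) := by
    have f1 : ‖Real.log L‖ ≤ 1 / (2 * D) * ‖L ^ e‖ := h13
    rw [Real.norm_of_nonneg (Real.rpow_pos_of_pos hL0 e).le, Real.norm_of_nonneg (show 0 ≤ Real.log L from hℓ0.le)] at f1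
    have f2 : D * ℓ ≤ L ^ e / 2 := by
      calc D * ℓ ≤ D * (1 / (2 * D) * L ^ e) := mul_le_mul_of_nonneg_left f1 hD0.le
        _ = L ^ e / 2 := by field_simp
    have f3 : 0 < L ^ e := Real.rpow_pos_of_pos hL0 e
    rw [Real.rpow_sub hL0, Real.rpow_one]
    gcongr
    linarith
  have hZ' : ∫ t in G1 1 D T ∩ Icc (T + 4 * L) (2 * T - 4 * L), V κ c A T t *
      (Real.log ‖riemannZeta (pt (L ^ (e - 1)) t)‖ - (Pc c T t).re) ^ 2 ≤
      (2 * (1 - c) + 1) * ℓ * IV κ c A T := by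
    have f1 := h4 g1 1 le_rfl (by norm_num)
    rw [one_mul] at f1
    exact f1
  rw [pow_one] at h14
  obtain ⟨hGm, hmass⟩ := bad_mass (A := A) hδ10 hℓ1 (by linarith) (by linarith) hIV0 (by linarith) hK1 g1 hd0 hd2 hDd
    g2 h14 h6 hZ' h3
  set G := Gd κ c D δ1 e T with hGd
  set f : ℝ → ℝ := (Icc T (2 * T) \ G).indicator (V κ c A T) with hf
  have hVc := V_cont κ c A T
  have hV0 : ∀ t, 0 ≤ V κ c A T t := fun t => V_nonneg _ _ _ _ _
  have hmB : MeasurableSet (Icc T (2 * T) \ G) := measurableSet_Icc.diff hGm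
  have hfm : Measurable f := hVc.measurable.indicator hmB
  have hf0 : ∀ t, 0 ≤ f t := fun t => indicator_nonneg (fun t _ => hV0 t) t
  set H := HH T with hH
  have hH1 : 1 ≤ H := by
    rw [hH]; unfold HH
    exact one_le_pow₀ (by linarith)
  have hH0 : 0 < H := by linarith
  have hVint : IntegrableOn (V κ c A T) (Icc T (2 * T)) :=
    hVc.continuousOn.integrableOn_compact isCompact_Icc
  have hfi : IntegrableOn f (Icc ((T + H) - H) ((2 * T - H) + H)) := by
    rw [show T + H - H = T by ring, show 2 * T - H + H = 2 * T by ring]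
    exact hVint.indicator hmB
  have hl : 0 < H * DD0 κ c A T / 2 := by positivity
  have hmk := win_markov hfm hf0 hl hfi hH0.le
  rw [show T + H - H = T by ring, show 2 * T - H + H = 2 * T by ring] at hmk
  have hfint : ∫ t in Icc T (2 * T), f t ≤ K / ℓ * IV κ c A T := by
    rw [hf, setIntegral_indicator hmB]
    have : Icc T (2 * T) ∩ (Icc T (2 * T) \ G) = Icc T (2 * T) \ G := by
      rw [inter_eq_right]; exact sdiff_subset
    rw [this]
    exact hmass
  set B1 : Set ℝ := {x | x ∈ Icc T (2 * T) ∧ (∫ t in (x - H)..(x + H), V κ c A T t) ≤ H * DD0 κ c A T} with hB1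
  set B2 : Set ℝ := {x | x ∈ Icc (T + H) (2 * T - H) ∧ H * DD0 κ c A T / 2 < ∫ t in Icc (x - H) (x + H), f t} with hB2
  set B3 : Set ℝ := Icc T (T + H) ∪ Icc (2 * T - H) (2 * T) with hB3
  refine ⟨(B1 ∪ B2) ∪ B3, ?_, ?_⟩
  · -- the measure of the bad set
    have hLl : T / L ≤ T / ℓ := by
      refine div_le_div_of_nonneg_left hT0.le hℓ0 ?_
      have : LL T ≤ Real.log T - 1 := Real.log_le_sub_one_of_pos hL0
      linarith
    have m1 : volume B1 ≤ ENNReal.ofReal (T / ℓ) := h7.trans (ENNReal.ofReal_le_ofReal hLl)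
    have m2 : volume B2 ≤ ENNReal.ofReal (6 * K * (T / ℓ)) := by
      refine hmk.trans (ENNReal.ofReal_le_ofReal ?_)
      calc 2 * H / (H * DD0 κ c A T / 2) * ∫ t in Icc T (2 * T), f t ≤
            2 * H / (H * DD0 κ c A T / 2) * (K / ℓ * (3 / 2 * T * DD0 κ c A T)) := by
            refine mul_le_mul_of_nonneg_left ?_ (by positivity)
            exact hfint.trans (mul_le_mul_of_nonneg_left i2 (by positivity))
        _ = 6 * K * (T / ℓ) := by field_simp; ring
    have m3 : volume B3 ≤ ENNReal.ofReal (2 * (T / ℓ)) := by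
      have f1 : 2 * H ≤ T / ℓ := by
        have : 2 * L ^ 12 ≤ T / L ^ (1:ℝ) := h15
        rw [Real.rpow_one] at this
        rw [hH]; unfold HH
        exact this.trans hLl
      refine (measure_union_le _ _).trans ?_
      rw [Real.volume_Icc, Real.volume_Icc, ← ENNReal.ofReal_add (by linarith) (by linarith)]
      apply ENNReal.ofReal_le_ofReal
      linarith
    have hTl : 0 ≤ T / ℓ := by positivity
    calc volume ((B1 ∪ B2) ∪ B3) ≤ (volume B1 + volume B2) + volume B3 :=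
          (measure_union_le _ _).trans (add_le_add (measure_union_le _ _) le_rfl)
      _ ≤ (ENNReal.ofReal (T / ℓ) + ENNReal.ofReal (6 * K * (T / ℓ))) + ENNReal.ofReal (2 * (T / ℓ)) :=
          add_le_add (add_le_add m1 m2) m3
      _ = ENNReal.ofReal ((6 * K + 3) * (T / ℓ)) := by
          rw [← ENNReal.ofReal_add hTl (by positivity), ← ENNReal.ofReal_add (by positivity) (by positivity)]
          congr 1; ring
  · -- the good windows
    intro x hx hxB
    have n1 : x ∉ B1 := fun h => hxB (Or.inl (Or.inl h))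
    have n2 : x ∉ B2 := fun h => hxB (Or.inl (Or.inr h))
    have n3 : x ∉ B3 := fun h => hxB (Or.inr h)
    have hx1 : T + H < x := by
      by_contra h
      push Not at h
      exact n3 (Or.inl ⟨hx.1, h⟩)
    have hx2 : x < 2 * T - H := by
      by_contra h
      push Not at h
      exact n3 (Or.inr ⟨h, hx.2⟩)
    have hxI : Icc (x - H) (x + H) ⊆ Icc T (2 * T) := Icc_subset_Icc (by linarith) (by linarith)
    refine ⟨hxI, ?_⟩
    have hW : H * DD0 κ c A T < ∫ t in (x - H)..(x + H), V κ c A T t := by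
      by_contra h
      push Not at h
      exact n1 ⟨hx, h⟩
    have hbad : ∫ t in Icc (x - H) (x + H), f t ≤ H * DD0 κ c A T / 2 := by
      by_contra h
      push Not at h
      exact n2 ⟨⟨hx1.le, hx2.le⟩, h⟩
    have key := good_window (A := A) (D := D) (e := e) hκ.le hκ1 hδ10.le (by rw [hδ1d]; linarith) hc0 hc1.le hC1
      (by linarith) hℓC hT0 h5 v1 v2 i2 hGm hxI hW hbad
    have hs2 : sc c T ≤ c * ℓ + C1 := by
      have := (abs_le.mp v1).2
      linarith
    have hs1 : c * ℓ - C1 ≤ sc c T := by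
      have := (abs_le.mp v1).1
      linarith
    have k1 : C1 ≤ δ1 * ℓ := by
      rw [div_le_iff₀ hδ10] at h18
      linarith
    refine le_trans ?_ (key.trans (measure_mono (inter_subset_inter_left _ ?_)))
    · apply ENNReal.ofReal_le_ofReal
      refine mul_le_mul_of_nonneg_left ?_ hH0.le
      rw [← exp_LL hL0]
      have f1 : 0 < 27 * C1 / 4 := by positivity
      have f2 : Real.log (27 * C1 / 4) + C1 ≤ δ1 * ℓ := by
        rw [div_le_iff₀ hδ10] at h17
        linarith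
      have f3 : 4 / (27 * C1) = Real.exp (-Real.log (27 * C1 / 4)) := by
        rw [Real.exp_neg, Real.exp_log f1, inv_div]
      rw [f3, ← Real.exp_add]
      apply Real.exp_le_exp.mpr
      have hκ2 : κ ^ 2 ≤ 1 := pow_le_one₀ hκ.le hκ1
      have f4 : κ ^ 2 * sc c T ≤ κ ^ 2 * ℓ + C1 := by
        calc κ ^ 2 * sc c T ≤ κ ^ 2 * (c * ℓ + C1) := by gcongr
          _ ≤ κ ^ 2 * ℓ + C1 := by
              rw [mul_add]
              have a1 : κ ^ 2 * (c * ℓ) ≤ κ ^ 2 * ℓ :=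
                mul_le_mul_of_nonneg_left (mul_le_of_le_one_left hℓ0.le hc1.le) (sq_nonneg κ)
              have a2 : κ ^ 2 * C1 ≤ 1 * C1 := mul_le_mul_of_nonneg_right hκ2 (by linarith)
              linarith
      have f5 : 2 * κ * (δ1 * ℓ) ≤ 2 * (δ1 * ℓ) := by
        have h0 : 0 ≤ δ1 * ℓ := by positivity
        have := mul_le_mul_of_nonneg_right hκ1 h0
        linarith
      have f6 : δ * ℓ = 8 * (δ1 * ℓ) := by rw [hδ1d]; ring
      have f7 : (-κ ^ 2 - δ) * LL T = -(κ ^ 2 * ℓ) - δ * ℓ := by ring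
      rw [f7]
      have f8 : 0 ≤ δ1 * ℓ := by positivity
      linarith
    · intro t ht
      obtain ⟨⟨ht1, ht2⟩, ht3⟩ := ht
      have hnz : riemannZeta (pt (L ^ (e - 1)) t) ≠ 0 :=
        nz_of_closure (r := 1) (by linarith) hd0 hd2 hDd (subset_closure ht1)
      have hpos : 0 < ‖riemannZeta (pt (L ^ (e - 1)) t)‖ := norm_pos_iff.mpr hnz
      show L ^ (κ - δ) ≤ ‖riemannZeta (pt (L ^ (e - 1)) t)‖
      rw [← Real.exp_log hpos, ← exp_LL hL0]
      apply Real.exp_le_exp.mpr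
      have e1 := (abs_le.mp ht2).1
      have e2 : κ * sc c T - δ1 * ℓ ≤ (Pc c T t).re := by
        have := (Complex.abs_re_le_norm (Pc c T t - ((κ * sc c T : ℝ) : ℂ))).trans ht3
        rw [Complex.sub_re, Complex.ofReal_re] at this
        have := (abs_le.mp this).1
        linarith
      have e3 : κ * ℓ - δ1 * ℓ - C1 ≤ κ * sc c T := by
        calc κ * ℓ - δ1 * ℓ - C1 ≤ κ * (c * ℓ - C1) := by
              rw [hcd]
              have h0 : 0 ≤ δ1 * ℓ := by positivity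
              have a1 := mul_le_mul_of_nonneg_right hκ1 h0
              have a2 : κ * C1 ≤ 1 * C1 := mul_le_mul_of_nonneg_right hκ1 (by linarith)
              linarith [show κ * ((1 - δ1) * ℓ - C1) = κ * ℓ - κ * (δ1 * ℓ) - κ * C1 by ring]
          _ ≤ _ := by gcongr
      have f6 : δ * ℓ = 8 * (δ1 * ℓ) := by rw [hδ1d]; ring
      have f8 : 0 ≤ δ1 * ℓ := by positivity
      have f9 : (κ - δ) * LL T = κ * ℓ - δ * ℓ := by ring
      rw [f9]
      linarith

end

end Pool.Agent.K6.H33.FZ
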