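import Pool.Agent.K6.H33.FZ.Win0

set_option autoImplicit false

/-! The sampling lemma: hits which are spread over the windows are met by most points. -/

namespace Pool.Agent.K6.H33.FZ

open MeasureTheory Set
open scoped ENNReal

noncomputable section

/-- the unit interval of the parameter -/
abbrev I12 : Set ℝ := Icc 1 2

/-- one step -/
theorem step {Φ : ℝ → ℝ} {Hit B : Set ℝ} {r p β e : ℝ} (hΦm : Measurable Φ) (hΦ0 : ∀ x, 0 ≤ Φ x)
    (hΦ1 : ∀ x, Φ x ≤ 1) (hHit : MeasurableSet Hit) (hr : 0 < r) (hp : 0 ≤ p) (hβ : 0 ≤ β) (he : 0 ≤ e)
    (hB : volume B ≤ ENNReal.ofReal β)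
    (hgood : ∀ x ∈ I12, x ∉ B → ENNReal.ofReal (p * (2 * r)) ≤ volume (Hit ∩ Icc (x - r) (x + r)))
    (hosc : ∫⁻ y in I12, ∫⁻ x in Icc (y - r) (y + r), ENNReal.ofReal |Φ x - Φ y| ≤ ENNReal.ofReal (2 * r * e)) :
    p * (∫ x in I12, Φ x) ≤ (∫ x in I12 ∩ Hit, Φ x) + (2 * r + e + p * β) := by
  set F : ℝ → ℝ≥0∞ := fun x => ENNReal.ofReal (Φ x) with hF
  have hFm : Measurable F := ENNReal.measurable_ofReal.comp hΦm
  have hF1 : ∀ x, F x ≤ 1 := fun x => by
    rw [hF]; simp only
    rw [← ENNReal.ofReal_one]
    exact ENNReal.ofReal_le_ofReal (hΦ1 x)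
  set h1 : ℝ → ℝ≥0∞ := Hit.indicator 1 with hh1
  have h1m : Measurable h1 := measurable_one.indicator hHit
  have h1le : ∀ x, h1 x ≤ 1 := fun x => by
    rw [hh1]
    exact indicator_le (fun _ _ => le_rfl) x
  have hvol : ∀ x, volume (Hit ∩ Icc (x - r) (x + r)) = ∫⁻ y, h1 y * kk r x y := by
    intro x
    rw [kk_int, hh1, lintegral_indicator_one hHit, Measure.restrict_apply hHit]
  -- lower bound
  set B' := toMeasurable volume B with hB'
  have hB'm : MeasurableSet B' := measurableSet_toMeasurable _ _
  have hB'v : volume B' ≤ ENNReal.ofReal β := by rw [hB', measure_toMeasurable]; exact hB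
  have low : ENNReal.ofReal (p * (2 * r)) * (∫⁻ x in I12, F x) ≤
      (∫⁻ x in I12, ∫⁻ y, F x * (h1 y * kk r x y)) + ENNReal.ofReal (p * (2 * r) * β) := by
    calc ENNReal.ofReal (p * (2 * r)) * (∫⁻ x in I12, F x) =
          ∫⁻ x in I12, ENNReal.ofReal (p * (2 * r)) * F x := by rw [lintegral_const_mul _ hFm]
      _ ≤ ∫⁻ x in I12, ((∫⁻ y, F x * (h1 y * kk r x y)) + ENNReal.ofReal (p * (2 * r)) * B'.indicator 1 x) := by
          refine setLIntegral_mono' measurableSet_Icc fun x hx => ?_
          by_cases hxB : x ∈ B'
          · rw [indicator_of_mem hxB, Pi.one_apply, mul_one]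
            refine le_add_of_nonneg_of_le (zero_le) ?_
            calc ENNReal.ofReal (p * (2 * r)) * F x ≤ ENNReal.ofReal (p * (2 * r)) * 1 := by
                  gcongr; exact hF1 x
              _ = ENNReal.ofReal (p * (2 * r)) := mul_one _
          · refine le_add_of_le_of_nonneg ?_ (zero_le)
            have hxB2 : x ∉ B := fun h => hxB (subset_toMeasurable _ _ h)
            have := hgood x hx hxB2
            rw [hvol] at this
            have hm : Measurable (fun y => h1 y * kk r x y) := h1m.mul (kk_meas_left r x)
            rw [lintegral_const_mul _ hm, mul_comm]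
            gcongr
      _ = (∫⁻ x in I12, ∫⁻ y, F x * (h1 y * kk r x y)) +
          ∫⁻ x in I12, ENNReal.ofReal (p * (2 * r)) * B'.indicator 1 x := by
          rw [lintegral_add_right _ (((measurable_one.indicator hB'm)).const_mul _)]
      _ ≤ _ := by
          gcongr
          rw [lintegral_const_mul _ (measurable_one.indicator hB'm),
            show ENNReal.ofReal (p * (2 * r) * β) = ENNReal.ofReal (p * (2 * r)) * ENNReal.ofReal β from
              ENNReal.ofReal_mul (by positivity)]
          gcongr
          refine (setLIntegral_le_lintegral _ _).trans ?_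
          rw [lintegral_indicator_one hB'm]
          exact hB'v
  -- the swap
  have swap : ∫⁻ x in I12, ∫⁻ y, F x * (h1 y * kk r x y) = ∫⁻ y, ∫⁻ x in I12, F x * (h1 y * kk r x y) := by
    rw [lintegral_lintegral_swap]
    have : Measurable (fun q : ℝ × ℝ => F q.1 * (h1 q.2 * kk r q.1 q.2)) :=
      (hFm.comp measurable_fst).mul ((h1m.comp measurable_snd).mul (kk_meas r))
    exact this.aemeasurable
  -- upper bound
  have up : ∫⁻ y, ∫⁻ x in I12, F x * (h1 y * kk r x y) ≤
      ENNReal.ofReal (2 * r) * (∫⁻ y in I12 ∩ Hit, F y) + ENNReal.ofReal (2 * r * e) +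
        ENNReal.ofReal (2 * r * (2 * r)) := by
    have hIc : MeasurableSet (I12 : Set ℝ) := measurableSet_Icc
    rw [← lintegral_add_compl _ hIc]
    refine add_le_add ?_ ?_
    · have hi : Measurable (fun y => ENNReal.ofReal (2 * r) * (h1 y * F y)) := (h1m.mul hFm).const_mul _
      calc ∫⁻ y in I12, ∫⁻ x in I12, F x * (h1 y * kk r x y) ≤
            ∫⁻ y in I12, (ENNReal.ofReal (2 * r) * (h1 y * F y) +
              ∫⁻ x in Icc (y - r) (y + r), ENNReal.ofReal |Φ x - Φ y|) := by
            refine lintegral_mono fun y => ?_
            simp only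
            have e1 : ∀ x, F x * (h1 y * kk r x y) = h1 y * (F x * kk r y x) := fun x => by
              rw [kk_comm r x y]; ring
            simp_rw [e1]
            have hm : Measurable (fun x => F x * kk r y x) := hFm.mul (kk_meas_left r y)
            rw [lintegral_const_mul _ hm]
            have e2 : ∫⁻ x in I12, F x * kk r y x ≤ ∫⁻ x in Icc (y - r) (y + r), F x := by
              rw [← kk_int]
              exact setLIntegral_le_lintegral _ _
            have e3 : ∫⁻ x in Icc (y - r) (y + r), F x ≤ ENNReal.ofReal (2 * r) * F y +
                ∫⁻ x in Icc (y - r) (y + r), ENNReal.ofReal |Φ x - Φ y| := by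
              calc ∫⁻ x in Icc (y - r) (y + r), F x ≤
                    ∫⁻ x in Icc (y - r) (y + r), (F y + ENNReal.ofReal |Φ x - Φ y|) := by
                    refine lintegral_mono fun x => ?_
                    simp only [hF]
                    rw [← ENNReal.ofReal_add (hΦ0 y) (abs_nonneg _)]
                    apply ENNReal.ofReal_le_ofReal
                    linarith [le_abs_self (Φ x - Φ y)]
                _ = _ := by
                    rw [lintegral_add_left measurable_const, setLIntegral_const, Real.volume_Icc]
                    congr 1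
                    rw [mul_comm]
                    congr 2
                    ring
            calc h1 y * ∫⁻ x in I12, F x * kk r y x ≤ h1 y * (ENNReal.ofReal (2 * r) * F y +
                  ∫⁻ x in Icc (y - r) (y + r), ENNReal.ofReal |Φ x - Φ y|) := by
                  gcongr; exact e2.trans e3
              _ = ENNReal.ofReal (2 * r) * (h1 y * F y) +
                  h1 y * ∫⁻ x in Icc (y - r) (y + r), ENNReal.ofReal |Φ x - Φ y| := by ring
              _ ≤ _ := by
                  gcongr
                  calc _ ≤ 1 * ∫⁻ x in Icc (y - r) (y + r), ENNReal.ofReal |Φ x - Φ y| := by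
                        gcongr; exact h1le y
                    _ = _ := one_mul _
        _ = (∫⁻ y in I12, ENNReal.ofReal (2 * r) * (h1 y * F y)) +
            ∫⁻ y in I12, ∫⁻ x in Icc (y - r) (y + r), ENNReal.ofReal |Φ x - Φ y| := by
            rw [lintegral_add_left hi]
        _ ≤ _ := by
            refine add_le_add (le_of_eq ?_) hosc
            have hm : Measurable (fun y => h1 y * F y) := h1m.mul hFm
            rw [lintegral_const_mul _ hm]
            congr 1
            have e4 : ∀ y, h1 y * F y = Hit.indicator F y := by
              intro y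
              rw [hh1]
              by_cases hy : y ∈ Hit
              · rw [indicator_of_mem hy, indicator_of_mem hy, Pi.one_apply, one_mul]
              · rw [indicator_of_notMem hy, indicator_of_notMem hy, zero_mul]
            simp_rw [e4]
            rw [lintegral_indicator hHit, Measure.restrict_restrict hHit, inter_comm]
    · calc ∫⁻ y in I12ᶜ, ∫⁻ x in I12, F x * (h1 y * kk r x y) ≤
            ∫⁻ y in I12ᶜ, (Icc (1 - r) (2 + r)).indicator (fun _ => ENNReal.ofReal (2 * r)) y := by
            refine lintegral_mono fun y => ?_
            by_cases hy : y ∈ Icc (1 - r) (2 + r)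
            · rw [indicator_of_mem hy]
              calc ∫⁻ x in I12, F x * (h1 y * kk r x y) ≤ ∫⁻ x in I12, kk r y x := by
                    refine lintegral_mono fun x => ?_
                    simp only
                    rw [kk_comm r x y]
                    calc F x * (h1 y * kk r y x) ≤ 1 * (1 * kk r y x) := by
                          gcongr
                          · exact hF1 x
                          · exact h1le y
                      _ = kk r y x := by rw [one_mul, one_mul]
                _ ≤ _ := kk_vol _ _ _
            · rw [indicator_of_notMem hy]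
              refine le_of_eq ?_
              rw [setLIntegral_congr_fun measurableSet_Icc (g := fun _ => 0)]
              · simp
              · intro x hx
                simp only
                rw [kk_zero hx hy, mul_zero, mul_zero]
        _ = ENNReal.ofReal (2 * r) * volume (Icc (1 - r) (2 + r) ∩ I12ᶜ) := by
            rw [lintegral_indicator measurableSet_Icc, setLIntegral_const,
              Measure.restrict_apply measurableSet_Icc]
        _ ≤ _ := by
            rw [show ENNReal.ofReal (2 * r * (2 * r)) = ENNReal.ofReal (2 * r) * ENNReal.ofReal (2 * r) from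
              ENNReal.ofReal_mul (by linarith)]
            gcongr
            have h2 : Icc (1 - r) (2 + r) ∩ I12ᶜ ⊆ Icc (1 - r) 1 ∪ Icc 2 (2 + r) := by
              rintro y ⟨hy1, hy2⟩
              by_cases h3 : y ≤ 1
              · exact Or.inl ⟨hy1.1, h3⟩
              · push Not at h3
                right
                refine ⟨?_, hy1.2⟩
                by_contra h4
                push Not at h4
                exact hy2 ⟨h3.le, h4.le⟩
            refine (measure_mono h2).trans ((measure_union_le _ _).trans ?_)
            rw [Real.volume_Icc, Real.volume_Icc, ← ENNReal.ofReal_add (by linarith) (by linarith)]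
            apply ENNReal.ofReal_le_ofReal
            linarith
  -- conclusion
  have hint : IntegrableOn Φ I12 := by
    refine Integrable.of_bound hΦm.aestronglyMeasurable 1 (Filter.Eventually.of_forall fun x => ?_)
    rw [Real.norm_of_nonneg (hΦ0 x)]; exact hΦ1 x
  have i1 : ENNReal.ofReal (∫ x in I12, Φ x) = ∫⁻ x in I12, F x :=
    ofReal_integral_eq_lintegral_ofReal hint (Filter.Eventually.of_forall hΦ0)
  have i2 : ENNReal.ofReal (∫ x in I12 ∩ Hit, Φ x) = ∫⁻ x in I12 ∩ Hit, F x :=
    ofReal_integral_eq_lintegral_ofReal (hint.mono_set inter_subset_left) (Filter.Eventually.of_forall hΦ0)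
  have n1 : 0 ≤ ∫ x in I12, Φ x := setIntegral_nonneg measurableSet_Icc fun x _ => hΦ0 x
  have n2 : 0 ≤ ∫ x in I12 ∩ Hit, Φ x := setIntegral_nonneg (measurableSet_Icc.inter hHit) fun x _ => hΦ0 x
  rw [swap] at low
  have key := low.trans (add_le_add up le_rfl)
  rw [← i1, ← i2, ← ENNReal.ofReal_mul (by positivity), ← ENNReal.ofReal_mul (by positivity),
    ← ENNReal.ofReal_add (by positivity) (by positivity), ← ENNReal.ofReal_add (by positivity) (by positivity),
    ← ENNReal.ofReal_add (by positivity) (by positivity), ENNReal.ofReal_le_ofReal_iff (by positivity)] at key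
  have h2r : 0 < 2 * r := by linarith
  refine le_of_mul_le_mul_left ?_ h2r
  calc 2 * r * (p * ∫ x in I12, Φ x) = p * (2 * r) * ∫ x in I12, Φ x := by ring
    _ ≤ _ := key
    _ = _ := by ring

end

end Pool.Agent.K6.H33.FZ
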