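import Pool.Agent.K6.H33.FZ.Coef

set_option autoImplicit false

/-! The windows of the weight. -/

namespace Pool.Agent.K6.H33.FZ

open Pool.Agent.Y745.SW (P_MVB Py pA)
open Pool.Agent.Y745.LD
open Pool.Agent.Y931.LD (cf size KA_le floor_pos yc_ge LL_tendsto)
open MeasureTheory Set Filter

noncomputable section

lemma markov_real {f : ℝ → ℝ} (hf : Continuous f) (hf0 : ∀ x, 0 ≤ f x) {a b ε : ℝ} (hab : a ≤ b) (hε : 0 < ε) :
    volume {x | x ∈ Icc a b ∧ ε ≤ f x} ≤ ENNReal.ofReal ((∫ x in a..b, f x) / ε) := by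
  have hi : IntegrableOn f (Icc a b) := hf.continuousOn.integrableOn_compact isCompact_Icc
  have hm : Measurable (fun x => ENNReal.ofReal (f x)) := ENNReal.measurable_ofReal.comp hf.measurable
  have hε0 : ENNReal.ofReal ε ≠ 0 := by
    rw [Ne, ENNReal.ofReal_eq_zero, not_le]; exact hε
  have h1 : volume {x | x ∈ Icc a b ∧ ε ≤ f x} ≤
      (volume.restrict (Icc a b)) {x | ENNReal.ofReal ε ≤ ENNReal.ofReal (f x)} := by
    rw [Measure.restrict_apply (measurableSet_le measurable_const hm)]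
    exact measure_mono fun x hx => ⟨ENNReal.ofReal_le_ofReal hx.2, hx.1⟩
  refine h1.trans ((meas_ge_le_lintegral_div hm.aemeasurable hε0 ENNReal.ofReal_ne_top).trans ?_)
  rw [← ofReal_integral_eq_lintegral_ofReal hi (Filter.Eventually.of_forall hf0),
    ← ENNReal.ofReal_div_of_pos hε, intervalIntegral.integral_of_le hab, ← integral_Icc_eq_integral_Ioc]

lemma win_cont {f : ℝ → ℝ} (hf : Continuous f) (H : ℝ) :
    Continuous (fun x : ℝ => ∫ t in (x - H)..(x + H), f t) := by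
  have h1 : ∀ a b, IntervalIntegrable f volume a b := fun a b => hf.intervalIntegrable a b
  have h2 : Continuous (fun x : ℝ => ∫ t in (0:ℝ)..x, f t) := intervalIntegral.continuous_primitive h1 0
  have h3 : (fun x : ℝ => ∫ t in (x - H)..(x + H), f t) =
      fun x => (∫ t in (0:ℝ)..(x + H), f t) - ∫ t in (0:ℝ)..(x - H), f t := by
    funext x
    rw [intervalIntegral.integral_interval_sub_left (h1 _ _) (h1 _ _)]
  rw [h3]
  exact (h2.comp (by fun_prop)).sub (h2.comp (by fun_prop))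

lemma V_cont' (κ c A T : ℝ) : Continuous (fun t => V κ c A T t) := by
  unfold V Qk tex Pc Py
  have h : Continuous (fun t : ℝ => ∑ p ∈ (Finset.Icc 1 ⌊yc c T⌋₊).filter Nat.Prime, (p : ℂ) ^ (-(1 / 2 + t * Complex.I))) := by
    refine continuous_finsetSum _ fun p hp => ?_
    have hp' : (p : ℂ) ≠ 0 := by
      have := (Finset.mem_filter.1 hp).2.pos
      exact_mod_cast this.ne'
    exact Continuous.const_cpow (by fun_prop) (Or.inl hp')
  fun_prop

lemma V_nn (κ c A T t : ℝ) : 0 ≤ V κ c A T t := sq_nonneg _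

/-- the half length of the windows -/
def HH (T : ℝ) : ℝ := Real.log T ^ 12

lemma NN0_le {c A : ℝ} (hc : 0 < c) (hc1 : c < 1) (hA : 0 ≤ A) :
    ∀ᶠ T : ℝ in atTop, (NN0 c A T : ℝ) ≤ Real.exp (Real.log T / 60) := by
  filter_upwards [size c A 0 (1 / 60) hc hc1 hA le_rfl (by norm_num), LL_tendsto.eventually_ge_atTop 0,
    Real.tendsto_log_atTop.eventually_ge_atTop 0] with T h1 h2 h3
  have hy1 : 1 ≤ yc c T := yc_ge h3
  unfold NN0
  push_cast
  calc (⌊yc c T⌋₊ : ℝ) ^ (KA A T) ≤ (yc c T) ^ (KA A T) :=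
        pow_le_pow_left₀ (Nat.cast_nonneg _) (Nat.floor_le (by linarith)) _
    _ = Real.exp ((KA A T : ℝ) * Real.log T ^ c) := by
        unfold yc
        rw [← Real.exp_nat_mul]
    _ ≤ Real.exp (Real.log T / 60) := by
        refine Real.exp_le_exp.2 ?_
        have h6 := KA_le (mul_nonneg hA h2)
        have h7 : 0 ≤ Real.log T ^ c := Real.rpow_nonneg h3 c
        rw [zero_add] at h1
        nlinarith

lemma ev_exp (k : ℕ) (a : ℝ) (ha : 0 < a) (C : ℝ) : ∀ᶠ T : ℝ in atTop, C * Real.log T ^ k ≤ Real.exp (a * Real.log T) := by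
  have h1 : Tendsto (fun x : ℝ => Real.exp (a * x) / x ^ k) atTop atTop := by
    have h2 := tendsto_exp_mul_div_rpow_atTop (k : ℝ) a ha
    refine h2.congr fun x => ?_
    rw [Real.rpow_natCast]
  have h3 := Real.tendsto_log_atTop.eventually (h1.eventually_ge_atTop C)
  filter_upwards [h3, Real.tendsto_log_atTop.eventually_gt_atTop 0] with T h4 h5
  rwa [le_div_iff₀ (by positivity)] at h4

/-- **the windows of the weight** -/
theorem vwin {κ c A : ℝ} (hκ : 0 ≤ κ) (hκ1 : κ ≤ 1) (hc : 0 < c) (hc1 : c < 1) (hA : 0 ≤ A) :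
    ∀ᶠ T : ℝ in atTop, volume {x | x ∈ Icc T (2 * T) ∧
      (∫ t in (x - HH T)..(x + HH T), V κ c A T t) ≤ HH T * DD0 κ c A T} ≤ ENNReal.ofReal (T / Real.log T) := by
  filter_upwards [NN0_le hc hc1 hA, Real.tendsto_log_atTop.eventually_ge_atTop 40, eventually_gt_atTop 1,
    ev_exp 1 (9 / 10) (by norm_num) 16] with T hN hL hT he
  set L := Real.log T with hLd
  have hL0 : 0 < L := by linarith
  have hy1 : 1 ≤ yc c T := yc_ge hL0.le
  have hTe : T = Real.exp L := (Real.exp_log (by linarith)).symm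
  set N := NN0 c A T with hNd
  set D := DD0 κ c A T with hD
  set a : ℕ → ℝ := cf (yc c T) (KA A T) (ce κ) with ha
  have hN1 : 1 ≤ N := NN0_pos hy1
  have hD1 : 1 ≤ D := DD0_ge hy1
  set H := HH T with hH
  have hH1 : 1 ≤ H := by
    rw [hH]; unfold HH
    exact one_le_pow₀ (by linarith)
  have hH0 : 0 < H := by linarith
  have hv := var_main N a (fun n hn => cf_bd (by linarith) hκ hκ1 _ n (by
    rw [Finset.mem_Icc] at hn; omega)) (H := H) (T1 := T) (T2 := 2 * T) hH1 (by linarith) hN1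
  have e1 : ∀ t, ‖DQ N a t‖ ^ 2 = V κ c A T t := fun t => (V_eq hy1 t).symm
  simp_rw [e1] at hv
  have e2 : ∑ n ∈ Finset.Icc 1 N, a n ^ 2 = D := rfl
  rw [e2] at hv
  set f : ℝ → ℝ := fun x => ((∫ t in (x - H)..(x + H), V κ c A T t) - 2 * H * D) ^ 2 with hf
  have hfc : Continuous f := ((win_cont (V_cont' κ c A T) H).sub continuous_const).pow 2
  have hm := markov_real hfc (fun x => sq_nonneg _) (a := T) (b := 2 * T) (ε := H ^ 2 * D ^ 2) (by linarith)
    (by positivity)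
  have hsub : {x | x ∈ Icc T (2 * T) ∧ (∫ t in (x - H)..(x + H), V κ c A T t) ≤ H * D} ⊆
      {x | x ∈ Icc T (2 * T) ∧ H ^ 2 * D ^ 2 ≤ f x} := by
    rintro x ⟨hx1, hx2⟩
    refine ⟨hx1, ?_⟩
    simp only [hf]
    have h3 : H * D ≤ 2 * H * D - ∫ t in (x - H)..(x + H), V κ c A T t := by linarith
    have h4 : 0 ≤ H * D := by positivity
    nlinarith
  refine (measure_mono hsub).trans (hm.trans (ENNReal.ofReal_le_ofReal ?_))
  rw [div_le_iff₀ (by positivity)]
  refine hv.trans ?_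
  -- sizes
  have hlogN : Real.log N ≤ L / 60 := by
    have : (0:ℝ) < N := by exact_mod_cast hN1
    calc Real.log N ≤ Real.log (Real.exp (L / 60)) := Real.log_le_log this hN
      _ = L / 60 := Real.log_exp _
  have hlogN0 : 0 ≤ Real.log N := Real.log_natCast_nonneg N
  have h1 : (1 + Real.log N) ^ 4 ≤ L ^ 4 := pow_le_pow_left₀ (by linarith) (by linarith) 4
  have h2 : Real.sqrt H = L ^ 6 := by
    rw [hH]; unfold HH
    rw [show L ^ 12 = (L ^ 6) ^ 2 by ring, Real.sqrt_sq (by positivity)]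
  have h3 : (N:ℝ) ^ 6 ≤ Real.exp (L / 10) := by
    calc (N:ℝ) ^ 6 ≤ Real.exp (L / 60) ^ 6 := pow_le_pow_left₀ (Nat.cast_nonneg _) hN 6
      _ = Real.exp (L / 10) := by rw [← Real.exp_nat_mul]; congr 1; push_cast; ring
  have h4 : (2 * T - T) * (5 * (1 + Real.log N) ^ 4 / Real.sqrt H) ≤ T * (5 / L ^ 2) := by
    rw [h2]
    have h5 : 5 * (1 + Real.log N) ^ 4 / L ^ 6 ≤ 5 / L ^ 2 := by
      rw [div_le_div_iff₀ (by positivity) (by positivity)]
      calc 5 * (1 + Real.log N) ^ 4 * L ^ 2 ≤ 5 * L ^ 4 * L ^ 2 := by gcongr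
        _ = 5 * L ^ 6 := by ring
    calc (2 * T - T) * (5 * (1 + Real.log N) ^ 4 / L ^ 6) = T * (5 * (1 + Real.log N) ^ 4 / L ^ 6) := by ring
      _ ≤ _ := mul_le_mul_of_nonneg_left h5 (by linarith)
  have h6 : 2 * (N:ℝ) ^ 6 ≤ T / (8 * L) := by
    rw [pow_one] at he
    have h7 : 16 * L * Real.exp (L / 10) ≤ Real.exp (9 / 10 * L) * Real.exp (L / 10) :=
      mul_le_mul_of_nonneg_right he (Real.exp_pos _).le
    rw [← Real.exp_add, show 9 / 10 * L + L / 10 = L by ring, ← hTe] at h7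
    rw [le_div_iff₀ (by positivity)]
    calc 2 * (N:ℝ) ^ 6 * (8 * L) = 16 * L * (N:ℝ) ^ 6 := by ring
      _ ≤ 16 * L * Real.exp (L / 10) := by gcongr
      _ ≤ T := h7
  have h8 : T * (5 / L ^ 2) ≤ T / (8 * L) := by
    rw [mul_div_assoc', div_le_div_iff₀ (by positivity) (by positivity)]
    have : 40 * L ≤ L ^ 2 := by nlinarith
    have hT0 : 0 < T := by linarith
    calc T * 5 * (8 * L) = T * (40 * L) := by ring
      _ ≤ T * L ^ 2 := by gcongr
  have hD2 : 1 ≤ D ^ 2 := one_le_pow₀ hD1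
  have hT0 : 0 < T := by linarith
  calc 4 * H ^ 2 * ((2 * T - T) * (5 * (1 + Real.log N) ^ 4 / Real.sqrt H) + 2 * (N:ℝ) ^ 6) ≤
        4 * H ^ 2 * (T / (8 * L) + T / (8 * L)) := by
        gcongr
        exact h4.trans h8
    _ = T / L * (H ^ 2 * 1) := by field_simp; ring
    _ ≤ T / L * (H ^ 2 * D ^ 2) := by gcongr

end

end Pool.Agent.K6.H33.FZ
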