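import Mathlib

set_option autoImplicit false

/-! Windows of the squares of Dirichlet polynomials: the variance of the window averages. -/

namespace Pool.Agent.K6.H33.FZ

open MeasureTheory Finset

noncomputable section

lemma int_cos (T1 T2 l : ℝ) (hl : l ≠ 0) :
    |∫ c in T1..T2, Real.cos (c * l)| ≤ 2 / |l| := by
  have h1 : ∫ c in T1..T2, Real.cos (c * l) = (Real.sin (T2 * l) - Real.sin (T1 * l)) / l := by
    rw [intervalIntegral.integral_comp_mul_right (fun x => Real.cos x) hl, integral_cos]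
    rw [smul_eq_mul]; field_simp
  rw [h1, abs_div]
  refine div_le_div_of_nonneg_right ?_ (abs_nonneg _)
  have h2 := Real.abs_sin_le_one (T2 * l)
  have h3 := Real.abs_sin_le_one (T1 * l)
  calc |Real.sin (T2 * l) - Real.sin (T1 * l)| ≤ |Real.sin (T2 * l)| + |Real.sin (T1 * l)| := abs_sub _ _
    _ ≤ 2 := by linarith

/-- the square of a cosine sum -/
lemma cos_sum_sq {ι : Type*} (P : Finset ι) (b l : ι → ℝ) (c : ℝ) :
    (∑ p ∈ P, b p * Real.cos (c * l p)) ^ 2 + (∑ p ∈ P, b p * Real.sin (c * l p)) ^ 2 =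
      ∑ p ∈ P, ∑ r ∈ P, b p * b r * Real.cos (c * (l p - l r)) := by
  rw [sq, sq, sum_mul_sum, sum_mul_sum, ← sum_add_distrib]
  refine sum_congr rfl fun p _ => ?_
  rw [← sum_add_distrib]
  refine sum_congr rfl fun r _ => ?_
  rw [mul_sub, Real.cos_sub]
  ring

open Classical in
theorem ms_cos {ι : Type*} (P : Finset ι) (b l : ι → ℝ) {T1 T2 δ : ℝ} (hT : T1 ≤ T2) (hδ : 0 < δ)
    (hsep : ∀ p ∈ P, ∀ r ∈ P, l p ≠ l r → δ ≤ |l p - l r|) :
    ∫ c in T1..T2, (∑ p ∈ P, b p * Real.cos (c * l p)) ^ 2 ≤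
      (T2 - T1) * (∑ p ∈ P, ∑ r ∈ P, if l p = l r then |b p| * |b r| else 0) +
        2 / δ * (∑ p ∈ P, |b p|) ^ 2 := by
  have h1 : ∫ c in T1..T2, (∑ p ∈ P, b p * Real.cos (c * l p)) ^ 2 ≤
      ∫ c in T1..T2, ∑ p ∈ P, ∑ r ∈ P, b p * b r * Real.cos (c * (l p - l r)) := by
    refine intervalIntegral.integral_mono_on hT ?_ ?_ ?_
    · exact Continuous.intervalIntegrable (by fun_prop) _ _
    · exact Continuous.intervalIntegrable (by fun_prop) _ _
    · intro c _
      rw [← cos_sum_sq]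
      linarith [sq_nonneg (∑ p ∈ P, b p * Real.sin (c * l p))]
  refine h1.trans ?_
  rw [intervalIntegral.integral_finsetSum (fun p _ => Continuous.intervalIntegrable (by fun_prop) _ _)]
  have h2 : ∀ p ∈ P, (∫ c in T1..T2, ∑ r ∈ P, b p * b r * Real.cos (c * (l p - l r))) ≤
      ∑ r ∈ P, ((T2 - T1) * (if l p = l r then |b p| * |b r| else 0) + 2 / δ * (|b p| * |b r|)) := by
    intro p hp
    rw [intervalIntegral.integral_finsetSum (fun r _ => Continuous.intervalIntegrable (by fun_prop) _ _)]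
    refine sum_le_sum fun r hr => ?_
    rw [intervalIntegral.integral_const_mul]
    have hb : 0 ≤ |b p| * |b r| := by positivity
    have hbb : b p * b r ≤ |b p| * |b r| := by
      rw [← abs_mul]; exact le_abs_self _
    by_cases h : l p = l r
    · rw [if_pos h, h, sub_self]
      simp only [mul_zero, Real.cos_zero, intervalIntegral.integral_const, smul_eq_mul, mul_one]
      have h3 : 0 ≤ 2 / δ * (|b p| * |b r|) := by positivity
      have h4 : b p * b r * (T2 - T1) ≤ (|b p| * |b r|) * (T2 - T1) :=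
        mul_le_mul_of_nonneg_right hbb (by linarith)
      linarith
    · rw [if_neg h, mul_zero, zero_add]
      have h3 := int_cos T1 T2 (l p - l r) (sub_ne_zero.mpr h)
      have h4 := hsep p hp r hr h
      have h5 : 2 / |l p - l r| ≤ 2 / δ := div_le_div_of_nonneg_left (by norm_num) hδ h4
      calc b p * b r * (∫ c in T1..T2, Real.cos (c * (l p - l r))) ≤
            |b p * b r * (∫ c in T1..T2, Real.cos (c * (l p - l r)))| := le_abs_self _
        _ = (|b p| * |b r|) * |∫ c in T1..T2, Real.cos (c * (l p - l r))| := by rw [abs_mul, abs_mul]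
        _ ≤ (|b p| * |b r|) * (2 / δ) := mul_le_mul_of_nonneg_left (h3.trans h5) hb
        _ = _ := by ring
  refine (sum_le_sum h2).trans (le_of_eq ?_)
  simp_rw [sum_add_distrib, ← mul_sum]
  rw [sq, sum_mul]

/-- the average of a cosine over a window -/
lemma win_cos (c H l : ℝ) (hH : 0 < H) :
    ∫ t in (c - H)..(c + H), Real.cos (t * l) = 2 * H * (Real.sinc (H * l) * Real.cos (c * l)) := by
  by_cases hl : l = 0
  · subst hl
    simp
    ring
  · rw [intervalIntegral.integral_comp_mul_right (fun x => Real.cos x) hl, integral_cos, smul_eq_mul,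
      Real.sinc_of_ne_zero (mul_ne_zero hH.ne' hl)]
    have h1 : Real.sin ((c + H) * l) - Real.sin ((c - H) * l) = 2 * Real.sin (H * l) * Real.cos (c * l) := by
      rw [show (c + H) * l = c * l + H * l by ring, show (c - H) * l = c * l - H * l by ring,
        Real.sin_add, Real.sin_sub]
      ring
    rw [h1]
    field_simp

/-- the difference of the logarithms -/
def lm (p : ℕ × ℕ) : ℝ := Real.log p.1 - Real.log p.2

lemma log_sep {u v : ℕ} (hu : 0 < u) (hv : 0 < v) (h : u ≠ v) {M : ℝ} (hu1 : (u : ℝ) ≤ M) (hv1 : (v : ℝ) ≤ M) :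
    1 / M ≤ |Real.log u - Real.log v| := by
  have key : ∀ u v : ℕ, 0 < v → v < u → (u : ℝ) ≤ M → 1 / M ≤ Real.log u - Real.log v := by
    intro u v hv h hu1
    have hu0 : (0:ℝ) < u := by exact_mod_cast hv.trans h
    have hv0 : (0:ℝ) < v := by exact_mod_cast hv
    have h1 := Real.add_one_le_exp (Real.log v - Real.log u)
    rw [Real.exp_sub, Real.exp_log hv0, Real.exp_log hu0] at h1
    have h2 : (v:ℝ) / u ≤ 1 - 1 / u := by
      rw [div_le_iff₀ hu0, sub_mul, one_mul, div_mul_cancel₀ _ hu0.ne']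
      have : (v:ℝ) + 1 ≤ u := by exact_mod_cast h
      linarith
    have h3 : 1 / M ≤ 1 / u := one_div_le_one_div_of_le hu0 hu1
    linarith
  rcases lt_or_gt_of_ne h with h1 | h1
  · rw [abs_sub_comm]
    exact (key v u hu h1 hv1).trans (le_abs_self _)
  · exact (key u v hv h1 hu1).trans (le_abs_self _)

lemma lm_eq_iff {p r : ℕ × ℕ} (hp1 : 0 < p.1) (hp2 : 0 < p.2) (hr1 : 0 < r.1) (hr2 : 0 < r.2) :
    lm p = lm r ↔ p.1 * r.2 = r.1 * p.2 := by
  have a1 : (p.1:ℝ) ≠ 0 := by exact_mod_cast hp1.ne'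
  have a2 : (p.2:ℝ) ≠ 0 := by exact_mod_cast hp2.ne'
  have a3 : (r.1:ℝ) ≠ 0 := by exact_mod_cast hr1.ne'
  have a4 : (r.2:ℝ) ≠ 0 := by exact_mod_cast hr2.ne'
  have e1 : lm p = lm r ↔ Real.log ((p.1 * r.2 : ℕ) : ℝ) = Real.log ((r.1 * p.2 : ℕ) : ℝ) := by
    push_cast
    rw [Real.log_mul a1 a4, Real.log_mul a3 a2]
    unfold lm
    constructor <;> intro h <;> linarith
  rw [e1]
  constructor
  · intro h
    have h1 := Real.log_injOn_pos (Set.mem_Ioi.mpr (by exact_mod_cast Nat.mul_pos hp1 hr2))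
      (Set.mem_Ioi.mpr (by exact_mod_cast Nat.mul_pos hr1 hp2)) h
    exact_mod_cast h1
  · intro h; rw [h]

lemma lm_sep {X : ℕ} {p r : ℕ × ℕ} (hp1 : p.1 ∈ Icc 1 X) (hp2 : p.2 ∈ Icc 1 X) (hr1 : r.1 ∈ Icc 1 X)
    (hr2 : r.2 ∈ Icc 1 X) (h : lm p ≠ lm r) : 1 / (X:ℝ) ^ 2 ≤ |lm p - lm r| := by
  rw [mem_Icc] at hp1 hp2 hr1 hr2
  have h' : p.1 * r.2 ≠ r.1 * p.2 := fun h2 => h ((lm_eq_iff (by omega) (by omega) (by omega) (by omega)).mpr h2)
  have a1 : (p.1:ℝ) ≠ 0 := by exact_mod_cast (show p.1 ≠ 0 by omega)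
  have a2 : (p.2:ℝ) ≠ 0 := by exact_mod_cast (show p.2 ≠ 0 by omega)
  have a3 : (r.1:ℝ) ≠ 0 := by exact_mod_cast (show r.1 ≠ 0 by omega)
  have a4 : (r.2:ℝ) ≠ 0 := by exact_mod_cast (show r.2 ≠ 0 by omega)
  have h1 := log_sep (u := p.1 * r.2) (v := r.1 * p.2) (M := (X:ℝ) ^ 2)
    (Nat.mul_pos (by omega) (by omega)) (Nat.mul_pos (by omega) (by omega)) h'
    (by rw [sq]; exact_mod_cast Nat.mul_le_mul hp1.2 hr2.2) (by rw [sq]; exact_mod_cast Nat.mul_le_mul hr1.2 hp2.2)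
  refine h1.trans (le_of_eq ?_)
  push_cast
  rw [Real.log_mul a1 a4, Real.log_mul a3 a2]
  unfold lm
  congr 1; ring

end

end Pool.Agent.K6.H33.FZ
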