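import Pool.Agent.K6.H33.FZ.Var

set_option autoImplicit false

/-! The diagonal contribution to the variance of window averages. -/

namespace Pool.Agent.K6.H33.FZ

open MeasureTheory Finset

noncomputable section

/-- the off-diagonal pairs -/
def PP (X : ℕ) : Finset (ℕ × ℕ) := ((Icc 1 X) ×ˢ (Icc 1 X)).filter fun p => p.1 ≠ p.2

lemma mem_PP {X : ℕ} {p : ℕ × ℕ} : p ∈ PP X ↔ (1 ≤ p.1 ∧ p.1 ≤ X) ∧ (1 ≤ p.2 ∧ p.2 ≤ X) ∧ p.1 ≠ p.2 := by
  unfold PP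
  rw [mem_filter, mem_product, mem_Icc, mem_Icc]
  tauto

/-- the reduced pair -/
def red (p : ℕ × ℕ) : ℕ × ℕ := (p.1 / Nat.gcd p.1 p.2, p.2 / Nat.gcd p.1 p.2)

lemma red_facts {p : ℕ × ℕ} (h1 : 1 ≤ p.1) :
    p.1 = Nat.gcd p.1 p.2 * (red p).1 ∧ p.2 = Nat.gcd p.1 p.2 * (red p).2 ∧
      Nat.Coprime (red p).1 (red p).2 ∧ 1 ≤ Nat.gcd p.1 p.2 := by
  have hg : 0 < Nat.gcd p.1 p.2 := Nat.gcd_pos_of_pos_left _ h1
  refine ⟨(Nat.mul_div_cancel' (Nat.gcd_dvd_left _ _)).symm, (Nat.mul_div_cancel' (Nat.gcd_dvd_right _ _)).symm,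
    Nat.coprime_div_gcd_div_gcd hg, hg⟩

lemma coprime_eq {a b c d : ℕ} (h1 : Nat.Coprime a b) (h2 : Nat.Coprime c d) (h : a * d = c * b) (ha : 0 < a) :
    a = c ∧ b = d := by
  have h3 : a ∣ c := h1.dvd_of_dvd_mul_right (Dvd.intro _ h)
  have h4 : c ∣ a := h2.dvd_of_dvd_mul_right (Dvd.intro _ h.symm)
  have h5 : a = c := Nat.dvd_antisymm h3 h4
  subst h5
  exact ⟨rfl, (Nat.eq_of_mul_eq_mul_left ha h).symm⟩

lemma red_eq {p r : ℕ × ℕ} (hp1 : 1 ≤ p.1) (hr1 : 1 ≤ r.1)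
    (h : p.1 * r.2 = r.1 * p.2) : red p = red r := by
  obtain ⟨a1, a2, a3, a4⟩ := red_facts hp1
  obtain ⟨b1, b2, b3, b4⟩ := red_facts hr1
  set g := Nat.gcd p.1 p.2
  set g' := Nat.gcd r.1 r.2
  have hr1p : 0 < (red p).1 := by
    rcases Nat.eq_zero_or_pos (red p).1 with h0 | h0
    · rw [h0, mul_zero] at a1; omega
    · exact h0
  have h1 : (red p).1 * (red r).2 = (red r).1 * (red p).2 := by
    have h2 : (g * g') * ((red p).1 * (red r).2) = (g * g') * ((red r).1 * (red p).2) := by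
      calc (g * g') * ((red p).1 * (red r).2) = (g * (red p).1) * (g' * (red r).2) := by ring
        _ = p.1 * r.2 := by rw [← a1, ← b2]
        _ = r.1 * p.2 := h
        _ = (g' * (red r).1) * (g * (red p).2) := by rw [← a2, ← b1]
        _ = _ := by ring
    exact Nat.eq_of_mul_eq_mul_left (Nat.mul_pos a4 b4) h2
  obtain ⟨h2, h3⟩ := coprime_eq a3 b3 h1 hr1p
  exact Prod.ext h2 h3

lemma lm_red {p : ℕ × ℕ} (hp1 : 1 ≤ p.1) (hp2 : 1 ≤ p.2) : lm (red p) = lm p := by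
  obtain ⟨a1, a2, a3, a4⟩ := red_facts hp1
  have h1 : 0 < (red p).1 := by
    rcases Nat.eq_zero_or_pos (red p).1 with h0 | h0
    · rw [h0, mul_zero] at a1; omega
    · exact h0
  have h2 : 0 < (red p).2 := by
    rcases Nat.eq_zero_or_pos (red p).2 with h0 | h0
    · rw [h0, mul_zero] at a2; omega
    · exact h0
  rw [lm_eq_iff h1 h2 (by omega) (by omega)]
  calc (red p).1 * p.2 = (red p).1 * (Nat.gcd p.1 p.2 * (red p).2) := by rw [← a2]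
    _ = (Nat.gcd p.1 p.2 * (red p).1) * (red p).2 := by ring
    _ = p.1 * (red p).2 := by rw [← a1]

/-- the sum over the pairs of pairs with the same ratio -/
theorem quad_sum (X : ℕ) (w : ℝ → ℝ) (hw : ∀ x, 0 ≤ w x) :
    ∑ q ∈ ((PP X) ×ˢ (PP X)).filter (fun q => lm q.1 = lm q.2),
      (1 / Real.sqrt ((q.1.1 : ℝ) * q.1.2 * (q.2.1 * q.2.2))) * w (lm q.1) ≤
    (∑ g ∈ Icc 1 X, (1 / (g:ℝ))) ^ 2 * ∑ p ∈ PP X, (1 / ((p.1 : ℝ) * p.2)) * w (lm p) := by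
  classical
  set S := ((PP X) ×ˢ (PP X)).filter (fun q => lm q.1 = lm q.2) with hS
  set φ : (ℕ × ℕ) × (ℕ × ℕ) → (ℕ × ℕ) × (ℕ × ℕ) := fun q =>
    ((Nat.gcd q.1.1 q.1.2, Nat.gcd q.2.1 q.2.2), red q.1) with hφ
  set F : (ℕ × ℕ) × (ℕ × ℕ) → ℝ := fun z =>
    ((1 / (z.1.1:ℝ)) * (1 / (z.1.2:ℝ))) * ((1 / ((z.2.1 : ℝ) * z.2.2)) * w (lm z.2)) with hF
  have hmem : ∀ q ∈ S, q.1 ∈ PP X ∧ q.2 ∈ PP X ∧ lm q.1 = lm q.2 := by
    intro q hq
    rw [hS, mem_filter, mem_product] at hq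
    exact ⟨hq.1.1, hq.1.2, hq.2⟩
  have hredeq : ∀ q ∈ S, red q.1 = red q.2 := by
    intro q hq
    obtain ⟨h1, h2, h3⟩ := hmem q hq
    rw [mem_PP] at h1 h2
    exact red_eq h1.1.1 h2.1.1
      ((lm_eq_iff h1.1.1 h1.2.1.1 h2.1.1 h2.2.1.1).mp h3)
  have hinj : Set.InjOn φ S := by
    intro q hq r hr h
    have e1 := hredeq q hq
    have e2 := hredeq r hr
    obtain ⟨q1, q2, -⟩ := hmem q hq
    obtain ⟨r1, r2, -⟩ := hmem r hr
    rw [mem_PP] at q1 q2 r1 r2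
    simp only [hφ, Prod.mk.injEq] at h
    obtain ⟨⟨h1, h2⟩, h3⟩ := h
    obtain ⟨a1, a2, -, -⟩ := red_facts q1.1.1
    obtain ⟨b1, b2, -, -⟩ := red_facts q2.1.1
    obtain ⟨c1, c2, -, -⟩ := red_facts r1.1.1
    obtain ⟨d1, d2, -, -⟩ := red_facts r2.1.1
    refine Prod.ext (Prod.ext ?_ ?_) (Prod.ext ?_ ?_)
    · rw [a1, c1, h1, h3]
    · rw [a2, c2, h1, h3]
    · rw [b1, d1, h2, ← e1, ← e2, h3]
    · rw [b2, d2, h2, ← e1, ← e2, h3]
  have hval : ∀ q ∈ S, (1 / Real.sqrt ((q.1.1 : ℝ) * q.1.2 * (q.2.1 * q.2.2))) * w (lm q.1) = F (φ q) := by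
    intro q hq
    have e1 := hredeq q hq
    obtain ⟨q1, q2, -⟩ := hmem q hq
    rw [mem_PP] at q1 q2
    obtain ⟨a1, a2, -, a4⟩ := red_facts q1.1.1
    obtain ⟨b1, b2, -, b4⟩ := red_facts q2.1.1
    rw [← e1] at b1 b2
    simp only [hF, hφ]
    rw [lm_red q1.1.1 q1.2.1.1]
    set g := Nat.gcd q.1.1 q.1.2
    set g' := Nat.gcd q.2.1 q.2.2
    set a := (red q.1).1
    set b := (red q.1).2
    have e2 : (q.1.1 : ℝ) * q.1.2 * (q.2.1 * q.2.2) = ((g:ℝ) * g' * (a * b)) ^ 2 := by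
      rw [a1, a2, b1, b2]; push_cast; ring
    rw [e2, Real.sqrt_sq (by positivity)]
    simp only [one_div, mul_inv]
    ring
  have hto : ∀ q ∈ S, φ q ∈ ((Icc 1 X) ×ˢ (Icc 1 X)) ×ˢ (PP X) := by
    intro q hq
    obtain ⟨q1, q2, -⟩ := hmem q hq
    rw [mem_PP] at q1 q2
    obtain ⟨a1, a2, -, a4⟩ := red_facts q1.1.1
    obtain ⟨b1, b2, -, b4⟩ := red_facts q2.1.1
    rw [mem_product, mem_product, mem_Icc, mem_Icc, mem_PP]
    simp only [hφ]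
    set g := Nat.gcd q.1.1 q.1.2
    set g' := Nat.gcd q.2.1 q.2.2
    set a := (red q.1).1
    set b := (red q.1).2
    have ha : 0 < a := by
      rcases Nat.eq_zero_or_pos a with h0 | h0
      · rw [h0, mul_zero] at a1; omega
      · exact h0
    have hb : 0 < b := by
      rcases Nat.eq_zero_or_pos b with h0 | h0
      · rw [h0, mul_zero] at a2; omega
      · exact h0
    refine ⟨⟨⟨a4, (Nat.gcd_le_left _ q1.1.1).trans q1.1.2⟩, ⟨b4, (Nat.gcd_le_left _ q2.1.1).trans q2.1.2⟩⟩,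
      ⟨ha, ?_⟩, ⟨hb, ?_⟩, ?_⟩
    · exact (Nat.le_mul_of_pos_left a a4).trans (a1 ▸ q1.1.2)
    · exact (Nat.le_mul_of_pos_left b a4).trans (a2 ▸ q1.2.1.2)
    · intro h
      exact q1.2.2 (by rw [a1, a2, h])
  rw [sum_congr rfl hval, ← sum_image (f := F) hinj]
  have hFn : ∀ z, 0 ≤ F z := fun z => by
    simp only [hF]
    have := hw (lm z.2)
    positivity
  have hsub : image φ S ⊆ ((Icc 1 X) ×ˢ (Icc 1 X)) ×ˢ (PP X) := by
    intro z hz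
    rw [mem_image] at hz
    obtain ⟨q, hq, rfl⟩ := hz
    exact hto q hq
  refine (sum_le_sum_of_subset_of_nonneg hsub fun z _ _ => hFn z).trans (le_of_eq ?_)
  rw [sum_product]
  simp only [hF]
  simp_rw [← mul_sum]
  rw [← sum_mul, sum_product]
  simp_rw [← mul_sum]
  rw [← sum_mul, sq]

/-- harmonic sums -/
lemma harm (X : ℕ) : ∑ g ∈ Icc 1 X, (1 / (g:ℝ)) ≤ 1 + Real.log X := by
  have h := harmonic_le_one_add_log X
  have e : ((harmonic X : ℚ) : ℝ) = ∑ g ∈ Icc 1 X, (1 / (g:ℝ)) := by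
    rw [harmonic_eq_sum_Icc]
    push_cast
    simp
  rw [← e]; exact h

end

end Pool.Agent.K6.H33.FZ
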