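import Pool.Agent.K6.H33.FZ.Var2

set_option autoImplicit false

/-! The variance of the window averages of the square of a Dirichlet polynomial. -/

namespace Pool.Agent.K6.H33.FZ

open MeasureTheory Finset

noncomputable section

lemma exp_le_two {η : ℝ} (h0 : 0 ≤ η) (h1 : η ≤ 1) : Real.exp η ≤ 1 + 2 * η := by
  have h := Real.abs_exp_sub_one_sub_id_le (x := η) (by rw [abs_of_nonneg h0]; exact h1)
  have h2 := (abs_le.mp h).2
  nlinarith

/-- the pairs with `p.1 < p.2` and ratio near `1` -/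
lemma near_half (X : ℕ) {η : ℝ} (h0 : 0 ≤ η) (h1 : η ≤ 1) :
    ∑ a ∈ Icc 1 X, ∑ b ∈ (Icc 1 X).filter (fun b => a < b ∧ |Real.log a - Real.log b| ≤ η),
      (1 / ((a:ℝ) * b)) ≤ 2 * η * ∑ g ∈ Icc 1 X, (1 / (g:ℝ)) := by
  rw [mul_sum]
  refine sum_le_sum fun a ha => ?_
  rw [mem_Icc] at ha
  have ha0 : (0:ℝ) < a := by exact_mod_cast ha.1
  have h2 : ∀ b ∈ (Icc 1 X).filter (fun b => a < b ∧ |Real.log a - Real.log b| ≤ η),
      (1 / ((a:ℝ) * b)) ≤ 1 / ((a:ℝ) * a) := by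
    intro b hb
    rw [mem_filter] at hb
    have : (a:ℝ) ≤ b := by exact_mod_cast hb.2.1.le
    exact one_div_le_one_div_of_le (by positivity) (by gcongr)
  have h3 : (Icc 1 X).filter (fun b => a < b ∧ |Real.log a - Real.log b| ≤ η) ⊆
      Ioc a ⌊(a:ℝ) + 2 * η * a⌋₊ := by
    intro b hb
    rw [mem_filter] at hb
    obtain ⟨-, hb1, hb2⟩ := hb
    rw [mem_Ioc]
    refine ⟨hb1, Nat.le_floor ?_⟩
    have hb0 : (0:ℝ) < b := by exact_mod_cast (by omega : 0 < b)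
    have h4 : Real.log b ≤ Real.log a + η := by
      have := (abs_le.mp hb2).1
      linarith
    have h5 : (b:ℝ) ≤ a * Real.exp η := by
      calc (b:ℝ) = Real.exp (Real.log b) := (Real.exp_log hb0).symm
        _ ≤ Real.exp (Real.log a + η) := Real.exp_le_exp.mpr h4
        _ = a * Real.exp η := by rw [Real.exp_add, Real.exp_log ha0]
    have h6 := exp_le_two h0 h1
    nlinarith
  have h4 : (((Icc 1 X).filter (fun b => a < b ∧ |Real.log a - Real.log b| ≤ η)).card : ℝ) ≤ 2 * η * a := by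
    have h5 := card_le_card h3
    rw [Nat.card_Ioc] at h5
    have h6 : (⌊(a:ℝ) + 2 * η * a⌋₊ : ℝ) ≤ (a:ℝ) + 2 * η * a := Nat.floor_le (by positivity)
    have h7 : a ≤ ⌊(a:ℝ) + 2 * η * a⌋₊ := Nat.le_floor (by nlinarith)
    have h8 : ((⌊(a:ℝ) + 2 * η * a⌋₊ - a : ℕ) : ℝ) = (⌊(a:ℝ) + 2 * η * a⌋₊ : ℝ) - a := by
      rw [Nat.cast_sub h7]
    have h9 : (((Icc 1 X).filter (fun b => a < b ∧ |Real.log a - Real.log b| ≤ η)).card : ℝ) ≤
      ((⌊(a:ℝ) + 2 * η * a⌋₊ - a : ℕ) : ℝ) := by exact_mod_cast h5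
    linarith
  calc _ ≤ ∑ _b ∈ (Icc 1 X).filter (fun b => a < b ∧ |Real.log a - Real.log b| ≤ η), 1 / ((a:ℝ) * a) :=
        sum_le_sum h2
    _ = (((Icc 1 X).filter (fun b => a < b ∧ |Real.log a - Real.log b| ≤ η)).card : ℝ) * (1 / ((a:ℝ) * a)) := by
        rw [sum_const, nsmul_eq_mul]
    _ ≤ (2 * η * a) * (1 / ((a:ℝ) * a)) := mul_le_mul_of_nonneg_right h4 (by positivity)
    _ = 2 * η * (1 / (a:ℝ)) := by field_simp

lemma near_all (X : ℕ) {η : ℝ} (h0 : 0 ≤ η) (h1 : η ≤ 1) :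
    ∑ p ∈ (PP X).filter (fun p => |lm p| ≤ η), (1 / ((p.1:ℝ) * p.2)) ≤ 4 * η * ∑ g ∈ Icc 1 X, (1 / (g:ℝ)) := by
  classical
  set S1 : Finset (ℕ × ℕ) := ((Icc 1 X) ×ˢ (Icc 1 X)).filter (fun p => p.1 < p.2 ∧ |lm p| ≤ η) with hS1
  set S2 : Finset (ℕ × ℕ) := ((Icc 1 X) ×ˢ (Icc 1 X)).filter (fun p => p.2 < p.1 ∧ |lm p| ≤ η) with hS2
  have h2 : (PP X).filter (fun p => |lm p| ≤ η) ⊆ S1 ∪ S2 := by
    intro p hp
    unfold PP at hp
    rw [mem_filter, mem_filter] at hp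
    rw [mem_union, hS1, hS2, mem_filter, mem_filter]
    rcases lt_or_gt_of_ne hp.1.2 with h | h
    · exact Or.inl ⟨hp.1.1, h, hp.2⟩
    · exact Or.inr ⟨hp.1.1, h, hp.2⟩
  have h3 : ∑ p ∈ S1, (1 / ((p.1:ℝ) * p.2)) ≤ 2 * η * ∑ g ∈ Icc 1 X, (1 / (g:ℝ)) := by
    refine le_trans (le_of_eq ?_) (near_half X h0 h1)
    rw [hS1, sum_filter, sum_product]
    refine sum_congr rfl fun a _ => ?_
    rw [sum_filter]
    rfl
  have h4 : ∑ p ∈ S2, (1 / ((p.1:ℝ) * p.2)) ≤ 2 * η * ∑ g ∈ Icc 1 X, (1 / (g:ℝ)) := by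
    refine le_trans (le_of_eq ?_) (near_half X h0 h1)
    rw [hS2, sum_filter, sum_product_right]
    refine sum_congr rfl fun b _ => ?_
    rw [sum_filter]
    refine sum_congr rfl fun a _ => ?_
    refine if_congr ?_ ?_ rfl
    · simp only [lm]
      rw [abs_sub_comm]
    · simp only
      rw [mul_comm]
  calc _ ≤ ∑ p ∈ S1 ∪ S2, (1 / ((p.1:ℝ) * p.2)) := sum_le_sum_of_subset_of_nonneg h2 fun p _ _ => by positivity
    _ ≤ ∑ p ∈ S1, (1 / ((p.1:ℝ) * p.2)) + ∑ p ∈ S2, (1 / ((p.1:ℝ) * p.2)) := by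
        rw [← sum_union_inter]
        have : 0 ≤ ∑ p ∈ S1 ∩ S2, (1 / ((p.1:ℝ) * p.2)) := sum_nonneg fun _ _ => by positivity
        linarith
    _ ≤ _ := by linarith

/-- the weight of a ratio -/
def wH (H x : ℝ) : ℝ := Real.sinc (H * x) ^ 2

lemma wH_nonneg (H x : ℝ) : 0 ≤ wH H x := sq_nonneg _

lemma wH_le_one (H x : ℝ) : wH H x ≤ 1 := by
  unfold wH
  rw [sq_le_one_iff_abs_le_one]
  exact Real.abs_sinc_le_one _

lemma wH_le {H η x : ℝ} (hH : 0 < H) (hη : 0 < η) (h : η < |x|) : wH H x ≤ 1 / (H * η) ^ 2 := by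
  have hx : x ≠ 0 := by
    intro h0
    rw [h0, abs_zero] at h
    linarith
  unfold wH
  rw [Real.sinc_of_ne_zero (mul_ne_zero hH.ne' hx), div_pow]
  have h1 : Real.sin (H * x) ^ 2 ≤ 1 := Real.sin_sq_le_one _
  have h2 : (H * η) ^ 2 ≤ (H * x) ^ 2 := by
    rw [mul_pow, mul_pow]
    have : η ^ 2 ≤ x ^ 2 := by
      rw [← sq_abs x]
      exact pow_le_pow_left₀ hη.le h.le 2
    gcongr
  exact div_le_div₀ (by norm_num) h1 (by positivity) h2

/-- the diagonal sum -/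
theorem diag_le (X : ℕ) {H : ℝ} (hH : 1 ≤ H) :
    ∑ p ∈ PP X, (1 / ((p.1 : ℝ) * p.2)) * wH H (lm p) ≤ 5 * (1 + Real.log X) ^ 2 / Real.sqrt H := by
  classical
  have hH0 : 0 < H := by linarith
  have hs0 : 0 < Real.sqrt H := Real.sqrt_pos.mpr hH0
  have hs1 : 1 ≤ Real.sqrt H := Real.one_le_sqrt.mpr hH
  set η : ℝ := 1 / Real.sqrt H with hη
  have hη0 : 0 < η := by positivity
  have hη1 : η ≤ 1 := by rw [hη, div_le_one hs0]; exact hs1
  set h : ℝ := ∑ g ∈ Icc 1 X, (1 / (g:ℝ)) with hh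
  have hh0 : 0 ≤ h := sum_nonneg fun _ _ => by positivity
  have hhl : h ≤ 1 + Real.log X := harm X
  have hl1 : 1 ≤ 1 + Real.log X := by
    have := Real.log_natCast_nonneg X
    linarith
  rw [← sum_filter_add_sum_filter_not (PP X) (fun p => |lm p| ≤ η)]
  have h1 : ∑ p ∈ (PP X).filter (fun p => |lm p| ≤ η), (1 / ((p.1 : ℝ) * p.2)) * wH H (lm p) ≤ 4 * η * h := by
    refine le_trans (sum_le_sum fun p _ => ?_) (near_all X hη0.le hη1)
    exact mul_le_of_le_one_right (by positivity) (wH_le_one _ _)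
  have h2 : ∑ p ∈ (PP X).filter (fun p => ¬ |lm p| ≤ η), (1 / ((p.1 : ℝ) * p.2)) * wH H (lm p) ≤
      1 / (H * η) ^ 2 * h ^ 2 := by
    calc _ ≤ ∑ p ∈ (PP X).filter (fun p => ¬ |lm p| ≤ η), (1 / (H * η) ^ 2) * (1 / ((p.1 : ℝ) * p.2)) := by
          refine sum_le_sum fun p hp => ?_
          rw [mem_filter, not_le] at hp
          rw [mul_comm]
          exact mul_le_mul_of_nonneg_right (wH_le hH0 hη0 hp.2) (by positivity)
      _ ≤ ∑ p ∈ (Icc 1 X) ×ˢ (Icc 1 X), (1 / (H * η) ^ 2) * (1 / ((p.1 : ℝ) * p.2)) := by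
          refine sum_le_sum_of_subset_of_nonneg ?_ fun p _ _ => by positivity
          exact (filter_subset _ _).trans (filter_subset _ _)
      _ = 1 / (H * η) ^ 2 * h ^ 2 := by
          rw [← mul_sum, sum_product, hh, sq (∑ g ∈ Icc 1 X, (1 / (g:ℝ))), sum_mul_sum]
          congr 1
          refine sum_congr rfl fun a _ => sum_congr rfl fun b _ => ?_
          rw [one_div_mul_one_div]
  have e1 : (H * η) ^ 2 = H := by
    rw [hη, mul_one_div, div_pow, Real.sq_sqrt hH0.le]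
    field_simp
  have h3 : 1 / H ≤ 1 / Real.sqrt H := by
    apply one_div_le_one_div_of_le hs0
    calc Real.sqrt H = Real.sqrt H * 1 := (mul_one _).symm
      _ ≤ Real.sqrt H * Real.sqrt H := by gcongr
      _ = H := Real.mul_self_sqrt hH0.le
  rw [e1] at h2
  have h4 : h ≤ (1 + Real.log X) ^ 2 := by nlinarith
  have h5 : h ^ 2 ≤ (1 + Real.log X) ^ 2 := pow_le_pow_left₀ hh0 hhl 2
  calc _ ≤ 4 * η * h + 1 / H * h ^ 2 := add_le_add h1 h2
    _ ≤ 4 * (1 / Real.sqrt H) * (1 + Real.log X) ^ 2 + 1 / Real.sqrt H * (1 + Real.log X) ^ 2 := by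
        gcongr
    _ = _ := by ring

lemma sqrt4 {a b c d : ℝ} (ha : 0 ≤ a) (hb : 0 ≤ b) (hc : 0 ≤ c) :
    1 / Real.sqrt (a * b * (c * d)) = (1 / Real.sqrt a) * (1 / Real.sqrt b) * ((1 / Real.sqrt c) * (1 / Real.sqrt d)) := by
  rw [Real.sqrt_mul (mul_nonneg ha hb), Real.sqrt_mul ha, Real.sqrt_mul hc]
  simp only [one_div, mul_inv]

/-- the Dirichlet polynomial -/
def DQ (X : ℕ) (a : ℕ → ℝ) (t : ℝ) : ℂ := ∑ n ∈ Icc 1 X, (a n : ℂ) * (n : ℂ) ^ (-(t : ℂ) * Complex.I)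

lemma DQ_sq (X : ℕ) (a : ℕ → ℝ) (t : ℝ) :
    ‖DQ X a t‖ ^ 2 = ∑ p ∈ (Icc 1 X) ×ˢ (Icc 1 X), a p.1 * a p.2 * Real.cos (t * lm p) := by
  have h1 : DQ X a t = ((∑ n ∈ Icc 1 X, a n * Real.cos (t * Real.log n) : ℝ) : ℂ) +
      ((∑ n ∈ Icc 1 X, (-(a n * Real.sin (t * Real.log n))) : ℝ) : ℂ) * Complex.I := by
    unfold DQ
    rw [Complex.ofReal_sum, Complex.ofReal_sum, sum_mul, ← sum_add_distrib]
    refine sum_congr rfl fun n hn => ?_
    rw [mem_Icc] at hn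
    have hn0 : (n:ℂ) ≠ 0 := by exact_mod_cast (by omega : n ≠ 0)
    rw [Complex.cpow_def_of_ne_zero hn0, ← Complex.natCast_log]
    have e : (((Real.log n : ℝ) : ℂ) * (-(t:ℂ) * Complex.I)) = ((-(t * Real.log n) : ℝ) : ℂ) * Complex.I := by
      push_cast; ring
    rw [e, Complex.exp_mul_I, ← Complex.ofReal_cos, ← Complex.ofReal_sin, Real.cos_neg, Real.sin_neg]
    push_cast
    ring
  rw [h1, Complex.sq_norm, Complex.normSq_add_mul_I, sum_neg_distrib, neg_sq]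
  rw [cos_sum_sq (Icc 1 X) a (fun n => Real.log n) t, sum_product]
  rfl

/-- **the variance of the window averages** -/
theorem var_main (X : ℕ) (a : ℕ → ℝ) (ha : ∀ n ∈ Icc 1 X, 0 ≤ a n ∧ a n ≤ 1 / Real.sqrt n) {H T1 T2 : ℝ}
    (hH : 1 ≤ H) (hT : T1 ≤ T2) (hX : 1 ≤ X) :
    ∫ c in T1..T2, ((∫ t in (c - H)..(c + H), ‖DQ X a t‖ ^ 2) - 2 * H * ∑ n ∈ Icc 1 X, a n ^ 2) ^ 2 ≤
      4 * H ^ 2 * ((T2 - T1) * (5 * (1 + Real.log X) ^ 4 / Real.sqrt H) + 2 * (X:ℝ) ^ 6) := by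
  classical
  have hH0 : 0 < H := by linarith
  have hX0 : (0:ℝ) < X := by exact_mod_cast hX
  set b : ℕ × ℕ → ℝ := fun p => a p.1 * a p.2 * Real.sinc (H * lm p) with hb
  -- the window integral
  have h1 : ∀ c : ℝ, (∫ t in (c - H)..(c + H), ‖DQ X a t‖ ^ 2) - 2 * H * ∑ n ∈ Icc 1 X, a n ^ 2 =
      2 * H * ∑ p ∈ PP X, b p * Real.cos (c * lm p) := by
    intro c
    simp_rw [DQ_sq]
    rw [intervalIntegral.integral_finsetSum (fun p _ => Continuous.intervalIntegrable (by fun_prop) _ _)]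
    have e1 : ∀ p ∈ (Icc 1 X) ×ˢ (Icc 1 X), (∫ t in (c - H)..(c + H), a p.1 * a p.2 * Real.cos (t * lm p)) =
        2 * H * (b p * Real.cos (c * lm p)) := by
      intro p _
      rw [intervalIntegral.integral_const_mul, win_cos c H _ hH0, hb]
      ring
    rw [sum_congr rfl e1, ← mul_sum, ← mul_sub]
    congr 1
    rw [← sum_filter_add_sum_filter_not ((Icc 1 X) ×ˢ (Icc 1 X)) (fun p => p.1 ≠ p.2)]
    have e2 : ∑ p ∈ ((Icc 1 X) ×ˢ (Icc 1 X)).filter (fun p => ¬ (p.1 ≠ p.2)), b p * Real.cos (c * lm p) =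
        ∑ n ∈ Icc 1 X, a n ^ 2 := by
      symm
      refine sum_bij (fun n _ => (n, n)) ?_ ?_ ?_ ?_
      · intro n hn
        rw [mem_filter, mem_product]
        exact ⟨⟨hn, hn⟩, by simp⟩
      · intro n _ m _ h
        exact (Prod.mk.inj h).1
      · rintro ⟨m, n⟩ h
        rw [mem_filter, mem_product] at h
        have h2 : m = n := by
          have := h.2
          simpa using this
        exact ⟨m, h.1.1, by rw [h2]⟩
      · intro n _
        simp only [hb, lm, sub_self, mul_zero, Real.sinc_zero, Real.cos_zero, mul_one]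
        ring
    rw [e2]
    unfold PP
    ring
  simp_rw [h1]
  have h2 : ∀ c : ℝ, (2 * H * ∑ p ∈ PP X, b p * Real.cos (c * lm p)) ^ 2 =
      4 * H ^ 2 * (∑ p ∈ PP X, b p * Real.cos (c * lm p)) ^ 2 := fun c => by ring
  simp_rw [h2]
  rw [intervalIntegral.integral_const_mul]
  refine mul_le_mul_of_nonneg_left ?_ (by positivity)
  have h3 := ms_cos (PP X) b lm (δ := 1 / (X:ℝ) ^ 2) hT (by positivity) (by
    intro p hp r hr h
    rw [mem_PP] at hp hr
    exact lm_sep (mem_Icc.mpr hp.1) (mem_Icc.mpr hp.2.1) (mem_Icc.mpr hr.1) (mem_Icc.mpr hr.2.1) h)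
  refine h3.trans (add_le_add ?_ ?_)
  · refine mul_le_mul_of_nonneg_left ?_ (by linarith)
    have e3 : ∑ p ∈ PP X, ∑ r ∈ PP X, (if lm p = lm r then |b p| * |b r| else 0) =
        ∑ q ∈ ((PP X) ×ˢ (PP X)).filter (fun q => lm q.1 = lm q.2), |b q.1| * |b q.2| := by
      rw [sum_filter, sum_product]
    rw [e3]
    have h4 : ∑ q ∈ ((PP X) ×ˢ (PP X)).filter (fun q => lm q.1 = lm q.2), |b q.1| * |b q.2| ≤
        ∑ q ∈ ((PP X) ×ˢ (PP X)).filter (fun q => lm q.1 = lm q.2),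
          (1 / Real.sqrt ((q.1.1 : ℝ) * q.1.2 * (q.2.1 * q.2.2))) * wH H (lm q.1) := by
      refine sum_le_sum fun q hq => ?_
      rw [mem_filter, mem_product, mem_PP, mem_PP] at hq
      obtain ⟨⟨hq1, hq2⟩, hq3⟩ := hq
      have f1 := ha q.1.1 (mem_Icc.mpr hq1.1)
      have f2 := ha q.1.2 (mem_Icc.mpr hq1.2.1)
      have f3 := ha q.2.1 (mem_Icc.mpr hq2.1)
      have f4 := ha q.2.2 (mem_Icc.mpr hq2.2.1)
      have e4 : |b q.1| * |b q.2| = (a q.1.1 * a q.1.2 * (a q.2.1 * a q.2.2)) * wH H (lm q.1) := by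
        simp only [hb, abs_mul]
        rw [← hq3, abs_of_nonneg f1.1, abs_of_nonneg f2.1, abs_of_nonneg f3.1, abs_of_nonneg f4.1]
        unfold wH
        rw [← sq_abs]
        ring
      rw [e4, sqrt4 (Nat.cast_nonneg _) (Nat.cast_nonneg _) (Nat.cast_nonneg _)]
      refine mul_le_mul_of_nonneg_right ?_ (wH_nonneg _ _)
      have g1 := f1.1
      have g2 := f2.1
      have g3 := f3.1
      have g4 := f4.1
      refine mul_le_mul (mul_le_mul f1.2 f2.2 g2 (by positivity)) (mul_le_mul f3.2 f4.2 g4 (by positivity))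
        (by positivity) (by positivity)
    refine h4.trans ((quad_sum X (wH H) (wH_nonneg H)).trans ?_)
    have h5 := diag_le X hH
    have h6 := harm X
    have h7 : 0 ≤ ∑ g ∈ Icc 1 X, (1 / (g:ℝ)) := sum_nonneg fun _ _ => by positivity
    have hs0 : 0 < Real.sqrt H := Real.sqrt_pos.mpr hH0
    have h8 : 0 ≤ 1 + Real.log X := by
      have := Real.log_natCast_nonneg X
      linarith
    calc (∑ g ∈ Icc 1 X, (1 / (g:ℝ))) ^ 2 * ∑ p ∈ PP X, (1 / ((p.1 : ℝ) * p.2)) * wH H (lm p) ≤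
          (1 + Real.log X) ^ 2 * (5 * (1 + Real.log X) ^ 2 / Real.sqrt H) := by
          refine mul_le_mul (pow_le_pow_left₀ h7 h6 2) h5 ?_ (by positivity)
          exact sum_nonneg fun p _ => mul_nonneg (by positivity) (wH_nonneg _ _)
      _ = _ := by ring
  · have h4 : ∑ p ∈ PP X, |b p| ≤ (X:ℝ) ^ 2 := by
      calc ∑ p ∈ PP X, |b p| ≤ ∑ p ∈ (Icc 1 X) ×ˢ (Icc 1 X), (1:ℝ) := by
            refine le_trans (sum_le_sum fun p hp => ?_)
              (sum_le_sum_of_subset_of_nonneg (filter_subset _ _) fun _ _ _ => zero_le_one)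
            rw [mem_PP] at hp
            have f1 := ha p.1 (mem_Icc.mpr hp.1)
            have f2 := ha p.2 (mem_Icc.mpr hp.2.1)
            have g1 : a p.1 ≤ 1 := f1.2.trans (by
              rw [div_le_one (Real.sqrt_pos.mpr (by exact_mod_cast hp.1.1))]
              exact Real.one_le_sqrt.mpr (by exact_mod_cast hp.1.1))
            have g2 : a p.2 ≤ 1 := f2.2.trans (by
              rw [div_le_one (Real.sqrt_pos.mpr (by exact_mod_cast hp.2.1.1))]
              exact Real.one_le_sqrt.mpr (by exact_mod_cast hp.2.1.1))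
            simp only [hb, abs_mul]
            rw [abs_of_nonneg f1.1, abs_of_nonneg f2.1]
            have g3 := Real.abs_sinc_le_one (H * lm p)
            calc a p.1 * a p.2 * |Real.sinc (H * lm p)| ≤ 1 * 1 * 1 := by
                  refine mul_le_mul (mul_le_mul g1 g2 f2.1 zero_le_one) g3 (abs_nonneg _) (by norm_num)
              _ = 1 := by norm_num
        _ = (X:ℝ) ^ 2 := by
            rw [sum_const, card_product, Nat.card_Icc, nsmul_eq_mul, mul_one]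
            push_cast
            ring
    have h5 : 0 ≤ ∑ p ∈ PP X, |b p| := sum_nonneg fun _ _ => abs_nonneg _
    calc 2 / (1 / (X:ℝ) ^ 2) * (∑ p ∈ PP X, |b p|) ^ 2 ≤ 2 / (1 / (X:ℝ) ^ 2) * ((X:ℝ) ^ 2) ^ 2 := by
          refine mul_le_mul_of_nonneg_left (pow_le_pow_left₀ h5 h4 2) (by positivity)
      _ = 2 * (X:ℝ) ^ 6 := by field_simp

end

end Pool.Agent.K6.H33.FZ
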