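import Pool.Agent.K6.H33.FZ.Mid
import Pool.Agent.K6.H33.FZ.Off3

set_option autoImplicit false

/-! Large values on the critical line in most short windows. -/

namespace Pool.Agent.K6.H33.FZ

open MeasureTheory Set Filter
open scoped ENNReal
open Pool.Agent.W184 (zn zn_nonneg zn_cont zn_le)
open Pool.Agent.Y745.LD
open Pool.Agent.Y448.LD (tL tLL)
open Pool.Agent.Y757.LS (pt)

noncomputable section

lemma ev_rpow {a : ℝ} (ha : 0 < a) (C : ℝ) : ∀ᶠ T : ℝ in atTop, C ≤ Real.log T ^ a :=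
  ((tendsto_rpow_atTop ha).comp Real.tendsto_log_atTop).eventually_ge_atTop C

lemma ev_LL {a : ℝ} (ha : 0 < a) : ∀ᶠ T : ℝ in atTop, LL T ≤ Real.log T ^ a := by
  have h1 := (isLittleO_log_rpow_atTop ha).bound (c := 1) one_pos
  filter_upwards [tL.eventually h1, tL.eventually_ge_atTop 1] with T h2 h3
  have h4 : 0 ≤ Real.log T ^ a := Real.rpow_nonneg (by linarith) a
  rw [one_mul, Real.norm_of_nonneg h4] at h2
  exact (le_abs_self _).trans h2

lemma HH_pos : ∀ᶠ T : ℝ in atTop, 0 < 2 * HH T := by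
  filter_upwards [tL.eventually_gt_atTop 0] with T h
  unfold HH
  positivity

lemma HH_le : ∀ᶠ T : ℝ in atTop, 2 * HH T ≤ T / 2 := by
  filter_upwards [ev_exp 12 1 one_pos 4, eventually_gt_atTop 0] with T h1 h2
  rw [one_mul, Real.exp_log h2] at h1
  unfold HH
  linarith

lemma fac_ev (p : ℝ) (M : ℕ) {e : ℝ} (he : e < 1) : ∀ᶠ T : ℝ in atTop,
    1 / 2 ≤ ((1 - 8 * Real.log T ^ (e - 1)) / (1 + Real.log T ^ (e - 1)) ^ (2 * M)) ^ p := by
  have h1 : Tendsto (fun T : ℝ => Real.log T ^ (e - 1)) atTop (nhds 0) := by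
    have := (tendsto_rpow_neg_atTop (show 0 < 1 - e by linarith)).comp tL
    refine this.congr fun T => ?_
    simp [neg_sub]
  have h2 : Tendsto (fun T : ℝ => ((1 - 8 * Real.log T ^ (e - 1)) / (1 + Real.log T ^ (e - 1)) ^ (2 * M)) ^ p) atTop
      (nhds (((1 - 8 * 0) / (1 + 0) ^ (2 * M)) ^ p)) := by
    refine Tendsto.rpow_const ?_ (Or.inl (by norm_num))
    exact (tendsto_const_nhds.sub (h1.const_mul 8)).div ((tendsto_const_nhds.add h1).pow _) (by norm_num)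
  have h3 : (((1:ℝ) - 8 * 0) / (1 + 0) ^ (2 * M)) ^ p = 1 := by simp
  rw [h3] at h2
  exact h2.eventually (eventually_ge_nhds (by norm_num))

/-- the size of the tails -/
lemma tail_ev (C : ℝ) (hC : 0 ≤ C) {a e : ℝ} (ha : a ≤ 1) (he : 0 < e) : ∀ᶠ T : ℝ in atTop,
    2 * HH T * (C * (T * Real.log T ^ a) * (4 * Real.pi * (1 / Real.log T ^ (e - 1)) * HH T ^ (-(29:ℝ))) +
      T * (144 * (1 + 2 * T) ^ 2) * (4 * Real.pi * (1 / Real.log T ^ (e - 1)) * (T / 2) ^ (-(29:ℝ)))) ≤ T / Real.log T := by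
  filter_upwards [tL.eventually_ge_atTop 2, tL.eventually_ge_atTop (16 * C * Real.pi), eventually_ge_atTop 2,
    ev_exp 14 1 one_pos (32 * 144 * 9 * Real.pi * 2 ^ 29)] with T h1 h2 h3 h4
  set L := Real.log T with hL
  have hL0 : 0 < L := by linarith
  have hL1 : 1 ≤ L := by linarith
  have hT0 : 0 < T := by linarith
  rw [one_mul, Real.exp_log hT0] at h4
  have hd : 1 / L ^ (e - 1) ≤ L := by
    rw [one_div, ← Real.rpow_neg hL0.le]
    calc L ^ (-(e - 1)) ≤ L ^ (1:ℝ) := Real.rpow_le_rpow_of_exponent_le hL1 (by linarith)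
      _ = L := Real.rpow_one L
  have hd0 : 0 ≤ 1 / L ^ (e - 1) := by positivity
  have hLa : L ^ a ≤ L := by
    calc L ^ a ≤ L ^ (1:ℝ) := Real.rpow_le_rpow_of_exponent_le hL1 ha
      _ = L := Real.rpow_one L
  have hH : HH T = L ^ 12 := rfl
  have hH29 : HH T ^ (-(29:ℝ)) = (L ^ 348)⁻¹ := by
    rw [hH, Real.rpow_neg (by positivity)]
    congr 1
    have : ((29:ℝ)) = ((29:ℕ):ℝ) := by norm_num
    rw [this, Real.rpow_natCast, ← pow_mul]
  have hT29 : (T / 2) ^ (-(29:ℝ)) = (((T / 2) ^ 29))⁻¹ := by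
    rw [Real.rpow_neg (by positivity)]
    congr 1
    have : ((29:ℝ)) = ((29:ℕ):ℝ) := by norm_num
    rw [this, Real.rpow_natCast]
  rw [hH29, hT29, hH]
  have hpi := Real.pi_pos
  have p1 : 2 * L ^ 12 * (C * (T * L ^ a) * (4 * Real.pi * (1 / L ^ (e - 1)) * (L ^ 348)⁻¹)) ≤ T / (2 * L) := by
    calc 2 * L ^ 12 * (C * (T * L ^ a) * (4 * Real.pi * (1 / L ^ (e - 1)) * (L ^ 348)⁻¹)) ≤
          2 * L ^ 12 * (C * (T * L) * (4 * Real.pi * L * (L ^ 348)⁻¹)) := by gcongr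
      _ = 8 * C * Real.pi * T * (L ^ 14 * (L ^ 348)⁻¹) := by ring
      _ = 8 * C * Real.pi * T / L ^ 334 := by
          rw [show (348:ℕ) = 14 + 334 by norm_num, pow_add]
          field_simp
      _ ≤ T / (2 * L) := by
          rw [div_le_div_iff₀ (by positivity) (by positivity)]
          have h5 : L * L ≤ L ^ 334 := by
            rw [← pow_two]; exact pow_le_pow_right₀ hL1 (by norm_num)
          calc 8 * C * Real.pi * T * (2 * L) = T * ((16 * C * Real.pi) * L) := by ring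
            _ ≤ T * (L * L) := by gcongr
            _ ≤ T * L ^ 334 := by gcongr
  have p2 : 2 * L ^ 12 * (T * (144 * (1 + 2 * T) ^ 2) * (4 * Real.pi * (1 / L ^ (e - 1)) * ((T / 2) ^ 29)⁻¹)) ≤
      T / (2 * L) := by
    have h5 : (1 + 2 * T) ^ 2 ≤ 9 * T ^ 2 := by nlinarith
    calc 2 * L ^ 12 * (T * (144 * (1 + 2 * T) ^ 2) * (4 * Real.pi * (1 / L ^ (e - 1)) * ((T / 2) ^ 29)⁻¹)) ≤
          2 * L ^ 12 * (T * (144 * (9 * T ^ 2)) * (4 * Real.pi * L * ((T / 2) ^ 29)⁻¹)) := by gcongr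
      _ = (8 * 144 * 9 * Real.pi * 2 ^ 29) * L ^ 13 * (T ^ 3 * (T ^ 29)⁻¹) := by
          rw [div_pow]; field_simp; norm_num
      _ = (8 * 144 * 9 * Real.pi * 2 ^ 29) * L ^ 13 / T ^ 26 := by
          rw [show (29:ℕ) = 3 + 26 by norm_num, pow_add T]
          field_simp
      _ ≤ T / (2 * L) := by
          rw [div_le_div_iff₀ (by positivity) (by positivity)]
          have h6 : (1:ℝ) ≤ T ^ 26 := one_le_pow₀ (by linarith)
          calc (8 * 144 * 9 * Real.pi * 2 ^ 29) * L ^ 13 * (2 * L) =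
                (16 * 144 * 9 * Real.pi * 2 ^ 29) * L ^ 14 := by ring
            _ ≤ (32 * 144 * 9 * Real.pi * 2 ^ 29) * L ^ 14 := by gcongr; norm_num
            _ ≤ T := h4
            _ ≤ T * T ^ 26 := le_mul_of_one_le_right hT0.le h6
  have e1 : T / L = T / (2 * L) + T / (2 * L) := by field_simp; ring
  rw [e1, mul_add]
  exact add_le_add p1 p2

/-- **large values on the critical line in most windows** -/
theorem win_line (hG1M : P_G1M) {κ s : ℝ} (hs : 0 < s) (hsκ : s < κ) (hκ1 : κ + s ≤ 1) :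
    ∃ C : ℝ, 0 ≤ C ∧ ∀ᶠ T : ℝ in atTop, ∃ Bd : Set ℝ,
      volume Bd ≤ ENNReal.ofReal (C * (T / LL T)) ∧ ∀ x ∈ Icc T (2 * T), x ∉ Bd →
        ENNReal.ofReal (HH T * Real.log T ^ (-κ ^ 2 - 3 * s)) ≤
          volume ({t | Real.log T ^ (κ - s) ≤ zn (1 / 2) t} ∩ Icc (x - 2 * HH T) (x + 2 * HH T)) := by
  have hκ : 0 < κ := hs.trans hsκ
  have hs1 : s ≤ 1 := by linarith
  set δ : ℝ := s ^ 2 / 8 with hδ
  have hδ0 : 0 < δ := by positivity
  have hδ1 : δ ≤ 1 := by rw [hδ]; nlinarith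
  obtain ⟨e, C0, he0, he1, hC0, hoff⟩ := off_win hG1M hκ (by linarith) hδ0 hδ1
  set p : ℝ := 2 * κ with hp
  have hp0 : 0 < p := by positivity
  have hp2 : p ≤ 2 := by rw [hp]; linarith
  obtain ⟨M, hM⟩ := exists_nat_ge (17 / p)
  have hMp : 17 ≤ (M:ℝ) * p := by rwa [div_le_iff₀ hp0] at hM
  have hM1 : 1 ≤ M := by
    rcases Nat.eq_zero_or_pos M with h | h
    · rw [h] at hMp; norm_num at hMp
    · exact h
  obtain ⟨C1, hC1, hm0⟩ := mom_line hκ (by linarith)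
  obtain ⟨C2, hC2, hu1⟩ := up_win (α := κ + s) (δ := δ) (by linarith) (by linarith) HH_pos HH_le
  obtain ⟨C3, hC3, hu2⟩ := up_win (α := κ - s) (δ := δ) (by linarith) (by linarith) HH_pos HH_le
  refine ⟨C0 + 1 + C2 + C3 + 1, by positivity, ?_⟩
  filter_upwards [hoff, hm0, hu1, hu2, fac_ev p M he1, tail_ev C1 (by linarith) (a := κ ^ 2) (e := e) (by nlinarith) he0,
    HH_pos, HH_le, ev_LL hδ0, tL.eventually_ge_atTop 2, ev_rpow (show 0 < 4 * δ by linarith) 64,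
    ev_rpow (show 0 < s / 2 by linarith) 8, tLL.eventually_ge_atTop 1, eventually_ge_atTop 100,
    ev_pw 1 4 12, ((tendsto_rpow_neg_atTop (show 0 < 1 - e by linarith)).comp tL).eventually
      (gt_mem_nhds (by norm_num : (0:ℝ) < 1 / 8))]
    with T g1 g2 g3 g4 g5 g6 g7 g8 g9 g10 g11 g12 g13 g14 g15 g16
  obtain ⟨B0, hB0, hgood⟩ := g1
  set L := Real.log T with hL
  set ℓ := LL T with hℓ
  set H := HH T with hH
  have hL0 : 0 < L := by linarith
  have hL1 : 1 ≤ L := by linarith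
  have hT0 : 0 < T := by linarith
  have hℓ0 : 0 < ℓ := by linarith
  have hH0 : 0 < H := by linarith
  have hH12 : H = L ^ 12 := rfl
  have hLl : T / L ≤ T / ℓ := by
    refine div_le_div_of_nonneg_left hT0.le hℓ0 ?_
    have : LL T ≤ Real.log T - 1 := Real.log_le_sub_one_of_pos hL0
    linarith
  have hTδ : T * L ^ (-δ) ≤ T / ℓ := by
    rw [Real.rpow_neg hL0.le, ← div_eq_mul_inv]
    exact div_le_div_of_nonneg_left hT0.le hℓ0 g9
  set Δ : ℝ := L ^ (e - 1) with hΔ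
  have hΔ0 : 0 < Δ := Real.rpow_pos_of_pos hL0 _
  have hΔ1 : Δ ≤ 1 / 8 := by
    simp only [Function.comp_apply, neg_sub] at g16
    exact g16.le
  set fac : ℝ := ((1 - 8 * Δ) / (1 + Δ) ^ (2 * M)) ^ p with hfac
  have hfac0 : 0 ≤ fac := by linarith
  set k : ℝ → ℝ≥0∞ := fun w => ENNReal.ofReal (KK Δ p M w) with hk
  set G : ℝ → ℝ≥0∞ := fun t => ENNReal.ofReal (zn (1 / 2) t ^ p) with hG
  set f : ℝ → ℝ≥0∞ := fun t => ENNReal.ofReal (fac * zn (1 / 2 + Δ) t ^ p) with hf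
  have hkm : Measurable k := ENNReal.measurable_ofReal.comp (KK_cont M hΔ0).measurable
  have hzc : Continuous (fun t => zn (1 / 2) t ^ p) := (zn_cont (by norm_num)).rpow_const fun _ => Or.inr hp0.le
  have hGm : Measurable G := ENNReal.measurable_ofReal.comp hzc.measurable
  have htr := transfer (k := k) (G := G) (f := f) hkm hGm (KK_mass hΔ0 (by linarith))
    (half_simple hp0 hM1 hΔ0 hΔ1) (a := T) (b := 2 * T) (H := H)
  have hM0 : ∫⁻ t in Icc (T / 2) (3 * T), ENNReal.ofReal (zn (1 / 2) t ^ p) ≤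
      ENNReal.ofReal (C1 * (T * L ^ (κ ^ 2))) := by
    rw [← ofReal_integral_eq_lintegral_ofReal (hzc.continuousOn.integrableOn_compact isCompact_Icc)
      (Filter.Eventually.of_forall fun t => Real.rpow_nonneg (zn_nonneg _ _) _)]
    apply ENNReal.ofReal_le_ofReal
    rw [integral_Icc_eq_integral_Ioc, ← intervalIntegral.integral_of_le (by linarith)]
    exact g2
  have hH1 : 1 ≤ H := by
    rw [hH12]; exact one_le_pow₀ hL1
  have htail := tail_bound (p := p) hΔ0 hMp hp0.le hp2 hH1 (by linarith) hM0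
  set B1 : Set ℝ := {x | x ∈ Icc (T + H) (2 * T - H) ∧ (∫⁻ t in Icc (x - 2 * H) (x + 2 * H), G t) + 1 <
      ∫⁻ t in Icc (x - H) (x + H), f t} with hB1
  have hb1 : volume B1 ≤ ENNReal.ofReal (T / ℓ) := by
    refine htr.trans ?_
    refine (mul_le_mul' le_rfl htail).trans ?_
    rw [← ENNReal.ofReal_add (by positivity) (by positivity), ← ENNReal.ofReal_mul (by positivity)]
    exact ENNReal.ofReal_le_ofReal (g6.trans hLl)
  set B2 : Set ℝ := {x | x ∈ Icc T (2 * T) ∧ 2 * (2 * H) * L ^ ((κ + s) ^ 2 + δ) <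
      ∫ t in Icc (x - 2 * H) (x + 2 * H), zn (1 / 2) t ^ (2 * (κ + s))} with hB2
  set B3 : Set ℝ := {x | x ∈ Icc T (2 * T) ∧ 2 * (2 * H) * L ^ ((κ - s) ^ 2 + δ) <
      ∫ t in Icc (x - 2 * H) (x + 2 * H), zn (1 / 2) t ^ (2 * (κ - s))} with hB3
  set B4 : Set ℝ := Icc T (T + H) ∪ Icc (2 * T - H) (2 * T) with hB4
  have hb2 : volume B2 ≤ ENNReal.ofReal (C2 * (T / ℓ)) :=
    g3.trans (ENNReal.ofReal_le_ofReal (mul_le_mul_of_nonneg_left hTδ hC2))
  have hb3 : volume B3 ≤ ENNReal.ofReal (C3 * (T / ℓ)) :=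
    g4.trans (ENNReal.ofReal_le_ofReal (mul_le_mul_of_nonneg_left hTδ hC3))
  have hb4 : volume B4 ≤ ENNReal.ofReal (T / ℓ) := by
    refine (measure_union_le _ _).trans ?_
    rw [Real.volume_Icc, Real.volume_Icc, ← ENNReal.ofReal_add (by linarith) (by linarith)]
    apply ENNReal.ofReal_le_ofReal
    rw [Real.rpow_one] at g15
    have : 4 * H ≤ T / L := g15
    linarith
  refine ⟨(((B0 ∪ B1) ∪ B2) ∪ B3) ∪ B4, ?_, ?_⟩
  · have hTl : 0 ≤ T / ℓ := by positivity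
    calc volume ((((B0 ∪ B1) ∪ B2) ∪ B3) ∪ B4) ≤ (((volume B0 + volume B1) + volume B2) + volume B3) + volume B4 := by
          refine (measure_union_le _ _).trans (add_le_add ?_ le_rfl)
          refine (measure_union_le _ _).trans (add_le_add ?_ le_rfl)
          refine (measure_union_le _ _).trans (add_le_add ?_ le_rfl)
          exact measure_union_le _ _
      _ ≤ (((ENNReal.ofReal (C0 * (T / ℓ)) + ENNReal.ofReal (T / ℓ)) + ENNReal.ofReal (C2 * (T / ℓ))) +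
          ENNReal.ofReal (C3 * (T / ℓ))) + ENNReal.ofReal (T / ℓ) :=
          add_le_add (add_le_add (add_le_add (add_le_add hB0 hb1) hb2) hb3) hb4
      _ = ENNReal.ofReal ((C0 + 1 + C2 + C3 + 1) * (T / ℓ)) := by
          rw [← ENNReal.ofReal_add (by positivity) hTl, ← ENNReal.ofReal_add (by positivity) (by positivity),
            ← ENNReal.ofReal_add (by positivity) (by positivity), ← ENNReal.ofReal_add (by positivity) hTl]
          congr 1; ring
  · intro x hx hxB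
    have n0 : x ∉ B0 := fun h => hxB (Or.inl (Or.inl (Or.inl (Or.inl h))))
    have n1 : x ∉ B1 := fun h => hxB (Or.inl (Or.inl (Or.inl (Or.inr h))))
    have n2 : x ∉ B2 := fun h => hxB (Or.inl (Or.inl (Or.inr h)))
    have n3 : x ∉ B3 := fun h => hxB (Or.inl (Or.inr h))
    have n4 : x ∉ B4 := fun h => hxB (Or.inr h)
    have hx1 : T + H < x := by
      by_contra h
      push Not at h
      exact n4 (Or.inl ⟨hx.1, h⟩)
    have hx2 : x < 2 * T - H := by
      by_contra h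
      push Not at h
      exact n4 (Or.inr ⟨h, hx.2⟩)
    obtain ⟨-, hhit⟩ := hgood x hx n0
    have u1 : ∫ t in Icc (x - 2 * H) (x + 2 * H), zn (1 / 2) t ^ (2 * (κ + s)) ≤
        2 * (2 * H) * L ^ ((κ + s) ^ 2 + δ) := by
      by_contra h
      push Not at h
      exact n2 ⟨hx, h⟩
    have u2 : ∫ t in Icc (x - 2 * H) (x + 2 * H), zn (1 / 2) t ^ (2 * (κ - s)) ≤
        2 * (2 * H) * L ^ ((κ - s) ^ 2 + δ) := by
      by_contra h
      push Not at h
      exact n3 ⟨hx, h⟩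
    have tr : ∫⁻ t in Icc (x - H) (x + H), f t ≤ (∫⁻ t in Icc (x - 2 * H) (x + 2 * H), G t) + 1 := by
      by_contra h
      push Not at h
      exact n1 ⟨⟨hx1.le, hx2.le⟩, h⟩
    -- the lower bound for the moment off the line
    set Hit : Set ℝ := {t | L ^ (κ - δ) ≤ ‖riemannZeta (pt Δ t)‖} with hHit
    have hHm : MeasurableSet Hit := by
      refine measurableSet_le measurable_const (zeta_meas.comp ?_).norm
      unfold pt
      fun_prop
    have low1 : ENNReal.ofReal (1 / 2 * L ^ ((κ - δ) * p)) * volume (Hit ∩ Icc (x - H) (x + H)) ≤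
        ∫⁻ t in Icc (x - H) (x + H), f t := by
      calc ENNReal.ofReal (1 / 2 * L ^ ((κ - δ) * p)) * volume (Hit ∩ Icc (x - H) (x + H)) =
            ∫⁻ _t in Hit ∩ Icc (x - H) (x + H), ENNReal.ofReal (1 / 2 * L ^ ((κ - δ) * p)) := by
            rw [setLIntegral_const]
        _ ≤ ∫⁻ t in Hit ∩ Icc (x - H) (x + H), f t := by
            refine setLIntegral_mono' (hHm.inter measurableSet_Icc) fun t ht => ?_
            apply ENNReal.ofReal_le_ofReal
            have h1 : L ^ (κ - δ) ≤ zn (1 / 2 + Δ) t := by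
              have h2 : L ^ (κ - δ) ≤ ‖riemannZeta (pt Δ t)‖ := ht.1
              refine h2.trans (le_of_eq ?_)
              unfold pt zn
              push_cast
              rfl
            refine mul_le_mul g5 ?_ (by positivity) hfac0
            rw [Real.rpow_mul hL0.le]
            exact Real.rpow_le_rpow (by positivity) h1 hp0.le
        _ ≤ _ := lintegral_mono_set inter_subset_right
    have low2 : ENNReal.ofReal (1 / 2 * (H * L ^ (κ ^ 2 - 3 * δ))) ≤ ∫⁻ t in Icc (x - H) (x + H), f t := by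
      refine le_trans ?_ ((mul_le_mul' le_rfl hhit).trans low1)
      rw [← ENNReal.ofReal_mul (by positivity)]
      apply ENNReal.ofReal_le_ofReal
      have h1 : L ^ (κ ^ 2 - 3 * δ) ≤ L ^ ((κ - δ) * p) * L ^ (-κ ^ 2 - δ) := by
        rw [← Real.rpow_add hL0]
        apply Real.rpow_le_rpow_of_exponent_le hL1
        rw [hp]
        nlinarith
      calc 1 / 2 * (H * L ^ (κ ^ 2 - 3 * δ)) ≤ 1 / 2 * (H * (L ^ ((κ - δ) * p) * L ^ (-κ ^ 2 - δ))) := by gcongr
        _ = _ := by ring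
    have n1' : ∀ t, 0 ≤ zn (1 / 2) t ^ p := fun t => Real.rpow_nonneg (zn_nonneg _ _) _
    have hI0 : 0 ≤ ∫ t in Icc (x - 2 * H) (x + 2 * H), zn (1 / 2) t ^ p :=
      setIntegral_nonneg measurableSet_Icc fun t _ => n1' t
    have low3 : 1 / 2 * (H * L ^ (κ ^ 2 - 3 * δ)) ≤ (∫ t in Icc (x - 2 * H) (x + 2 * H), zn (1 / 2) t ^ p) + 1 := by
      have h1 := low2.trans tr
      rw [hG, ← ofReal_integral_eq_lintegral_ofReal (hzc.continuousOn.integrableOn_compact isCompact_Icc)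
        (Filter.Eventually.of_forall n1'), ← ENNReal.ofReal_one, ← ENNReal.ofReal_add hI0 zero_le_one] at h1
      exact (ENNReal.ofReal_le_ofReal_iff (by linarith)).mp h1
    have hbig : 4 ≤ H * L ^ (κ ^ 2 - 3 * δ) := by
      have h1 : L ^ (-(3:ℝ)) ≤ L ^ (κ ^ 2 - 3 * δ) := Real.rpow_le_rpow_of_exponent_le hL1 (by nlinarith)
      have h2 : L ^ 12 * L ^ (-(3:ℝ)) = L ^ 9 := by
        rw [Real.rpow_neg hL0.le, show ((3:ℝ)) = ((3:ℕ):ℝ) by norm_num, Real.rpow_natCast]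
        field_simp
      have h3 : (4:ℝ) ≤ L ^ 9 := by
        calc (4:ℝ) ≤ 2 ^ 9 := by norm_num
          _ ≤ L ^ 9 := pow_le_pow_left₀ (by norm_num) g10 9
      calc (4:ℝ) ≤ L ^ 9 := h3
        _ = L ^ 12 * L ^ (-(3:ℝ)) := h2.symm
        _ ≤ _ := by rw [hH12]; gcongr
    have low4 : 1 / 4 * (H * L ^ (κ ^ 2 - 3 * δ)) ≤ ∫ t in Icc (x - 2 * H) (x + 2 * H), zn (1 / 2) t ^ (2 * κ) := by
      linarith
    have key := mid_mass (zn_cont (by norm_num)) (zn_nonneg (1 / 2)) (H := 2 * H) hs hsκ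
      (a := L ^ (κ - s)) (b := L ^ (κ + s)) (by positivity)
      (Real.rpow_le_rpow_of_exponent_le hL1 (by linarith)) low4 u1 u2
    -- the two error terms
    have q1 : (L ^ (κ - s)) ^ (2 * s) * (2 * (2 * H) * L ^ ((κ - s) ^ 2 + δ)) ≤ 1 / 16 * (H * L ^ (κ ^ 2 - 3 * δ)) := by
      rw [← Real.rpow_mul hL0.le]
      have e1 : L ^ ((κ - s) * (2 * s)) * (2 * (2 * H) * L ^ ((κ - s) ^ 2 + δ)) =
          4 * H * (L ^ ((κ - s) * (2 * s)) * L ^ ((κ - s) ^ 2 + δ)) := by ring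
      rw [e1, ← Real.rpow_add hL0]
      have e2 : (κ - s) * (2 * s) + ((κ - s) ^ 2 + δ) = (κ ^ 2 - 3 * δ) + (-(4 * δ)) := by
        rw [hδ]; ring
      rw [e2, Real.rpow_add hL0, Real.rpow_neg hL0.le]
      have h1 : (L ^ (4 * δ))⁻¹ ≤ 1 / 64 := by
        rw [← one_div]
        exact one_div_le_one_div_of_le (by norm_num) g11
      calc 4 * H * (L ^ (κ ^ 2 - 3 * δ) * (L ^ (4 * δ))⁻¹) ≤ 4 * H * (L ^ (κ ^ 2 - 3 * δ) * (1 / 64)) := by gcongr
        _ = _ := by ring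
    have q2 : (L ^ (κ + s)) ^ (-(2 * s)) * (2 * (2 * H) * L ^ ((κ + s) ^ 2 + δ)) ≤ 1 / 16 * (H * L ^ (κ ^ 2 - 3 * δ)) := by
      rw [← Real.rpow_mul hL0.le]
      have e1 : L ^ ((κ + s) * (-(2 * s))) * (2 * (2 * H) * L ^ ((κ + s) ^ 2 + δ)) =
          4 * H * (L ^ ((κ + s) * (-(2 * s))) * L ^ ((κ + s) ^ 2 + δ)) := by ring
      rw [e1, ← Real.rpow_add hL0]
      have e2 : (κ + s) * (-(2 * s)) + ((κ + s) ^ 2 + δ) = (κ ^ 2 - 3 * δ) + (-(4 * δ)) := by
        rw [hδ]; ring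
      rw [e2, Real.rpow_add hL0, Real.rpow_neg hL0.le]
      have h1 : (L ^ (4 * δ))⁻¹ ≤ 1 / 64 := by
        rw [← one_div]
        exact one_div_le_one_div_of_le (by norm_num) g11
      calc 4 * H * (L ^ (κ ^ 2 - 3 * δ) * (L ^ (4 * δ))⁻¹) ≤ 4 * H * (L ^ (κ ^ 2 - 3 * δ) * (1 / 64)) := by gcongr
        _ = _ := by ring
    set v := volume.real ({t | L ^ (κ - s) ≤ zn (1 / 2) t} ∩ Icc (x - 2 * H) (x + 2 * H)) with hv
    have key2 : 1 / 8 * (H * L ^ (κ ^ 2 - 3 * δ)) ≤ (L ^ (κ + s)) ^ (2 * κ) * v := by linarith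
    have hfin : volume ({t | L ^ (κ - s) ≤ zn (1 / 2) t} ∩ Icc (x - 2 * H) (x + 2 * H)) ≠ ⊤ :=
      ((measure_mono inter_subset_right).trans_lt (by rw [Real.volume_Icc]; exact ENNReal.ofReal_lt_top)).ne
    rw [← ENNReal.ofReal_toReal hfin]
    apply ENNReal.ofReal_le_ofReal
    have hY : 0 < (L ^ (κ + s)) ^ (2 * κ) := by positivity
    refine le_of_mul_le_mul_left (le_trans ?_ key2) hY
    rw [← Real.rpow_mul hL0.le]
    have e3 : L ^ ((κ + s) * (2 * κ)) * (H * L ^ (-κ ^ 2 - 3 * s)) =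
        H * (L ^ ((κ + s) * (2 * κ)) * L ^ (-κ ^ 2 - 3 * s)) := by ring
    rw [e3, ← Real.rpow_add hL0]
    have h1 : L ^ ((κ + s) * (2 * κ) + (-κ ^ 2 - 3 * s)) ≤ L ^ ((κ ^ 2 - 3 * δ) + (-(s / 2))) := by
      apply Real.rpow_le_rpow_of_exponent_le hL1
      rw [hδ]
      nlinarith
    have h2 : L ^ ((κ ^ 2 - 3 * δ) + (-(s / 2))) ≤ L ^ (κ ^ 2 - 3 * δ) * (1 / 8) := by
      rw [Real.rpow_add hL0, Real.rpow_neg hL0.le]
      have h3 : (L ^ (s / 2))⁻¹ ≤ 1 / 8 := by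
        rw [← one_div]
        exact one_div_le_one_div_of_le (by norm_num) g12
      gcongr
    calc H * L ^ ((κ + s) * (2 * κ) + (-κ ^ 2 - 3 * s)) ≤ H * (L ^ (κ ^ 2 - 3 * δ) * (1 / 8)) := by
          gcongr
          exact h1.trans h2
      _ = _ := by ring

end

end Pool.Agent.K6.H33.FZ
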